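import Pool.Agent.Work.MP_d47e79_lc.Detect

namespace Pool.Agent.Work.MP_d47e79_lc

open Filter Asymptotics Finset

/-- `h n = 6 ⌈log n⌉`. -/
noncomputable def hh (n : ℕ) : ℕ := 6 * ⌈Real.log n⌉₊

lemma hh_le (n : ℕ) (hn : 3 ≤ n) : (hh n : ℝ) ≤ 6 * (Real.log n + 1) := by
  unfold hh
  push_cast
  have h0 : 0 ≤ Real.log n := Real.log_natCast_nonneg n
  have := (Nat.ceil_lt_add_one h0).le
  linarith

lemma kappa_le (n : ℕ) (hn : 1 ≤ n) : ((1 : ℝ) / 2) ^ (hh n) ≤ 1 / (n : ℝ) ^ 4 := by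
  have hn0 : (0 : ℝ) < n := by exact_mod_cast hn
  have h0 : 0 ≤ Real.log n := Real.log_natCast_nonneg n
  have h1 : Real.log n ≤ (⌈Real.log n⌉₊ : ℝ) := Nat.le_ceil _
  have h2 : (1 : ℝ) / (n : ℝ) ^ 4 = Real.exp (-(4 * Real.log n)) := by
    rw [Real.exp_neg, mul_comm, Real.exp_mul, Real.exp_log hn0, one_div]
    norm_cast
  have h3 : ((1 : ℝ) / 2) ^ (hh n) = Real.exp (-((hh n : ℝ) * Real.log 2)) := by
    rw [Real.exp_neg, mul_comm, Real.exp_mul, Real.exp_log (by norm_num : (0 : ℝ) < 2),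
      Real.rpow_natCast, one_div, inv_pow]
  rw [h2, h3]
  apply Real.exp_le_exp.mpr
  have h4 : (hh n : ℝ) = 6 * (⌈Real.log n⌉₊ : ℝ) := by unfold hh; push_cast; ring
  have hl2 : (0.6931471803 : ℝ) < Real.log 2 := Real.log_two_gt_d9
  rw [h4]
  nlinarith [mul_nonneg h0 (by linarith : (0 : ℝ) ≤ Real.log 2 - 0.6931471803)]

lemma tendsto_log_pow_div (a : ℝ) (ha : 0 < a) :
    Tendsto (fun n : ℕ => (Real.log n + 1) ^ 4 / (n : ℝ) ^ a) atTop (nhds 0) := by
  have h1 : (fun x : ℝ => Real.log x + 1) =o[atTop] fun x : ℝ => x ^ (a / 4) := by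
    refine (isLittleO_log_rpow_atTop (by positivity)).add ?_
    exact isLittleO_const_left.mpr (Or.inr (tendsto_norm_atTop_atTop.comp
      (tendsto_rpow_atTop (by positivity))))
  have h2 := h1.pow (n := 4) (by norm_num)
  have h3 : (fun n : ℕ => (Real.log n + 1) ^ 4) =o[atTop] fun n : ℕ => ((n : ℝ) ^ (a / 4)) ^ 4 :=
    h2.comp_tendsto tendsto_natCast_atTop_atTop
  have h4 := h3.tendsto_div_nhds_zero
  refine h4.congr fun n => ?_
  congr 1
  rw [← Real.rpow_natCast, ← Real.rpow_mul (Nat.cast_nonneg n)]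
  congr 1
  push_cast; ring

lemma tendsto_hh_pow_div (a : ℝ) (ha : 0 < a) :
    Tendsto (fun n : ℕ => (hh n : ℝ) ^ 4 / (n : ℝ) ^ a) atTop (nhds 0) := by
  have h := (tendsto_log_pow_div a ha).const_mul (6 ^ 4)
  rw [mul_zero] at h
  refine tendsto_of_tendsto_of_tendsto_of_le_of_le' tendsto_const_nhds h ?_ ?_
  · exact Eventually.of_forall fun n => by positivity
  · filter_upwards [eventually_ge_atTop 3] with n hn
    have := hh_le n hn
    calc (hh n : ℝ) ^ 4 / (n : ℝ) ^ a ≤ (6 * (Real.log n + 1)) ^ 4 / (n : ℝ) ^ a := by gcongr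
      _ = 6 ^ 4 * ((Real.log n + 1) ^ 4 / (n : ℝ) ^ a) := by rw [mul_pow]; ring

lemma hh_pos (n : ℕ) (hn : 3 ≤ n) : 6 ≤ hh n := by
  unfold hh
  have : 1 ≤ ⌈Real.log n⌉₊ := Nat.one_le_ceil_iff.mpr (Real.log_pos (by
    have : (3 : ℝ) ≤ n := by exact_mod_cast hn
    linarith))
  omega

/-- The degree bound: `C(4h+1,2) ≤ 1200 log² n`. -/
lemma degree_le (n : ℕ) (hn : 3 ≤ n) :
    (4 * hh n + 1).choose 2 ≤ ⌈(1200 : ℝ) * Real.log n ^ 2⌉₊ := by
  have h1 := hh_le n hn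
  have hlog : 1 ≤ Real.log n := by
    have h3 : (3 : ℝ) ≤ n := by exact_mod_cast hn
    rw [Real.le_log_iff_exp_le (by linarith)]
    exact (Real.exp_one_lt_d9.le.trans (by norm_num)).trans h3
  have h2 : (hh n : ℝ) ≤ 12 * Real.log n := by linarith
  have h3 : ((4 * hh n + 1).choose 2 : ℝ) = (4 * hh n + 1) * (2 * hh n) := by
    rw [Nat.cast_choose_two]; push_cast; ring
  have h4 : ((4 * hh n + 1).choose 2 : ℝ) ≤ 1200 * Real.log n ^ 2 := by
    rw [h3]
    have h5 : (0 : ℝ) ≤ hh n := Nat.cast_nonneg _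
    calc (4 * (hh n : ℝ) + 1) * (2 * hh n) ≤ (4 * (12 * Real.log n) + 1) * (2 * (12 * Real.log n)) := by
          gcongr
      _ ≤ 1200 * Real.log n ^ 2 := by nlinarith
  exact_mod_cast h4.trans (Nat.le_ceil _)

section Main

variable {k : ℕ → ℝ} {a c : ℝ}

/-- Numerical consequences of `k ≥ c n^a`, for large `n`. -/
lemma eventually_facts (hk : ∀ n, 0 ≤ k n ∧ k n ≤ n) (ha : 0 < a) (hc : 0 < c)
    (hlow : ∀ᶠ n : ℕ in atTop, c * (n : ℝ) ^ a ≤ k n) (δ : ℝ) (hδ : 0 < δ) :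
    ∀ᶠ n : ℕ in atTop, 3 ≤ n ∧ 1 ≤ k n ∧ (hh n : ℝ) ^ 4 / k n ≤ δ ∧
      ((hh n : ℝ) ^ 4 / n ≤ δ) ∧ 4 * hh n ≤ n - 1 := by
  have hδc : 0 < δ * c := by positivity
  have e1 := (tendsto_hh_pow_div a ha).eventually (gt_mem_nhds hδc)
  have e2 := (tendsto_hh_pow_div 1 one_pos).eventually (gt_mem_nhds (lt_min hδ (by norm_num : (0:ℝ) < 1 / 100)))
  have e3 : ∀ᶠ n : ℕ in atTop, 1 ≤ c * (n : ℝ) ^ a := by
    have : Tendsto (fun n : ℕ => c * (n : ℝ) ^ a) atTop atTop :=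
      ((tendsto_rpow_atTop ha).comp tendsto_natCast_atTop_atTop).const_mul_atTop hc
    exact this.eventually (eventually_ge_atTop 1)
  filter_upwards [e1, e2, e3, hlow, eventually_ge_atTop 3] with n h1 h2 h3 h4 h5
  have hn0 : (0 : ℝ) < n := by exact_mod_cast (by omega : 0 < n)
  rw [Real.rpow_one] at h2
  have h2a := lt_of_lt_of_le h2 (min_le_left _ _)
  have h2b := lt_of_lt_of_le h2 (min_le_right _ _)
  have hna : 0 < (n : ℝ) ^ a := Real.rpow_pos_of_pos hn0 a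
  have hk1 : 1 ≤ k n := h3.trans h4
  refine ⟨h5, hk1, ?_, h2a.le, ?_⟩
  · rw [div_lt_iff₀ hna] at h1
    rw [div_le_iff₀ (by linarith)]
    calc (hh n : ℝ) ^ 4 ≤ δ * c * (n : ℝ) ^ a := h1.le
      _ = δ * (c * (n : ℝ) ^ a) := by ring
      _ ≤ δ * k n := by gcongr
  · have h6 := hh_pos n h5
    rw [div_lt_iff₀ hn0] at h2b
    have h7 : (hh n : ℝ) ^ 4 * 100 < n := by linarith
    have h8 : hh n ^ 4 * 100 < n := by exact_mod_cast h7
    have h9 : hh n ≤ hh n ^ 4 := Nat.le_self_pow (by norm_num) _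
    omega

/-- `r - 1` is tiny. -/
lemma ratio_le {n : ℕ} {p : ℝ} (hn : 3 ≤ n) (hp : 0 < p) (hp1 : p ≤ 1) (hpn : 1 ≤ p * n)
    (h4 : (hh n : ℝ) ^ 4 / n ≤ 1) (t : ℕ) (ht : t ≤ 8 * hh n) :
    (qq p (hh n) / p) ^ t ≤ 1 + 16 * hh n / (n : ℝ) ^ 3 := by
  have hn0 : (0 : ℝ) < n := by exact_mod_cast (by omega : 0 < n)
  have hκ := kappa_le n (by omega)
  have hκ0 : (0 : ℝ) < (1 / 2) ^ hh n := by positivity
  have h1 : qq p (hh n) / p ≤ 1 + (1 / 2) ^ hh n / p := by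
    unfold qq
    rw [div_le_iff₀ hp]
    have : (1 + (1 / 2 : ℝ) ^ hh n / p) * p = p + (1 / 2) ^ hh n := by field_simp
    rw [this]
    nlinarith
  have h2 : (1 / 2 : ℝ) ^ hh n / p ≤ 1 / (n : ℝ) ^ 3 := by
    rw [div_le_div_iff₀ hp (by positivity)]
    calc (1 / 2 : ℝ) ^ hh n * (n : ℝ) ^ 3 ≤ 1 / (n : ℝ) ^ 4 * (n : ℝ) ^ 3 := by gcongr
      _ = 1 / (n : ℝ) := by field_simp
      _ ≤ 1 * p := by rw [div_le_iff₀ hn0]; linarith
  have h3 : qq p (hh n) / p ≤ Real.exp (1 / (n : ℝ) ^ 3) := by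
    have := Real.add_one_le_exp (1 / (n : ℝ) ^ 3)
    linarith
  have hq0 : 0 ≤ qq p (hh n) / p := by
    have := qq_ge hp1 (hh n)
    have : 0 < qq p (hh n) := by linarith
    positivity
  have hx : (t : ℝ) * (1 / (n : ℝ) ^ 3) ≤ 8 * hh n / (n : ℝ) ^ 3 := by
    have : (t : ℝ) ≤ 8 * hh n := by exact_mod_cast ht
    rw [mul_one_div]
    gcongr
  have hx1 : 8 * (hh n : ℝ) / (n : ℝ) ^ 3 ≤ 1 := by
    have h6 : (1 : ℝ) ≤ hh n := by
      have := hh_pos n hn
      exact_mod_cast (by omega : 1 ≤ hh n)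
    have h7 : (hh n : ℝ) ≤ n := by
      rw [div_le_iff₀ hn0] at h4
      calc (hh n : ℝ) ≤ (hh n : ℝ) ^ 4 := le_self_pow₀ h6 (by norm_num)
        _ ≤ 1 * n := h4
        _ = n := one_mul _
    have h3n : (3 : ℝ) ≤ n := by exact_mod_cast hn
    rw [div_le_one (by positivity)]
    calc 8 * (hh n : ℝ) ≤ 8 * n := by linarith
      _ ≤ (n : ℝ) ^ 2 * n := by nlinarith
      _ = (n : ℝ) ^ 3 := by ring
  have hx0 : 0 ≤ 8 * (hh n : ℝ) / (n : ℝ) ^ 3 := by positivity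
  calc (qq p (hh n) / p) ^ t ≤ (Real.exp (1 / (n : ℝ) ^ 3)) ^ t := by gcongr
    _ = Real.exp ((t : ℝ) * (1 / (n : ℝ) ^ 3)) := by rw [← Real.exp_nat_mul]
    _ ≤ Real.exp (8 * hh n / (n : ℝ) ^ 3) := Real.exp_le_exp.mpr hx
    _ ≤ 1 + 8 * hh n / (n : ℝ) ^ 3 + (8 * hh n / (n : ℝ) ^ 3) ^ 2 := exp_le_quad hx0 hx1
    _ ≤ 1 + 16 * hh n / (n : ℝ) ^ 3 := by
        have : (8 * (hh n : ℝ) / (n : ℝ) ^ 3) ^ 2 ≤ 8 * hh n / (n : ℝ) ^ 3 := by
          rw [sq]
          calc _ ≤ 8 * (hh n : ℝ) / (n : ℝ) ^ 3 * 1 := by gcongr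
            _ = _ := mul_one _
        have e : 16 * (hh n : ℝ) / (n : ℝ) ^ 3 = 8 * hh n / (n : ℝ) ^ 3 + 8 * hh n / (n : ℝ) ^ 3 := by
          ring
        rw [e]; linarith

/-- Recovery: the mean squared error is `o(1/n)`. -/
lemma recovery (hk : ∀ n, 0 ≤ k n ∧ k n ≤ n) (ha : 0 < a) (hc : 0 < c)
    (hlow : ∀ᶠ n : ℕ in atTop, c * (n : ℝ) ^ a ≤ k n) (δ : ℝ) (hδ : 0 < δ) :
    ∀ᶠ n : ℕ in atTop, ∀ v : Fin n,
      mmse n ((4 * hh n + 1).choose 2) (k n / n) v ≤ δ / n := by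
  set ε := min (δ / 10000) (1 / 1000) with hε
  have hε0 : 0 < ε := lt_min (by positivity) (by norm_num)
  filter_upwards [eventually_facts hk ha hc hlow ε hε0] with n hfacts v
  obtain ⟨hn3, hk1, hf1, hf2, hf3⟩ := hfacts
  have hεδ : ε ≤ δ / 10000 := min_le_left _ _
  have hε1 : ε ≤ 1 / 1000 := min_le_right _ _
  have hn0 : (0 : ℝ) < n := by exact_mod_cast (by omega : 0 < n)
  have hn3' : (3 : ℝ) ≤ n := by exact_mod_cast hn3
  set p := k n / n with hpdef
  have hpn : p * n = k n := by rw [hpdef]; field_simp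
  have hp : 0 < p := by rw [hpdef]; positivity
  have hp1 : p ≤ 1 := by rw [hpdef, div_le_one hn0]; exact (hk n).2
  have hh6 := hh_pos n hn3
  have hh6' : (6 : ℝ) ≤ hh n := by exact_mod_cast hh6
  have hcast : ((n - 1 : ℕ) : ℝ) = n - 1 := by
    rw [Nat.cast_sub (by omega)]; simp
  set u := (1 - p) / p * (2 * hh n) * (2 * hh n) / (n - 1 : ℕ) with hu
  have hu0 : 0 ≤ u := by
    rw [hu]
    have : 0 ≤ 1 - p := by linarith
    positivity
  have hule : u ≤ 8 * (hh n : ℝ) ^ 2 / k n := by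
    rw [hu, hcast]
    have h1 : (n : ℝ) / 2 ≤ n - 1 := by linarith
    calc (1 - p) / p * (2 * hh n) * (2 * hh n) / ((n : ℝ) - 1)
        ≤ 1 / p * (2 * hh n) * (2 * hh n) / ((n : ℝ) / 2) := by
          gcongr
          linarith
      _ = 8 * (hh n : ℝ) ^ 2 / k n := by
          rw [← hpn]
          field_simp
          ring
  have hu_sq : u ^ 2 ≤ 64 * (hh n : ℝ) ^ 4 / k n ^ 2 := by
    calc u ^ 2 ≤ (8 * (hh n : ℝ) ^ 2 / k n) ^ 2 := by gcongr
      _ = 64 * (hh n : ℝ) ^ 4 / k n ^ 2 := by rw [div_pow, mul_pow]; ring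
  have hu1 : 4 * u ≤ 1 := by
    have h1 : (hh n : ℝ) ^ 2 / k n ≤ (hh n : ℝ) ^ 4 / k n / 36 := by
      rw [div_div, div_le_div_iff₀ (by positivity) (by positivity)]
      have h36 : (36 : ℝ) ≤ (hh n : ℝ) ^ 2 := by nlinarith
      have : (hh n : ℝ) ^ 2 * 36 ≤ (hh n : ℝ) ^ 4 := by
        calc (hh n : ℝ) ^ 2 * 36 ≤ (hh n : ℝ) ^ 2 * (hh n : ℝ) ^ 2 := by gcongr
          _ = (hh n : ℝ) ^ 4 := by ring
      nlinarith
    have h2 : 8 * (hh n : ℝ) ^ 2 / k n = 8 * ((hh n : ℝ) ^ 2 / k n) := by ring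
    rw [h2] at hule
    linarith
  have hr := ratio_le hn3 hp hp1 (by rw [hpn]; exact hk1)
    (hf2.trans (hε1.trans (by norm_num))) (8 * hh n) le_rfl
  refine (mmse_bound hp hp1 v (hh n) hf3 u _ hu hu1 rfl).trans ?_
  set r := (qq p (hh n) / p) ^ (8 * hh n) with hrdef
  have hκ := kappa_le n (by omega)
  have hhn : (hh n : ℝ) ≤ n / 1000 := by
    rw [div_le_iff₀ hn0] at hf2
    calc (hh n : ℝ) ≤ (hh n : ℝ) ^ 4 := le_self_pow₀ (by linarith) (by norm_num)
      _ ≤ ε * n := hf2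
      _ ≤ 1 / 1000 * n := by gcongr
      _ = n / 1000 := by ring
  have t0 : 16 * (hh n : ℝ) / (n : ℝ) ^ 3 ≤ 1 := by
    rw [div_le_one (by positivity)]
    calc 16 * (hh n : ℝ) ≤ n := by linarith
      _ ≤ (n : ℝ) ^ 3 := le_self_pow₀ (by linarith) (by norm_num)
  -- the three terms
  have t1 : p * (35 * (r - 1)) ≤ δ / 3 / n := by
    have e1 : p * (35 * (r - 1)) ≤ 1 * (35 * (16 * hh n / (n : ℝ) ^ 3)) := by
      have : r - 1 ≤ 16 * hh n / (n : ℝ) ^ 3 := by linarith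
      have h0 : (0 : ℝ) ≤ 16 * hh n / (n : ℝ) ^ 3 := by positivity
      calc p * (35 * (r - 1)) ≤ p * (35 * (16 * hh n / (n : ℝ) ^ 3)) := by gcongr
        _ ≤ _ := by gcongr
    have e2 : (hh n : ℝ) / (n : ℝ) ≤ ε := by
      refine le_trans ?_ hf2
      gcongr
      exact le_self_pow₀ (by linarith) (by norm_num)
    calc _ ≤ 1 * (35 * (16 * hh n / (n : ℝ) ^ 3)) := e1
      _ = 560 * ((hh n : ℝ) / n) / n / n := by field_simp; ring
      _ ≤ 560 * ε / n / 1 := by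
          gcongr
          linarith
      _ ≤ δ / 3 / n := by
          rw [div_one]
          gcongr
          linarith
  have t2 : p * (20 * u ^ 2) ≤ δ / 3 / n := by
    calc p * (20 * u ^ 2) ≤ p * (20 * (64 * (hh n : ℝ) ^ 4 / k n ^ 2)) := by gcongr
      _ = 1280 * ((hh n : ℝ) ^ 4 / k n) / n := by
          rw [hpdef]; field_simp; ring
      _ ≤ 1280 * ε / n := by gcongr
      _ ≤ δ / 3 / n := by
          gcongr
          linarith
  have t3 : (1 / 2 : ℝ) ^ hh n * (30 * r) ≤ δ / 3 / n := by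
    have hr2 : r ≤ 2 := by linarith
    have hr0 : 0 ≤ r := by
      have : 0 < qq p (hh n) := lt_of_lt_of_le hp (qq_ge hp1 _)
      rw [hrdef]; positivity
    have hinv : 1 / (n : ℝ) ≤ ε := by
      refine le_trans ?_ hf2
      gcongr
      exact one_le_pow₀ (by linarith)
    calc (1 / 2 : ℝ) ^ hh n * (30 * r) ≤ 1 / (n : ℝ) ^ 4 * (30 * 2) := by gcongr
      _ = 60 * (1 / (n : ℝ)) / n / n / n := by field_simp; ring
      _ ≤ 60 * ε / n / 1 / 1 := by
          gcongr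
          · linarith
          · linarith
      _ ≤ δ / 3 / n := by
          rw [div_one, div_one]
          gcongr
          linarith
  calc p * (35 * (r - 1) + 20 * u ^ 2) + (1 / 2) ^ hh n * (30 * r)
      = p * (35 * (r - 1)) + p * (20 * u ^ 2) + (1 / 2) ^ hh n * (30 * r) := by ring
    _ ≤ δ / 3 / n + δ / 3 / n + δ / 3 / n := by linarith
    _ = δ / n := by ring

/-- Detection, quantitative form. -/
lemma detection (hk : ∀ n, 0 ≤ k n ∧ k n ≤ n) (ha : 0 < a) (hc : 0 < c)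
    (hlow : ∀ᶠ n : ℕ in atTop, c * (n : ℝ) ^ a ≤ k n) (δ : ℝ) (hδ : 0 < δ) :
    ∀ᶠ n : ℕ in atTop,
      varP n (k n / n) (cliquePoly n (2 * hh n + 1) (k n / n)) ≤ δ ∧
      varQ n (cliquePoly n (2 * hh n + 1) (k n / n)) ≤ δ ∧
      1 / 2 ≤ meanP n (k n / n) (cliquePoly n (2 * hh n + 1) (k n / n)) -
        meanQ n (cliquePoly n (2 * hh n + 1) (k n / n)) := by
  set ε := min (δ / 10000) (1 / 1000) with hε
  have hε0 : 0 < ε := lt_min (by positivity) (by norm_num)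
  filter_upwards [eventually_facts hk ha hc hlow ε hε0] with n hfacts
  obtain ⟨hn3, hk1, hf1, hf2, hf3⟩ := hfacts
  have hεδ : ε ≤ δ / 10000 := min_le_left _ _
  have hε1 : ε ≤ 1 / 1000 := min_le_right _ _
  have hn0 : (0 : ℝ) < n := by exact_mod_cast (by omega : 0 < n)
  have hn3' : (3 : ℝ) ≤ n := by exact_mod_cast hn3
  set p := k n / n with hpdef
  have hpn : p * n = k n := by rw [hpdef]; field_simp
  have hp : 0 < p := by rw [hpdef]; positivity
  have hp1 : p ≤ 1 := by rw [hpdef, div_le_one hn0]; exact (hk n).2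
  have hh6 := hh_pos n hn3
  have hh6' : (6 : ℝ) ≤ hh n := by exact_mod_cast hh6
  set m := 2 * hh n + 1 with hm
  have hmn : m ≤ n := by omega
  have hinvn : 1 / (n : ℝ) ≤ ε := by
    refine le_trans ?_ hf2
    gcongr
    exact one_le_pow₀ (by linarith)
  have hκ := kappa_le n (by omega)
  have hκ0 : (0 : ℝ) < (1 / 2) ^ hh n := by positivity
  have hpinv : 1 / n ≤ p := by
    rw [div_le_iff₀ hn0, hpn]; exact hk1
  refine ⟨?_, ?_, ?_⟩
  · refine (varP_cliquePoly_le hp hp1 m (hh n) (by omega) hmn).trans ?_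
    have hr := ratio_le hn3 hp hp1 (by rw [hpn]; exact hk1)
      (hf2.trans (hε1.trans (by norm_num))) (m + m) (by omega)
    set w := (1 - p) / p * m * m / n with hw
    have hw0 : 0 ≤ w := by
      rw [hw]
      have : 0 ≤ 1 - p := by linarith
      positivity
    have hmle : (m : ℝ) ≤ 3 * hh n := by
      rw [hm]; push_cast; linarith
    have hwle : w ≤ 9 * ε := by
      calc w ≤ 1 / p * (3 * hh n) * (3 * hh n) / n := by
            rw [hw]; gcongr; linarith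
        _ = 9 * ((hh n : ℝ) ^ 2 / k n) := by rw [← hpn]; field_simp; ring
        _ ≤ 9 * ((hh n : ℝ) ^ 4 / k n) := by
            gcongr
            · linarith
            · norm_num
        _ ≤ 9 * ε := by gcongr
    have hexp := exp_le_quad hw0 (by linarith : w ≤ 1)
    have hexp2 : Real.exp w ≤ 1 + 18 * ε := by nlinarith
    have hrr : 16 * (hh n : ℝ) / (n : ℝ) ^ 3 ≤ 16 * ε := by
      calc 16 * (hh n : ℝ) / (n : ℝ) ^ 3 = 16 * ((hh n : ℝ) / n) / n / n := by field_simp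
        _ ≤ 16 * ε / 1 / 1 := by
            have e2 : (hh n : ℝ) / (n : ℝ) ≤ ε := by
              refine le_trans ?_ hf2
              gcongr
              exact le_self_pow₀ (by linarith) (by norm_num)
            gcongr
            · linarith
            · linarith
        _ = 16 * ε := by ring
    calc (qq p (hh n) / p) ^ (m + m) * Real.exp w - 1
        ≤ (1 + 16 * ε) * (1 + 18 * ε) - 1 := by
          have := Real.exp_pos w
          have h0 : (0 : ℝ) ≤ 1 + 16 * ε := by linarith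
          have : (qq p (hh n) / p) ^ (m + m) * Real.exp w ≤ (1 + 16 * ε) * (1 + 18 * ε) := by
            gcongr
            linarith
          linarith
      _ ≤ δ := by nlinarith
  · refine (varQ_cliquePoly_le hp m (hh n) (by omega) hmn).trans ?_
    have h1 : (1 / 2 : ℝ) ^ hh n / p ^ 2 ≤ ε := by
      rw [div_le_iff₀ (by positivity)]
      calc (1 / 2 : ℝ) ^ hh n ≤ 1 / (n : ℝ) ^ 4 := hκ
        _ = (1 / n) * (1 / n) * (1 / n) ^ 2 := by field_simp
        _ ≤ ε * 1 * p ^ 2 := by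
            gcongr
            rw [div_le_one hn0]; linarith
        _ = ε * p ^ 2 := by ring
    calc ((1 / 2 : ℝ) ^ hh n / p ^ 2) ^ m ≤ ε ^ m := by gcongr
      _ ≤ ε ^ 1 := pow_le_pow_of_le_one hε0.le (by linarith) (by omega)
      _ ≤ δ := by rw [pow_one]; linarith
  · have h1 := meanP_cliquePoly_ge hp hp1 m hmn
    have h2 := meanQ_cliquePoly_le hp m (hh n) (by omega) hmn
    have h3 : (1 / 2 : ℝ) ^ hh n / p ≤ ε := by
      rw [div_le_iff₀ hp]
      calc (1 / 2 : ℝ) ^ hh n ≤ 1 / (n : ℝ) ^ 4 := hκ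
        _ = (1 / n) * (1 / n) * (1 / n) * (1 / n) := by field_simp
        _ ≤ ε * 1 * 1 * p := by
            have h5 : 1 / (n : ℝ) ≤ 1 := by rw [div_le_one hn0]; linarith
            gcongr
        _ = ε * p := by ring
    have h4 : ((1 / 2 : ℝ) ^ hh n / p) ^ m ≤ ε := by
      calc ((1 / 2 : ℝ) ^ hh n / p) ^ m ≤ ε ^ m := by gcongr
        _ ≤ ε ^ 1 := pow_le_pow_of_le_one hε0.le (by linarith) (by omega)
        _ = ε := pow_one ε
    linarith

lemma mmse_anti {n : ℕ} {p : ℝ} (h0 : 0 ≤ p) (h1 : p ≤ 1) (v : Fin n) {D D' : ℕ} (h : D ≤ D') :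
    mmse n D' p v ≤ mmse n D p v := by
  have : Nonempty {f : MvPolynomial (Pair n) ℝ // f.totalDegree ≤ D} := ⟨⟨0, by simp⟩⟩
  refine le_ciInf fun f => ?_
  exact mmse_le h0 h1 v f.1 (f.2.trans h)

/-- Degree `⌈1200 log² n⌉` succeeds as soon as `k ≥ c n^a`. -/
theorem succeeds_of_lower (hk : ∀ n, 0 ≤ k n ∧ k n ≤ n) (ha : 0 < a) (hc : 0 < c)
    (hlow : ∀ᶠ n : ℕ in atTop, c * (n : ℝ) ^ a ≤ k n) :
    Succeeds k (fun n => ⌈(1200 : ℝ) * Real.log n ^ 2⌉₊) := by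
  constructor
  · refine ⟨fun n => if 3 ≤ n then cliquePoly n (2 * hh n + 1) (k n / n) else 0, ?_, ?_, ?_⟩
    · intro n
      by_cases hn : 3 ≤ n
      · simp only [hn, if_true]
        refine (totalDegree_cliquePoly _ _ _).trans (le_trans ?_ (degree_le n hn))
        exact Nat.choose_le_choose 2 (by omega)
      · simp only [hn, if_false]
        simp
    · filter_upwards [detection hk ha hc hlow 1 one_pos, eventually_ge_atTop 3] with n h hn
      simp only [hn, if_true]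
      intro heq
      have := h.2.2
      rw [heq] at this
      linarith
    · rw [isLittleO_iff]
      intro η hη
      filter_upwards [detection hk ha hc hlow ((η / 2) ^ 2) (by positivity),
        eventually_ge_atTop 3] with n h hn
      simp only [hn, if_true]
      obtain ⟨h1, h2, h3⟩ := h
      rw [Real.norm_of_nonneg (Real.sqrt_nonneg _), Real.norm_of_nonneg (abs_nonneg _)]
      have e1 : Real.sqrt (max (varP n (k n / n) (cliquePoly n (2 * hh n + 1) (k n / n)))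
          (varQ n (cliquePoly n (2 * hh n + 1) (k n / n)))) ≤ η / 2 := by
        rw [Real.sqrt_le_left (by positivity)]
        exact max_le h1 h2
      have e2 := le_abs_self (meanP n (k n / n) (cliquePoly n (2 * hh n + 1) (k n / n)) -
        meanQ n (cliquePoly n (2 * hh n + 1) (k n / n)))
      nlinarith
  · intro δ hδ
    filter_upwards [recovery hk ha hc hlow δ hδ, eventually_ge_atTop 3] with n h hn v
    have hn0 : (0 : ℝ) < n := by exact_mod_cast (by omega : 0 < n)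
    refine (mmse_anti ?_ ?_ v (degree_le n hn)).trans (h v)
    · exact div_nonneg (hk n).1 hn0.le
    · rw [div_le_one hn0]; exact (hk n).2

end Main

end Pool.Agent.Work.MP_d47e79_lc
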