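import Pool.Agent.Work.MP_d47e79_lc.Estimate2
import Pool.Agent.Work.MP_d47e79_lc.Asymp

namespace Pool.Agent.Work.MP_d47e79_lc

open Filter Asymptotics Finset

lemma Ub_bound {p : ℝ} {c m l0 : ℕ} {n1 N y ρ I e s α : ℝ}
    (hp : 0 < p) (hN : 0 < N) (hy : y = 1 / (p * N)) (hs : s = ((m : ℝ) + 1) ^ 2 * y)
    (hα : α = (1 - p) / p * c * c / n1) (hα0 : 0 ≤ α) (hα2 : α ≤ 2 * s)
    (hq : (qq p l0 / p) ^ (c + c) ≤ 1 + e) (hq0 : 0 ≤ qq p l0 / p)
    (hI : N ^ (m + 1) * (1 - ((m : ℝ) + 1) ^ 2 / N) ≤ I) (he0 : 0 ≤ e) (he : e ≤ 1 / 1000)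
    (hse : s ^ 2 ≤ e) (hps : p * s ≤ e) (hρ0 : 0 ≤ ρ)
    (hρe : ((m : ℝ) + 1) * ρ ^ (m + 1) ≤ e) :
    Ub p c m l0 n1 N y ρ I ≤ 1 + α + s + 50 * e := by
  have hy0 : 0 < y := by rw [hy]; positivity
  have hs0 : 0 < s := by rw [hs]; positivity
  have hs1 : s ≤ 1 / 30 := by
    by_contra h
    push Not at h
    nlinarith
  have hps' : ((m : ℝ) + 1) ^ 2 / N = p * s := by rw [hs, hy]; field_simp
  rw [hps'] at hI
  have hNL : 0 < N ^ (m + 1) := by positivity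
  have hIpos : 0 < I := lt_of_lt_of_le (by
    have : 0 < 1 - p * s := by linarith
    positivity) hI
  have f1 : N ^ (m + 1) / I ≤ 1 + 2 * e := by
    rw [div_le_iff₀ hIpos]
    calc N ^ (m + 1) = N ^ (m + 1) * 1 := by ring
      _ ≤ N ^ (m + 1) * ((1 - p * s) * (1 + 2 * e)) := by
          refine mul_le_mul_of_nonneg_left ?_ hNL.le
          nlinarith
      _ = (1 + 2 * e) * (N ^ (m + 1) * (1 - p * s)) := by ring
      _ ≤ (1 + 2 * e) * I := by gcongr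
  have hm1 : (1 : ℝ) ≤ ((m : ℝ) + 1) ^ 2 := by
    have : (1 : ℝ) ≤ (m : ℝ) + 1 := by
      have : (0 : ℝ) ≤ m := Nat.cast_nonneg m
      linarith
    nlinarith
  have hys : y ≤ s := by rw [hs]; nlinarith
  have hLy : ((m : ℝ) + 1) ^ 2 * y ^ 2 ≤ e := by
    calc ((m : ℝ) + 1) ^ 2 * y ^ 2 = s * y := by rw [hs]; ring
      _ ≤ s * s := by gcongr
      _ = s ^ 2 := by ring
      _ ≤ e := hse
  have f2 : (1 + ((m : ℝ) + 1) * y + 8 * ((m : ℝ) + 1) * y ^ 2) ^ (m + 1)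
      ≤ Real.exp (s + 8 * e) := by
    have h1 : 1 + ((m : ℝ) + 1) * y + 8 * ((m : ℝ) + 1) * y ^ 2
        ≤ Real.exp (((m : ℝ) + 1) * y + 8 * ((m : ℝ) + 1) * y ^ 2) := by
      have := Real.add_one_le_exp (((m : ℝ) + 1) * y + 8 * ((m : ℝ) + 1) * y ^ 2)
      linarith
    calc _ ≤ (Real.exp (((m : ℝ) + 1) * y + 8 * ((m : ℝ) + 1) * y ^ 2)) ^ (m + 1) := by gcongr
      _ = Real.exp (((m + 1 : ℕ) : ℝ) * (((m : ℝ) + 1) * y + 8 * ((m : ℝ) + 1) * y ^ 2)) := by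
          rw [← Real.exp_nat_mul]
      _ ≤ Real.exp (s + 8 * e) := by
          apply Real.exp_le_exp.mpr
          push_cast
          have : ((m : ℝ) + 1) * (((m : ℝ) + 1) * y + 8 * ((m : ℝ) + 1) * y ^ 2)
              = s + 8 * (((m : ℝ) + 1) ^ 2 * y ^ 2) := by rw [hs]; ring
          rw [this]; linarith
  have f3 : 1 + 4 * ((m : ℝ) + 1) ^ 2 * y ^ 2 ≤ Real.exp (4 * e) := by
    have := Real.add_one_le_exp (4 * e)
    nlinarith
  have f4 : (qq p l0 / p) ^ (c + c) ≤ Real.exp e := by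
    have := Real.add_one_le_exp e
    linarith
  have f5 : N ^ (m + 1) / I ≤ Real.exp (2 * e) := by
    have := Real.add_one_le_exp (2 * e)
    linarith
  have hα' : Real.exp ((1 - p) / p * c * c / n1) = Real.exp α := by rw [hα]
  have hαs : α ≤ 1 / 15 := by linarith
  have hexpα : Real.exp α ≤ 1 + 1 / 10 := by
    have := exp_le_quad hα0 (by linarith : α ≤ 1)
    nlinarith
  unfold Ub Mfac
  rw [hα']
  have hx0 : 0 ≤ α + s + 15 * e := by positivity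
  have hx1 : α + s + 15 * e ≤ 1 := by linarith
  have hx := exp_le_quad hx0 hx1
  have main : (qq p l0 / p) ^ (c + c) * Real.exp α * (N ^ (m + 1) / I *
      ((1 + ((m : ℝ) + 1) * y + 8 * ((m : ℝ) + 1) * y ^ 2) ^ (m + 1) *
        (1 + 4 * ((m : ℝ) + 1) ^ 2 * y ^ 2))) ≤ Real.exp (α + s + 15 * e) := by
    calc _ ≤ Real.exp e * Real.exp α * (Real.exp (2 * e) *
          (Real.exp (s + 8 * e) * Real.exp (4 * e))) := by
          gcongr
      _ = Real.exp (α + s + 15 * e) := by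
          rw [← Real.exp_add, ← Real.exp_add, ← Real.exp_add, ← Real.exp_add]
          congr 1; ring
  have extra : (qq p l0 / p) ^ (c + c) * Real.exp α * (N ^ (m + 1) / I *
      (((m : ℝ) + 1) * ρ ^ (m + 1))) ≤ 2 * e := by
    have hc : (1 + e) * (1 + 1 / 10) * (1 + 2 * e) ≤ 2 := by nlinarith
    calc _ ≤ (1 + e) * (1 + 1 / 10) * ((1 + 2 * e) * e) := by
          gcongr
      _ = (1 + e) * (1 + 1 / 10) * (1 + 2 * e) * e := by ring
      _ ≤ 2 * e := mul_le_mul_of_nonneg_right hc he0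
  have hx2 : (α + s + 15 * e) ^ 2 ≤ 30 * e := by
    have h1 : α + s + 15 * e ≤ 3 * s + 15 * e := by linarith
    have h2 : (α + s + 15 * e) ^ 2 ≤ (3 * s + 15 * e) ^ 2 := by gcongr
    nlinarith [mul_nonneg hs0.le he0, mul_nonneg he0 he0]
  calc _ = (qq p l0 / p) ^ (c + c) * Real.exp α * (N ^ (m + 1) / I *
      ((1 + ((m : ℝ) + 1) * y + 8 * ((m : ℝ) + 1) * y ^ 2) ^ (m + 1) *
        (1 + 4 * ((m : ℝ) + 1) ^ 2 * y ^ 2)))
      + (qq p l0 / p) ^ (c + c) * Real.exp α * (N ^ (m + 1) / I *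
      (((m : ℝ) + 1) * ρ ^ (m + 1))) := by ring
    _ ≤ Real.exp (α + s + 15 * e) + 2 * e := add_le_add main extra
    _ ≤ 1 + α + s + 50 * e := by linarith

/-- Lower bound for the number of injective sequences. -/
lemma card_injTo_ge {n m : ℕ} (V : Finset (Fin n)) (hV : 0 < V.card) (hmV : m + 1 ≤ V.card) :
    (V.card : ℝ) ^ (m + 1) * (1 - ((m : ℝ) + 1) ^ 2 / V.card) ≤ (injTo n m V).card := by
  rw [card_injTo]
  have h1 := Nat.pow_sub_le_descFactorial V.card (m + 1)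
  have h2 : ((V.card + 1 - (m + 1) : ℕ) : ℝ) ^ (m + 1) ≤ (V.card.descFactorial (m + 1) : ℝ) := by
    exact_mod_cast h1
  refine le_trans ?_ h2
  have h3 : ((V.card + 1 - (m + 1) : ℕ) : ℝ) = (V.card : ℝ) - m := by
    rw [Nat.cast_sub (by omega)]; push_cast; ring
  rw [h3]
  have hN : (0 : ℝ) < V.card := by exact_mod_cast hV
  have h4 : (V.card : ℝ) * (1 + -(((m : ℝ) + 1) / V.card)) ≤ (V.card : ℝ) - m := by
    have : (V.card : ℝ) * (1 + -(((m : ℝ) + 1) / V.card)) = V.card - (m + 1) := by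
      field_simp; ring
    rw [this]; linarith
  have hmV' : (m : ℝ) + 1 ≤ V.card := by exact_mod_cast hmV
  have h5 : ((m : ℝ) + 1) / V.card ≤ 1 := by rw [div_le_one hN]; exact hmV'
  have h6 : (0 : ℝ) ≤ (V.card : ℝ) * (1 + -(((m : ℝ) + 1) / V.card)) := by
    apply mul_nonneg hN.le; linarith
  have h7 := one_add_mul_le_pow (by linarith : (-2 : ℝ) ≤ -(((m : ℝ) + 1) / V.card)) (m + 1)
  calc (V.card : ℝ) ^ (m + 1) * (1 - ((m : ℝ) + 1) ^ 2 / V.card)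
      = (V.card : ℝ) ^ (m + 1) * (1 + ((m + 1 : ℕ) : ℝ) * -(((m : ℝ) + 1) / V.card)) := by
        push_cast; ring
    _ ≤ (V.card : ℝ) ^ (m + 1) * (1 + -(((m : ℝ) + 1) / V.card)) ^ (m + 1) := by gcongr
    _ = ((V.card : ℝ) * (1 + -(((m : ℝ) + 1) / V.card))) ^ (m + 1) := by rw [mul_pow]
    _ ≤ ((V.card : ℝ) - m) ^ (m + 1) := by gcongr

/-- Splitting of the vertex set. -/
lemma exists_split (n : ℕ) (v : Fin n) :
    ∃ V1 V2 : Finset (Fin n), v ∉ V1 ∧ v ∉ V2 ∧ Disjoint V1 V2 ∧ V1.card = (n - 1) / 2 ∧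
      V2.card = n - 1 - (n - 1) / 2 := by
  have h1 := card_erase_univ v
  obtain ⟨V1, hV1, hc⟩ := Finset.exists_subset_card_eq
    (s := (univ : Finset (Fin n)).erase v) (n := (n - 1) / 2) (by rw [h1]; omega)
  refine ⟨V1, (univ.erase v) \ V1, ?_, ?_, disjoint_sdiff, hc, ?_⟩
  · intro h; have := hV1 h; simp at this
  · simp
  · rw [card_sdiff_of_subset hV1, h1, hc]

section Main2

variable {ε : ℝ}

/-- All numerical facts needed for large `n`. -/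
structure Facts (ε : ℝ) (c0 n : ℕ) (e : ℝ) : Prop where
  n3 : 100 ≤ n
  e0 : 0 ≤ e
  e1 : e ≤ 1 / 100000
  p1 : ε * Real.sqrt n / n ≤ 1
  pk : ε * Real.sqrt n / n ≤ (1 / 2) ^ c0
  big : 8 * hh n + 8 * c0 + 8 ≤ (n - 1) / 2
  s2 : (3 * (2 * hh n) ^ 2 / (ε * Real.sqrt n)) ^ 2 ≤ e
  ps : 3 * (2 * (hh n : ℝ)) ^ 2 / n ≤ e
  tau : 8 * c0 * (1 / (n : ℝ) ^ 4 / (ε * Real.sqrt n / n)) ≤ e / 2
  tau1 : 8 * c0 * (1 / (n : ℝ) ^ 4 / (ε * Real.sqrt n / n)) ≤ 1
  rho : 2 * (hh n : ℝ) * (1 / 2) ^ (2 * hh n) ≤ e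
  cl : (c0 : ℝ) ≤ hh n
  taup : 1 / (n : ℝ) ^ 4 ≤ (ε * Real.sqrt n / n) ^ 2

/-- Consequences of the facts: the two bounds. -/
lemma core_bounds {c0 n : ℕ} {e : ℝ} (hε : 0 < ε) (hc0 : (1 / 2 : ℝ) ^ c0 ≤ ε ^ 2 / 96)
    (F : Facts ε c0 n e) (p : ℝ) (hpdef : p = ε * Real.sqrt n / n)
    (V1 V2 : Finset (Fin n)) (hV1 : V1.card = (n - 1) / 2) (hV2 : V2.card = n - 1 - (n - 1) / 2)
    (m : ℕ) (hm : m + 1 = 2 * hh n) (y ρ s α : ℝ)
    (hy : y = 1 / (p * V2.card)) (hρ : ρ = 2 * y * ((p + (1 - p) * (1 / 2) ^ c0) / p))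
    (hs : s = ((m : ℝ) + 1) ^ 2 * y)
    (hα : α = (1 - p) / p * (2 * c0 : ℕ) * (2 * c0 : ℕ) / V1.card) :
    0 < p ∧ p ≤ 1 ∧ ρ ≤ 1 / 2 ∧ 0 ≤ ρ ∧ 0 ≤ s ∧ 0 ≤ α ∧ s ^ 2 ≤ e ∧ p * s ≤ e ∧
      (1 / 2 : ℝ) ^ (hh n) ≤ 1 / (n : ℝ) ^ 4 ∧
      ((m : ℝ) + 1) * ρ ^ (m + 1) ≤ e ∧
      (qq p (hh n) / p) ^ (2 * (2 * c0)) ≤ 1 + e ∧
      Ub p (2 * c0) m (hh n) V1.card V2.card y ρ (injTo n m V2).card ≤ 1 + α + s + 50 * e ∧
      Ub p (2 * (2 * c0)) (2 * m + 1) (hh n) V1.card V2.card y ρ (injTo n (2 * m + 1) V2).card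
        ≤ 1 + 4 * α + 4 * s + 800 * e := by
  have hn3 := F.n3
  have hn0 : (0 : ℝ) < n := by exact_mod_cast (by omega : 0 < n)
  have hn100 : (100 : ℝ) ≤ n := by exact_mod_cast hn3
  have hsq : 0 < Real.sqrt n := Real.sqrt_pos.mpr hn0
  have hsq2 : Real.sqrt n * Real.sqrt n = n := Real.mul_self_sqrt hn0.le
  have hp : 0 < p := by rw [hpdef]; positivity
  have hp1 : p ≤ 1 := by rw [hpdef]; exact F.p1
  have hpk : p ≤ (1 / 2) ^ c0 := by rw [hpdef]; exact F.pk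
  have hpn : p * n = ε * Real.sqrt n := by rw [hpdef]; field_simp
  have hp2n : p ^ 2 * n = ε ^ 2 := by
    have : p ^ 2 * n = (p * n) * (p * n) / n := by field_simp
    rw [this, hpn]
    have : ε * Real.sqrt n * (ε * Real.sqrt n) = ε ^ 2 * (Real.sqrt n * Real.sqrt n) := by ring
    rw [this, hsq2]; field_simp
  have hbig := F.big
  have hV2lo : (n : ℝ) / 3 ≤ V2.card := by
    rw [hV2]
    have h1 : n ≤ 3 * (n - 1 - (n - 1) / 2) := by omega
    have h2 : (n : ℝ) ≤ 3 * ((n - 1 - (n - 1) / 2 : ℕ) : ℝ) := by exact_mod_cast h1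
    linarith
  have hV2n : (V2.card : ℝ) ≤ n := by
    rw [hV2]; exact_mod_cast (by omega : n - 1 - (n - 1) / 2 ≤ n)
  have hV2pos : (0 : ℝ) < V2.card := by linarith [hn0]
  have hV1V2 : (V2.card : ℝ) ≤ 2 * V1.card := by
    rw [hV1, hV2]
    have h1 : n - 1 - (n - 1) / 2 ≤ 2 * ((n - 1) / 2) := by omega
    exact_mod_cast h1
  have hV1pos : (0 : ℝ) < V1.card := by linarith
  have hm' : (m : ℝ) + 1 = 2 * hh n := by exact_mod_cast hm
  have hy0 : 0 < y := by rw [hy]; positivity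
  have hyle : y ≤ 3 / (ε * Real.sqrt n) := by
    rw [hy, ← hpn, div_le_div_iff₀ (by positivity) (by positivity)]
    nlinarith
  have hs0 : 0 ≤ s := by rw [hs]; positivity
  have hsle : s ≤ 3 * (2 * hh n) ^ 2 / (ε * Real.sqrt n) := by
    rw [hs, hm']
    calc (2 * (hh n : ℝ)) ^ 2 * y ≤ (2 * (hh n : ℝ)) ^ 2 * (3 / (ε * Real.sqrt n)) := by gcongr
      _ = _ := by ring
  have hs2 : s ^ 2 ≤ e := le_trans (by gcongr) F.s2
  have hps : p * s ≤ e := by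
    refine le_trans ?_ F.ps
    have : p * s = ((m : ℝ) + 1) ^ 2 / V2.card := by rw [hs, hy]; field_simp
    rw [this, hm', div_le_div_iff₀ hV2pos hn0]
    have h0 : (0 : ℝ) ≤ (2 * (hh n : ℝ)) ^ 2 := by positivity
    nlinarith
  have h1p : 0 ≤ 1 - p := by linarith
  have hα0 : 0 ≤ α := by rw [hα]; positivity
  have hcl := F.cl
  have hα2 : α ≤ 2 * s := by
    rw [hα, hs, hy, hm']
    push_cast
    have e1 : (1 - p) / p * (2 * (c0 : ℝ)) * (2 * c0) / V1.card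
        ≤ 1 / p * (2 * hh n) * (2 * hh n) / (V2.card / 2) := by
      gcongr
      · linarith
      · linarith
    refine e1.trans (le_of_eq ?_)
    field_simp
  have hρ0 : 0 ≤ ρ := by rw [hρ]; positivity
  have hκ : (0 : ℝ) < (1 / 2) ^ c0 := by positivity
  have hρle : ρ ≤ 1 / 8 := by
    rw [hρ, hy]
    have e1 : 2 * (1 / (p * (V2.card : ℝ))) * ((p + (1 - p) * (1 / 2) ^ c0) / p)
        ≤ 2 * (1 / (p * ((n : ℝ) / 3))) * (((1 / 2) ^ c0 + 1 * (1 / 2) ^ c0) / p) := by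
      gcongr
      linarith
    refine e1.trans ?_
    have e2 : 2 * (1 / (p * ((n : ℝ) / 3))) * (((1 / 2 : ℝ) ^ c0 + 1 * (1 / 2) ^ c0) / p)
        = 12 * (1 / 2) ^ c0 / (p ^ 2 * n) := by
      field_simp; ring
    rw [e2, hp2n, div_le_iff₀ (by positivity)]
    linarith
  have hτ := kappa_le n (by omega)
  -- the bound on the power of rho
  have hρpow : ((m : ℝ) + 1) * ρ ^ (m + 1) ≤ e := by
    refine le_trans ?_ F.rho
    rw [hm', hm]
    gcongr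
    linarith
  -- the ratio
  have hqp := qq_ge hp1 (hh n)
  have hq0 : 0 ≤ qq p (hh n) / p := by
    have : 0 < qq p (hh n) := by linarith
    positivity
  have hq1 : 1 ≤ qq p (hh n) / p := by rw [le_div_iff₀ hp]; linarith
  have hratio : ∀ t : ℕ, t ≤ 8 * c0 → (qq p (hh n) / p) ^ t ≤ 1 + e := by
    intro t ht
    have h1 : qq p (hh n) / p ≤ Real.exp (1 / (n : ℝ) ^ 4 / p) := by
      have h2 : qq p (hh n) / p ≤ 1 + 1 / (n : ℝ) ^ 4 / p := by
        unfold qq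
        rw [div_le_iff₀ hp]
        have : (1 + 1 / (n : ℝ) ^ 4 / p) * p = p + 1 / (n : ℝ) ^ 4 := by field_simp
        rw [this]
        have : (0 : ℝ) < (1 / 2) ^ hh n := by positivity
        nlinarith
      have := Real.add_one_le_exp (1 / (n : ℝ) ^ 4 / p)
      linarith
    set x : ℝ := 8 * c0 * (1 / (n : ℝ) ^ 4 / p) with hx
    have hx0 : 0 ≤ x := by rw [hx]; positivity
    have hxe : x ≤ e / 2 := by rw [hx, hpdef]; exact F.tau
    have hx1 : x ≤ 1 := by rw [hx, hpdef]; exact F.tau1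
    calc (qq p (hh n) / p) ^ t ≤ (qq p (hh n) / p) ^ (8 * c0) := pow_le_pow_right₀ hq1 ht
      _ ≤ (Real.exp (1 / (n : ℝ) ^ 4 / p)) ^ (8 * c0) := by gcongr
      _ = Real.exp (((8 * c0 : ℕ) : ℝ) * (1 / (n : ℝ) ^ 4 / p)) := by rw [← Real.exp_nat_mul]
      _ = Real.exp x := by congr 1; rw [hx]; push_cast; ring
      _ ≤ 1 + x + x ^ 2 := exp_le_quad hx0 hx1
      _ ≤ 1 + e := by nlinarith
  have he1 := F.e1
  have he0 := F.e0
  have hVpos : 0 < V2.card := by exact_mod_cast hV2pos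
  refine ⟨hp, hp1, by linarith, hρ0, hs0, hα0, hs2, hps, hτ, hρpow, hratio _ (by omega), ?_, ?_⟩
  · exact Ub_bound hp hV2pos hy hs hα hα0 hα2 (hratio _ (by omega)) hq0
      (card_injTo_ge V2 hVpos (by omega)) he0 (by linarith) hs2 hps hρ0 hρpow
  · have h2m : ((2 * m + 1 : ℕ) : ℝ) + 1 = 2 * ((m : ℝ) + 1) := by push_cast; ring
    have hs' : 4 * s = (((2 * m + 1 : ℕ) : ℝ) + 1) ^ 2 * y := by rw [h2m, hs]; ring
    have hα' : 4 * α = (1 - p) / p * (2 * (2 * c0) : ℕ) * (2 * (2 * c0) : ℕ) / V1.card := by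
      rw [hα]; push_cast; ring
    have hρpow' : (((2 * m + 1 : ℕ) : ℝ) + 1) * ρ ^ (2 * m + 1 + 1) ≤ 16 * e := by
      rw [h2m]
      have h3 : ρ ^ (2 * m + 1 + 1) ≤ ρ ^ (m + 1) :=
        pow_le_pow_of_le_one hρ0 (by linarith) (by omega)
      calc 2 * ((m : ℝ) + 1) * ρ ^ (2 * m + 1 + 1) ≤ 2 * ((m : ℝ) + 1) * ρ ^ (m + 1) := by gcongr
        _ = 2 * (((m : ℝ) + 1) * ρ ^ (m + 1)) := by ring
        _ ≤ 16 * e := by linarith
    have hb := Ub_bound (c := 2 * (2 * c0)) (m := 2 * m + 1) (l0 := hh n) (n1 := V1.card)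
      (I := (injTo n (2 * m + 1) V2).card) (e := 16 * e) hp hV2pos hy hs' hα' (by linarith)
      (by linarith)
      ((hratio _ (by omega)).trans (by linarith)) hq0
      (card_injTo_ge V2 hVpos (by omega)) (by linarith) (by linarith)
      (by nlinarith) (by nlinarith) hρ0 hρpow'
    linarith

lemma recovery_core {c0 n : ℕ} {e : ℝ} (hε : 0 < ε) (hc0 : (1 / 2 : ℝ) ^ c0 ≤ ε ^ 2 / 96)
    (F : Facts ε c0 n e) (v : Fin n) (D : ℕ) (hD : (4 * hh n) * (4 * c0 + 2) ≤ D) :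
    mmse n D (ε * Real.sqrt n / n) v
      ≤ (ε * Real.sqrt n / n) * (1100 * e) + 30 / (n : ℝ) ^ 4 := by
  obtain ⟨V1, V2, hv1, hv2, hV, hc1, hc2⟩ := exists_split n v
  set p := ε * Real.sqrt n / n with hpdef
  have hn3 := F.n3
  have hh6 := hh_pos n (by omega)
  obtain ⟨m, hm⟩ : ∃ m, m + 1 = 2 * hh n := ⟨2 * hh n - 1, by omega⟩
  set y := 1 / (p * (V2.card : ℝ)) with hy
  set ρ := 2 * y * ((p + (1 - p) * (1 / 2) ^ c0) / p) with hρ
  set s := ((m : ℝ) + 1) ^ 2 * y with hs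
  set α := (1 - p) / p * (2 * c0 : ℕ) * (2 * c0 : ℕ) / V1.card with hα
  obtain ⟨hp, hp1, hρ2, hρ0, hs0, hα0, hs2, hps, hτ, hρpow, hr, hU1, hU2⟩ :=
    core_bounds hε hc0 F p hpdef V1 V2 hc1 hc2 m hm y ρ s α hy hρ hs hα
  have hbig := F.big
  have hb := mmse_bound2 hp hp1 v (2 * c0) m c0 (hh n) (by omega) le_rfl (by omega) V1 V2 hv1 hv2 hV
    (by omega) (by omega) y ρ hy hρ hρ2 D (by
      refine le_trans (le_of_eq ?_) hD
      have : 2 * m + 2 = 4 * hh n := by omega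
      rw [this]; ring)
  refine hb.trans ?_
  have hn0 : (0 : ℝ) < n := by exact_mod_cast (by omega : 0 < n)
  have he1 := F.e1
  have he0 := F.e0
  have hV2pos : (0 : ℝ) < V2.card := by
    have : 0 < V2.card := by rw [hc2]; omega
    exact_mod_cast this
  -- the lower bound term
  have hL : 1 + 2 * α + 2 * s - 2 * e ≤
      (1 + (1 - p) / p * (2 * c0 : ℕ) * (2 * (2 * c0) : ℕ) / V1.card) *
                (1 + (1 - p) / p * (m + 1 : ℕ) * (2 * m + 1 + 1 : ℕ) / V2.card) := by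
    have e1 : (1 - p) / p * (2 * c0 : ℕ) * (2 * (2 * c0) : ℕ) / V1.card = 2 * α := by
      rw [hα]; push_cast; ring
    have e2 : (1 - p) / p * (m + 1 : ℕ) * (2 * m + 1 + 1 : ℕ) / V2.card = 2 * s - 2 * (p * s) := by
      rw [hs, hy]; push_cast; field_simp; ring
    rw [e1, e2]
    have hp2 : 0 ≤ 2 * s - 2 * (p * s) := by nlinarith
    nlinarith [mul_nonneg hα0 hp2]
  have hs1 : s ≤ 1 / 100 := by
    by_contra h
    push Not at h
    nlinarith
  have hα1 : α ≤ 1 / 50 := by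
    have : α ≤ 2 * s := by
      -- from the definition, as in `core_bounds`
      have hV1V2 : (V2.card : ℝ) ≤ 2 * V1.card := by
        rw [hc1, hc2]
        have h1 : n - 1 - (n - 1) / 2 ≤ 2 * ((n - 1) / 2) := by omega
        exact_mod_cast h1
      have hV1pos : (0 : ℝ) < V1.card := by linarith
      have hm' : (m : ℝ) + 1 = 2 * hh n := by exact_mod_cast hm
      have hcl := F.cl
      rw [hα, hs, hy, hm']
      push_cast
      have e1 : (1 - p) / p * (2 * (c0 : ℝ)) * (2 * c0) / V1.card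
          ≤ 1 / p * (2 * hh n) * (2 * hh n) / (V2.card / 2) := by
        gcongr
        · linarith
        · linarith
      refine e1.trans (le_of_eq ?_)
      field_simp
    linarith
  set A := Ub p (2 * c0) m (hh n) V1.card V2.card y ρ (injTo n m V2).card with hA
  set B := Ub p (2 * (2 * c0)) (2 * m + 1) (hh n) V1.card V2.card y ρ
    (injTo n (2 * m + 1) V2).card with hB
  set G := (1 + (1 - p) / p * (2 * c0 : ℕ) * (2 * (2 * c0) : ℕ) / V1.card) *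
                (1 + (1 - p) / p * (m + 1 : ℕ) * (2 * m + 1 + 1 : ℕ) / V2.card) with hG
  set r := (qq p (hh n) / p) ^ (2 * (2 * c0)) with hrr
  have t1 : 4 * A + B - 4 * G - 3 + 2 * r ≤ 1100 * e := by linarith
  have t2 : 8 * A + 2 * B ≤ 30 := by linarith
  have hτ0 : (0 : ℝ) ≤ (1 / 2) ^ hh n := by positivity
  have t3 : (1 / 2 : ℝ) ^ hh n * (8 * A + 2 * B) ≤ 30 / (n : ℝ) ^ 4 := by
    calc (1 / 2 : ℝ) ^ hh n * (8 * A + 2 * B) ≤ (1 / 2 : ℝ) ^ hh n * 30 := by gcongr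
      _ ≤ 1 / (n : ℝ) ^ 4 * 30 := by gcongr
      _ = _ := by ring
  have t4 : p * (4 * A + B - 4 * G - 3 + 2 * r) ≤ p * (1100 * e) := by gcongr
  linarith

/-- The detection polynomial, for `n ≥ 1`. -/
lemma detection_core {c0 n : ℕ} {e : ℝ} (hε : 0 < ε) (hc0 : (1 / 2 : ℝ) ^ c0 ≤ ε ^ 2 / 96)
    (F : Facts ε c0 n e) (D : ℕ) (hD : (4 * hh n) * (4 * c0 + 2) ≤ D) :
    ∃ f : MvPolynomial (Pair n) ℝ, f.totalDegree ≤ D ∧
      varP n (ε * Real.sqrt n / n) f ≤ 3 * Real.sqrt e + 50 * e ∧ varQ n f ≤ 3 * e ∧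
      1 ≤ meanP n (ε * Real.sqrt n / n) f ∧ meanQ n f = 0 := by
  have hn3 := F.n3
  obtain ⟨V1, V2, hv1, hv2, hV, hc1, hc2⟩ := exists_split n ⟨0, by omega⟩
  set p := ε * Real.sqrt n / n with hpdef
  have hh6 := hh_pos n (by omega)
  obtain ⟨m, hm⟩ : ∃ m, m + 1 = 2 * hh n := ⟨2 * hh n - 1, by omega⟩
  set y := 1 / (p * (V2.card : ℝ)) with hy
  set ρ := 2 * y * ((p + (1 - p) * (1 / 2) ^ c0) / p) with hρ
  set s := ((m : ℝ) + 1) ^ 2 * y with hs
  set α := (1 - p) / p * (2 * c0 : ℕ) * (2 * c0 : ℕ) / V1.card with hα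
  obtain ⟨hp, hp1, hρ2, hρ0, hs0, hα0, hs2, hps, hτ, hρpow, hr, hU1, hU2⟩ :=
    core_bounds hε hc0 F p hpdef V1 V2 hc1 hc2 m hm y ρ s α hy hρ hs hα
  have hbig := F.big
  have hn0 : (0 : ℝ) < n := by exact_mod_cast (by omega : 0 < n)
  have he1 := F.e1
  have he0 := F.e0
  have hV2pos' : 0 < V2.card := by rw [hc2]; omega
  have hV2pos : (0 : ℝ) < V2.card := by exact_mod_cast hV2pos'
  have hvp := varP_cycle hp hp1 (by omega : 1 ≤ m) (2 * c0) c0 (hh n) le_rfl (by omega) V1 V2 hV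
    (by omega) (by omega) y ρ hy hρ hρ2
  refine ⟨cyclePoly n (2 * c0) m p ∅ V1 V2, ?_, ?_, ?_, hvp.1,
    meanQ_cycle (by omega : 1 ≤ m) _ _ _ _ hV⟩
  · refine (totalDegree_cyclePoly _ _ _ _ _ _).trans (le_trans ?_ hD)
    rw [card_empty, hm]
    have : 2 * hh n * (0 + 2 * c0 + 1) = hh n * (4 * c0 + 2) := by ring
    rw [this]
    gcongr
    omega
  · have hα2 : α ≤ 2 * s := by
      have hV1V2 : (V2.card : ℝ) ≤ 2 * V1.card := by
        rw [hc1, hc2]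
        have h1 : n - 1 - (n - 1) / 2 ≤ 2 * ((n - 1) / 2) := by omega
        exact_mod_cast h1
      have hV1pos : (0 : ℝ) < V1.card := by linarith
      have hm' : (m : ℝ) + 1 = 2 * hh n := by exact_mod_cast hm
      have hcl := F.cl
      rw [hα, hs, hy, hm']
      push_cast
      have e1 : (1 - p) / p * (2 * (c0 : ℝ)) * (2 * c0) / V1.card
          ≤ 1 / p * (2 * hh n) * (2 * hh n) / (V2.card / 2) := by
        gcongr
        · linarith
        · linarith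
      refine e1.trans (le_of_eq ?_)
      field_simp
    have hsq : s ≤ Real.sqrt e := Real.le_sqrt_of_sq_le hs2
    linarith [hvp.2]
  · refine (varQ_le n _).trans ((EQ_sq_cycle hp (by omega : 1 ≤ m) (2 * c0) c0 (hh n) le_rfl
      (by omega) V1 V2 hV (by omega) (by omega)).trans ?_)
    have hm' : (m : ℝ) + 1 = 2 * hh n := by exact_mod_cast hm
    have h1 : ((1 / 2 : ℝ) ^ hh n / p ^ 2) ^ (2 * c0) ≤ 1 := by
      refine pow_le_one₀ (by positivity) ?_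
      rw [div_le_one (by positivity)]
      exact hτ.trans F.taup
    have hI := card_injTo_ge (m := m) V2 hV2pos' (by omega)
    have hps' : ((m : ℝ) + 1) ^ 2 / V2.card = p * s := by rw [hs, hy]; field_simp
    rw [hps'] at hI
    have hIpos : (0 : ℝ) < (injTo n m V2).card := by
      rw [card_injTo]
      exact_mod_cast Nat.descFactorial_pos.mpr (by omega)
    have h2 : (2 * (1 / 2 : ℝ) ^ c0 / p ^ 2) ≤ ρ * V2.card := by
      have : ρ * V2.card = 2 * (p + (1 - p) * (1 / 2) ^ c0) / p ^ 2 := by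
        rw [hρ, hy]; field_simp
      rw [this]
      gcongr
      have : (1 / 2 : ℝ) ^ c0 ≤ 1 := pow_le_one₀ (by norm_num) (by norm_num)
      nlinarith
    have h3 : (V2.card : ℝ) ^ (m + 1) / (injTo n m V2).card ≤ 2 := by
      rw [div_le_iff₀ hIpos]
      have : 0 ≤ (V2.card : ℝ) ^ (m + 1) := by positivity
      nlinarith
    have h4 : (2 * (1 / 2 : ℝ) ^ c0 / p ^ 2) ^ (m + 1) / (injTo n m V2).card
        ≤ ρ ^ (m + 1) * 2 := by
      calc (2 * (1 / 2 : ℝ) ^ c0 / p ^ 2) ^ (m + 1) / (injTo n m V2).card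
          ≤ (ρ * V2.card) ^ (m + 1) / (injTo n m V2).card := by gcongr
        _ = ρ ^ (m + 1) * ((V2.card : ℝ) ^ (m + 1) / (injTo n m V2).card) := by
            rw [mul_pow]; ring
        _ ≤ ρ ^ (m + 1) * 2 := by gcongr
    calc _ ≤ 1 * (((m : ℝ) + 1) * (ρ ^ (m + 1) * 2)) := by
          rw [mul_div_assoc]
          gcongr
      _ = 2 * (((m : ℝ) + 1) * ρ ^ (m + 1)) := by ring
      _ ≤ 3 * e := by linarith

end Main2

end Pool.Agent.Work.MP_d47e79_lc
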