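import Pool.Agent.Work.MP_d47e79_lc.Defs

namespace Pool.Agent.Work.MP_d47e79_lc

open Finset

/-! ### Basic facts on the expectations -/

lemma EQ_add (n : ℕ) (g h : (Pair n → Bool) → ℝ) :
    EQ n (fun Y => g Y + h Y) = EQ n g + EQ n h := by
  unfold EQ; rw [Finset.sum_add_distrib, add_div]

lemma EQ_smul (n : ℕ) (c : ℝ) (g : (Pair n → Bool) → ℝ) :
    EQ n (fun Y => c * g Y) = c * EQ n g := by
  unfold EQ; rw [← Finset.mul_sum, mul_div_assoc]

lemma EQ_sum {ι : Type*} (n : ℕ) (s : Finset ι) (g : ι → (Pair n → Bool) → ℝ) :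
    EQ n (fun Y => ∑ i ∈ s, g i Y) = ∑ i ∈ s, EQ n (g i) := by
  unfold EQ; rw [Finset.sum_comm, Finset.sum_div]

lemma EQ_const (n : ℕ) (c : ℝ) : EQ n (fun _ => c) = c := by
  unfold EQ
  rw [Finset.sum_const, Finset.card_univ, Fintype.card_fun, Fintype.card_bool]
  simp

lemma EQ_mono (n : ℕ) {g h : (Pair n → Bool) → ℝ} (H : ∀ Y, g Y ≤ h Y) : EQ n g ≤ EQ n h := by
  unfold EQ
  gcongr with Y
  exact H Y

lemma EQ_nonneg (n : ℕ) {g : (Pair n → Bool) → ℝ} (H : ∀ Y, 0 ≤ g Y) : 0 ≤ EQ n g := by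
  unfold EQ
  have := Finset.sum_nonneg (s := Finset.univ) (fun Y _ => H Y)
  positivity

/-- Product formula. -/
lemma EQ_prod (n : ℕ) (h : Pair n → Bool → ℝ) :
    EQ n (fun Y => ∏ e, h e (Y e)) = ∏ e, ((h e true + h e false) / 2) := by
  unfold EQ
  have h1 : ∑ Y : Pair n → Bool, ∏ e, h e (Y e) = ∏ e, (h e true + h e false) := by
    have := Finset.prod_univ_sum (fun _ : Pair n => (Finset.univ : Finset Bool)) h
    simp only [Fintype.sum_bool, Fintype.piFinset_univ] at this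
    exact this.symm
  rw [h1, Finset.prod_div_distrib, Finset.prod_const, Finset.card_univ]

/-- The weight of `S`. -/
noncomputable def wt (n : ℕ) (p : ℝ) (S : Finset (Fin n)) : ℝ :=
  p ^ S.card * (1 - p) ^ (n - S.card)

lemma wt_nonneg {n : ℕ} {p : ℝ} (h0 : 0 ≤ p) (h1 : p ≤ 1) (S : Finset (Fin n)) :
    0 ≤ wt n p S := by
  unfold wt
  have : 0 ≤ 1 - p := by linarith
  positivity

lemma wt_eq_prod (n : ℕ) (p : ℝ) (S : Finset (Fin n)) :
    wt n p S = ∏ v, (if v ∈ S then p else 1 - p) := by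
  unfold wt
  rw [Finset.prod_ite]
  simp only [Finset.prod_const]
  congr 2
  · congr 1; ext v; simp
  · rw [Finset.filter_not, Finset.card_sdiff]
    simp

/-- Product formula for the expectation over `S`. -/
lemma sum_wt_prod (n : ℕ) (p : ℝ) (a b : Fin n → ℝ) :
    ∑ S : Finset (Fin n), wt n p S * ∏ v, (if v ∈ S then a v else b v)
      = ∏ v, (p * a v + (1 - p) * b v) := by
  rw [Finset.prod_add]
  rw [Finset.powerset_univ]
  refine Finset.sum_congr rfl fun S _ => ?_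
  rw [wt_eq_prod, ← Finset.prod_mul_distrib]
  have : ∀ v, (if v ∈ S then p else 1 - p) * (if v ∈ S then a v else b v)
      = if v ∈ S then p * a v else (1 - p) * b v := by
    intro v; split_ifs <;> rfl
  simp only [this]
  rw [Finset.prod_ite]
  congr 1
  · congr 1; ext v; simp
  · congr 1; ext v; simp

lemma EP_eq (n : ℕ) (p : ℝ) (g : Finset (Fin n) → (Pair n → Bool) → ℝ) :
    EP n p g = ∑ S : Finset (Fin n), wt n p S * EQ n (fun Z => g S (plant S Z)) := rfl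

lemma sum_wt (n : ℕ) (p : ℝ) : ∑ S : Finset (Fin n), wt n p S = 1 := by
  have := sum_wt_prod n p (fun _ => 1) (fun _ => 1)
  simpa using this

lemma EP_add (n : ℕ) (p : ℝ) (g h : Finset (Fin n) → (Pair n → Bool) → ℝ) :
    EP n p (fun S Y => g S Y + h S Y) = EP n p g + EP n p h := by
  simp only [EP_eq, EQ_add, mul_add, Finset.sum_add_distrib]

lemma EP_smul (n : ℕ) (p c : ℝ) (g : Finset (Fin n) → (Pair n → Bool) → ℝ) :
    EP n p (fun S Y => c * g S Y) = c * EP n p g := by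
  simp only [EP_eq, EQ_smul, Finset.mul_sum]
  exact Finset.sum_congr rfl fun S _ => by ring

lemma EP_const (n : ℕ) (p c : ℝ) : EP n p (fun _ _ => c) = c := by
  simp only [EP_eq, EQ_const]
  rw [← Finset.sum_mul, sum_wt, one_mul]

lemma EP_mono {n : ℕ} {p : ℝ} (h0 : 0 ≤ p) (h1 : p ≤ 1)
    {g h : Finset (Fin n) → (Pair n → Bool) → ℝ} (H : ∀ S Y, g S Y ≤ h S Y) :
    EP n p g ≤ EP n p h := by
  simp only [EP_eq]
  refine Finset.sum_le_sum fun S _ => mul_le_mul_of_nonneg_left ?_ (wt_nonneg h0 h1 S)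
  exact EQ_mono n fun Z => H S _

lemma EP_nonneg {n : ℕ} {p : ℝ} (h0 : 0 ≤ p) (h1 : p ≤ 1)
    {g : Finset (Fin n) → (Pair n → Bool) → ℝ} (H : ∀ S Y, 0 ≤ g S Y) :
    0 ≤ EP n p g := by
  have := EP_mono h0 h1 (g := fun _ _ => 0) (h := g) H
  rwa [EP_const] at this

lemma varQ_le (n : ℕ) (f : MvPolynomial (Pair n) ℝ) :
    varQ n f ≤ EQ n (fun Y => evalAt f Y ^ 2) := by
  have h : varQ n f = EQ n (fun Y => evalAt f Y ^ 2) - meanQ n f ^ 2 := by
    unfold varQ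
    have : (fun Y : Pair n → Bool => (evalAt f Y - meanQ n f) ^ 2)
        = fun Y => evalAt f Y ^ 2 + ((-2 * meanQ n f) * evalAt f Y + meanQ n f ^ 2) := by
      funext Y; ring
    rw [this, EQ_add, EQ_add, EQ_smul, EQ_const]
    unfold meanQ
    ring
  rw [h]
  nlinarith [sq_nonneg (meanQ n f)]

lemma varP_eq (n : ℕ) (p : ℝ) (f : MvPolynomial (Pair n) ℝ) :
    varP n p f = EP n p (fun _ Y => evalAt f Y ^ 2) - meanP n p f ^ 2 := by
  unfold varP
  have : (fun (_ : Finset (Fin n)) (Y : Pair n → Bool) => (evalAt f Y - meanP n p f) ^ 2)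
      = fun _ Y => evalAt f Y ^ 2 + ((-2 * meanP n p f) * evalAt f Y + meanP n p f ^ 2) := by
    funext _ Y; ring
  rw [this, EP_add, EP_add, EP_smul, EP_const]
  unfold meanP
  ring

lemma mmse_le {n D : ℕ} {p : ℝ} (h0 : 0 ≤ p) (h1 : p ≤ 1) (v : Fin n)
    (f : MvPolynomial (Pair n) ℝ) (hf : f.totalDegree ≤ D) :
    mmse n D p v ≤ EP n p (fun S Y => (evalAt f Y - if v ∈ S then 1 else 0) ^ 2) := by
  unfold mmse
  refine ciInf_le (f := fun f : {f : MvPolynomial (Pair n) ℝ // f.totalDegree ≤ D} =>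
    EP n p (fun S Y => (evalAt f.1 Y - if v ∈ S then 1 else 0) ^ 2)) ?_ ⟨f, hf⟩
  refine ⟨0, ?_⟩
  rintro x ⟨g, rfl⟩
  exact EP_nonneg h0 h1 fun S Y => sq_nonneg _

end Pool.Agent.Work.MP_d47e79_lc
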