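import Pool.Agent.Work.MP_d47e79_lc.PairMoment

namespace Pool.Agent.Work.MP_d47e79_lc

open Finset

/-- Partial sums along a chain. -/
noncomputable def chain {α : Type*} [Fintype α] (g0 : α → ℝ) (g : α → α → ℝ) : ℕ → α → ℝ
  | 0 => g0
  | (m + 1) => fun y => ∑ x, chain g0 g m x * g x y

lemma sum_chain {α : Type*} [Fintype α] [DecidableEq α] (g0 : α → ℝ) (g : α → α → ℝ) (m : ℕ)
    (h : α → ℝ) :
    ∑ f : Fin (m + 1) → α,
        g0 (f 0) * (∏ j : Fin m, g (f j.castSucc) (f j.succ)) * h (f (Fin.last m))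
      = ∑ y, chain g0 g m y * h y := by
  induction m generalizing h with
  | zero =>
    rw [← (Equiv.funUnique (Fin 1) α).symm.sum_comp]
    refine Finset.sum_congr rfl fun y _ => ?_
    simp [chain]
  | succ m ih =>
    rw [← (Fin.snocEquiv (fun _ : Fin (m + 2) => α)).sum_comp, Fintype.sum_prod_type]
    simp only [chain]
    have e1 : ∀ y : α, (∑ x, chain g0 g m x * g x y) * h y
        = (∑ f : Fin (m + 1) → α,
          g0 (f 0) * (∏ j : Fin m, g (f j.castSucc) (f j.succ)) * g (f (Fin.last m)) y) * h y := by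
      intro y
      rw [ih (fun x => g x y)]
    rw [Finset.sum_congr rfl fun y _ => e1 y]
    refine Finset.sum_congr rfl fun y _ => ?_
    rw [Finset.sum_mul]
    refine Finset.sum_congr rfl fun f _ => ?_
    have s0 : (Fin.snocEquiv (fun _ : Fin (m + 2) => α)) (y, f) 0 = f 0 := by
      have : (0 : Fin (m + 2)) = (0 : Fin (m + 1)).castSucc := Fin.castSucc_zero.symm
      rw [this]
      exact Fin.snoc_castSucc (α := fun _ => α) y f 0
    have sl : (Fin.snocEquiv (fun _ : Fin (m + 2) => α)) (y, f) (Fin.last (m + 1)) = y :=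
      Fin.snoc_last (α := fun _ => α) y f
    have sc : ∀ j : Fin (m + 1),
        (Fin.snocEquiv (fun _ : Fin (m + 2) => α)) (y, f) j.castSucc = f j := fun j =>
      Fin.snoc_castSucc (α := fun _ => α) y f j
    rw [s0, sl, Fin.prod_univ_castSucc]
    have e2 : ∀ j : Fin m,
        g ((Fin.snocEquiv (fun _ : Fin (m + 2) => α)) (y, f) j.castSucc.castSucc)
          ((Fin.snocEquiv (fun _ : Fin (m + 2) => α)) (y, f) j.castSucc.succ)
        = g (f j.castSucc) (f j.succ) := by
      intro j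
      rw [sc, Fin.succ_castSucc, sc]
    rw [Finset.prod_congr rfl fun j _ => e2 j]
    rw [sc, Fin.succ_last, sl]
    ring

section Local

variable {n m : ℕ} (V2 W : Finset (Fin n)) (nbr : Fin n → Finset (Fin n)) (P z : ℝ)

/-- Initial weight; `β` says whether the closing edge is shared. -/
noncomputable def g0 (β : Bool) (s : Fin n × Bool) : ℝ :=
  (if s.1 ∈ V2 then 1 else 0) * (if s.1 ∈ W then P else 1) *
    (if β = true ∨ s.2 = true then (if s.1 ∈ W then 1 else 0) else 1) *
    (if β = true ∧ s.2 = true then 1 + z else 1)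

/-- Transition weight. -/
noncomputable def gt (s t : Fin n × Bool) : ℝ :=
  (if t.1 ∈ V2 then 1 else 0) * (if t.1 ∈ W then P else 1) *
    (if s.2 = true then (if t.1 ∈ nbr s.1 then 1 else 0) else 1) *
    (if t.2 = true then (if t.1 ∈ W then 1 else 0) else 1) *
    (if s.2 = true ∧ t.2 = true then 1 + z else 1)

variable {V2 W nbr P z}

lemma g0_nonneg (hP : 0 ≤ P) (hz : 0 ≤ z) (β : Bool) (s : Fin n × Bool) :
    0 ≤ g0 V2 W P z β s := by
  unfold g0
  have : 0 ≤ 1 + z := by linarith
  refine mul_nonneg (mul_nonneg (mul_nonneg ?_ ?_) ?_) ?_ <;> split_ifs <;> first | positivity | assumption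

lemma gt_nonneg (hP : 0 ≤ P) (hz : 0 ≤ z) (s t : Fin n × Bool) :
    0 ≤ gt V2 W nbr P z s t := by
  unfold gt
  have : 0 ≤ 1 + z := by linarith
  refine mul_nonneg (mul_nonneg (mul_nonneg (mul_nonneg ?_ ?_) ?_) ?_) ?_ <;> split_ifs <;>
    first | positivity | assumption

lemma chain_nonneg (hP : 0 ≤ P) (hz : 0 ≤ z) (β : Bool) (j : ℕ) (s : Fin n × Bool) :
    0 ≤ chain (g0 V2 W P z β) (gt V2 W nbr P z) j s := by
  induction j generalizing s with
  | zero => exact g0_nonneg hP hz β s
  | succ j ih =>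
    simp only [chain]
    exact Finset.sum_nonneg fun x _ => mul_nonneg (ih x) (gt_nonneg hP hz _ _)

/-- Sum of `P^{[x ∈ W]}` over `V2`. -/
lemma sum_all (hP : 1 ≤ P) :
    ∑ x : Fin n, (if x ∈ V2 then (1 : ℝ) else 0) * (if x ∈ W then P else 1)
      ≤ V2.card + W.card * P := by
  have h1 : ∀ x : Fin n, (if x ∈ V2 then (1 : ℝ) else 0) * (if x ∈ W then P else 1)
      ≤ (if x ∈ V2 then 1 else 0) + (if x ∈ W then P else 0) := by
    intro x
    by_cases h : x ∈ V2 <;> by_cases h' : x ∈ W <;> simp [h, h'] <;> linarith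
  refine (Finset.sum_le_sum fun x _ => h1 x).trans ?_
  rw [Finset.sum_add_distrib]
  simp

lemma sum_in (hP : 1 ≤ P) :
    ∑ x : Fin n, (if x ∈ V2 then (1 : ℝ) else 0) * (if x ∈ W then P else 1) *
        (if x ∈ W then 1 else 0) ≤ W.card * P := by
  have h1 : ∀ x : Fin n, (if x ∈ V2 then (1 : ℝ) else 0) * (if x ∈ W then P else 1) *
        (if x ∈ W then 1 else 0) ≤ (if x ∈ W then P else 0) := by
    intro x
    by_cases h : x ∈ V2 <;> by_cases h' : x ∈ W <;> simp [h, h'] <;> linarith
  refine (Finset.sum_le_sum fun x _ => h1 x).trans ?_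
  simp

lemma sum_nb (hP : 1 ≤ P) (A : Finset (Fin n)) (hA : A.card ≤ 2) :
    ∑ x : Fin n, (if x ∈ V2 then (1 : ℝ) else 0) * (if x ∈ W then P else 1) *
        (if x ∈ A then 1 else 0) ≤ 2 * P := by
  have h1 : ∀ x : Fin n, (if x ∈ V2 then (1 : ℝ) else 0) * (if x ∈ W then P else 1) *
        (if x ∈ A then 1 else 0) ≤ (if x ∈ A then P else 0) := by
    intro x
    by_cases h : x ∈ V2 <;> by_cases h' : x ∈ W <;> by_cases h'' : x ∈ A <;>
      simp [h, h', h''] <;> linarith
  refine (Finset.sum_le_sum fun x _ => h1 x).trans ?_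
  rw [Finset.sum_ite_mem, Finset.univ_inter, Finset.sum_const, nsmul_eq_mul]
  have : (A.card : ℝ) ≤ 2 := by exact_mod_cast hA
  nlinarith

/-- The two sums controlling the chain. -/
noncomputable def Xs (V2 W : Finset (Fin n)) (nbr : Fin n → Finset (Fin n)) (P z : ℝ)
    (β : Bool) (j : ℕ) (b : Bool) : ℝ :=
  ∑ x : Fin n, chain (g0 V2 W P z β) (gt V2 W nbr P z) j (x, b)

lemma Xs_nonneg (hP : 0 ≤ P) (hz : 0 ≤ z) (β : Bool) (j : ℕ) (b : Bool) :
    0 ≤ Xs V2 W nbr P z β j b :=
  Finset.sum_nonneg fun x _ => chain_nonneg hP hz β j _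

lemma Xs_zero_ff (hP : 1 ≤ P) :
    Xs V2 W nbr P z false 0 false ≤ V2.card + W.card * P := by
  unfold Xs
  refine le_trans (le_of_eq ?_) (sum_all (V2 := V2) (W := W) hP)
  refine Finset.sum_congr rfl fun x _ => ?_
  simp [chain, g0]

lemma Xs_zero_ft (hP : 1 ≤ P) :
    Xs V2 W nbr P z false 0 true ≤ W.card * P := by
  unfold Xs
  refine le_trans (le_of_eq ?_) (sum_in (V2 := V2) (W := W) hP)
  refine Finset.sum_congr rfl fun x _ => ?_
  simp [chain, g0]

lemma Xs_zero_tf (hP : 1 ≤ P) :
    Xs V2 W nbr P z true 0 false ≤ W.card * P := by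
  unfold Xs
  refine le_trans (le_of_eq ?_) (sum_in (V2 := V2) (W := W) hP)
  refine Finset.sum_congr rfl fun x _ => ?_
  simp [chain, g0]

lemma Xs_zero_tt (hP : 1 ≤ P) (hz : 0 ≤ z) :
    Xs V2 W nbr P z true 0 true ≤ W.card * P * (1 + z) := by
  unfold Xs
  have h := mul_le_mul_of_nonneg_right (sum_in (V2 := V2) (W := W) hP)
    (by linarith : (0 : ℝ) ≤ 1 + z)
  refine le_trans (le_of_eq ?_) h
  rw [Finset.sum_mul]
  refine Finset.sum_congr rfl fun x _ => ?_
  simp [chain, g0]

lemma Xs_succ (β : Bool) (j : ℕ) (b' : Bool) :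
    Xs V2 W nbr P z β (j + 1) b'
      = ∑ x : Fin n, chain (g0 V2 W P z β) (gt V2 W nbr P z) j (x, false) *
          (∑ y : Fin n, gt V2 W nbr P z (x, false) (y, b'))
        + ∑ x : Fin n, chain (g0 V2 W P z β) (gt V2 W nbr P z) j (x, true) *
          (∑ y : Fin n, gt V2 W nbr P z (x, true) (y, b')) := by
  unfold Xs
  simp only [chain]
  rw [Finset.sum_comm, Fintype.sum_prod_type]
  simp only [Fintype.sum_bool, ← Finset.mul_sum]
  rw [Finset.sum_add_distrib, add_comm]

lemma Xs_succ_false (hP : 1 ≤ P) (hz : 0 ≤ z) (hnb : ∀ x, (nbr x).card ≤ 2) (β : Bool) (j : ℕ) :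
    Xs V2 W nbr P z β (j + 1) false
      ≤ (V2.card + W.card * P) * Xs V2 W nbr P z β j false
        + 2 * P * Xs V2 W nbr P z β j true := by
  rw [Xs_succ]
  have hP0 : 0 ≤ P := by linarith
  unfold Xs
  rw [Finset.mul_sum, Finset.mul_sum]
  refine add_le_add (Finset.sum_le_sum fun x _ => ?_) (Finset.sum_le_sum fun x _ => ?_)
  · rw [mul_comm]
    refine mul_le_mul_of_nonneg_right ?_ (chain_nonneg hP0 hz β j _)
    refine le_trans (le_of_eq ?_) (sum_all (V2 := V2) (W := W) hP)
    refine Finset.sum_congr rfl fun y _ => ?_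
    simp [gt]
  · rw [mul_comm]
    refine mul_le_mul_of_nonneg_right ?_ (chain_nonneg hP0 hz β j _)
    refine le_trans (le_of_eq ?_) (sum_nb (V2 := V2) (W := W) hP (nbr x) (hnb x))
    refine Finset.sum_congr rfl fun y _ => ?_
    simp [gt]

lemma Xs_succ_true (hP : 1 ≤ P) (hz : 0 ≤ z) (hnb : ∀ x, (nbr x).card ≤ 2) (β : Bool) (j : ℕ) :
    Xs V2 W nbr P z β (j + 1) true
      ≤ (W.card * P) * Xs V2 W nbr P z β j false
        + 2 * P * (1 + z) * Xs V2 W nbr P z β j true := by
  rw [Xs_succ]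
  have hP0 : 0 ≤ P := by linarith
  unfold Xs
  rw [Finset.mul_sum, Finset.mul_sum]
  refine add_le_add (Finset.sum_le_sum fun x _ => ?_) (Finset.sum_le_sum fun x _ => ?_)
  · rw [mul_comm]
    refine mul_le_mul_of_nonneg_right ?_ (chain_nonneg hP0 hz β j _)
    refine le_trans (le_of_eq ?_) (sum_in (V2 := V2) (W := W) hP)
    refine Finset.sum_congr rfl fun y _ => ?_
    simp [gt]
  · rw [mul_comm]
    refine mul_le_mul_of_nonneg_right ?_ (chain_nonneg hP0 hz β j _)
    have h := mul_le_mul_of_nonneg_right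
      (sum_nb (V2 := V2) (W := W) hP (nbr x) (hnb x)) (by linarith : (0 : ℝ) ≤ 1 + z)
    refine le_trans ?_ h
    rw [Finset.sum_mul]
    refine Finset.sum_le_sum fun y _ => ?_
    have h1z : (0 : ℝ) ≤ 1 + z := by linarith
    by_cases h1 : y ∈ V2 <;> by_cases h2 : y ∈ W <;> by_cases h3 : y ∈ nbr x <;>
      simp [gt, h1, h2, h3] <;> positivity

end Local

/-- The numerical recursion: bound on the chain sums. -/
lemma chain_bound {n : ℕ} (V2 W : Finset (Fin n)) (nbr : Fin n → Finset (Fin n)) (P z N L y ρ : ℝ)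
    (hP : 1 ≤ P) (hz : 0 ≤ z) (hnb : ∀ x, (nbr x).card ≤ 2) (hN : (V2.card : ℝ) = N) (hN0 : 0 < N)
    (hL : (W.card : ℝ) = L) (hy : y = P / N) (hρ : ρ = 2 * y * (1 + z)) (hρ2 : ρ ≤ 1 / 2)
    (j : ℕ) :
    Xs V2 W nbr P z false j false ≤ N ^ (j + 1) * (1 + L * y + 8 * L * y ^ 2) ^ (j + 1) ∧
    Xs V2 W nbr P z true j true ≤ N ^ (j + 1) *
      (4 * L ^ 2 * y ^ 2 * (1 + L * y + 8 * L * y ^ 2) ^ (j + 1) + L * ρ ^ (j + 1)) := by
  have hP0 : 0 ≤ P := by linarith
  have hL0 : 0 ≤ L := by rw [← hL]; positivity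
  have hy0 : 0 ≤ y := by rw [hy]; positivity
  have hρ0 : 0 ≤ ρ := by rw [hρ]; positivity
  have hPy : P = N * y := by rw [hy]; field_simp
  set lam := 1 + L * y + 8 * L * y ^ 2 with hlam
  have hlam1 : 1 ≤ lam := by
    rw [hlam]
    have : 0 ≤ L * y := by positivity
    have : 0 ≤ 8 * L * y ^ 2 := by positivity
    linarith
  have hlam0 : 0 < lam := by linarith
  -- the case β = false
  have hA : ∀ j, Xs V2 W nbr P z false j false ≤ N ^ (j + 1) * lam ^ (j + 1) ∧
      Xs V2 W nbr P z false j true ≤ N ^ (j + 1) * (2 * L * y * lam ^ (j + 1)) := by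
    intro j
    induction j with
    | zero =>
      constructor
      · refine (Xs_zero_ff hP).trans ?_
        rw [hN, hL, hPy, zero_add, pow_one, pow_one, hlam]
        have : 0 ≤ N * (8 * L * y ^ 2) := by positivity
        nlinarith
      · refine (Xs_zero_ft hP).trans ?_
        rw [hL, hPy, zero_add, pow_one, pow_one]
        have h1 : L * (N * y) * 1 ≤ L * (N * y) * (2 * lam) := by
          refine mul_le_mul_of_nonneg_left (by linarith) (by positivity)
        nlinarith
    | succ j ih =>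
      obtain ⟨ih1, ih2⟩ := ih
      constructor
      · refine (Xs_succ_false hP hz hnb false j).trans ?_
        rw [hN, hL, hPy]
        calc (N + L * (N * y)) * Xs V2 W nbr (N * y) z false j false
              + 2 * (N * y) * Xs V2 W nbr (N * y) z false j true
            ≤ (N + L * (N * y)) * (N ^ (j + 1) * lam ^ (j + 1))
              + 2 * (N * y) * (N ^ (j + 1) * (2 * L * y * lam ^ (j + 1))) := by
              rw [← hPy]
              gcongr
          _ = N ^ (j + 1 + 1) * (lam ^ (j + 1) * (1 + L * y + 4 * L * y ^ 2)) := by ring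
          _ ≤ N ^ (j + 1 + 1) * (lam ^ (j + 1) * lam) := by
              have : 0 ≤ 4 * L * y ^ 2 := by positivity
              gcongr
              rw [hlam]; linarith
          _ = N ^ (j + 1 + 1) * lam ^ (j + 1 + 1) := by ring
      · refine (Xs_succ_true hP hz hnb false j).trans ?_
        rw [hL]
        calc L * P * Xs V2 W nbr P z false j false
              + 2 * P * (1 + z) * Xs V2 W nbr P z false j true
            ≤ L * P * (N ^ (j + 1) * lam ^ (j + 1))
              + 2 * P * (1 + z) * (N ^ (j + 1) * (2 * L * y * lam ^ (j + 1))) := by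
              gcongr
          _ = N ^ (j + 1 + 1) * (lam ^ (j + 1) * (L * y) * (1 + 2 * ρ)) := by
              rw [hPy, hρ]; ring
          _ ≤ N ^ (j + 1 + 1) * (lam ^ (j + 1) * (L * y) * (2 * lam)) := by
              gcongr
              linarith
          _ = N ^ (j + 1 + 1) * (2 * L * y * lam ^ (j + 1 + 1)) := by ring
  -- the case β = true
  have hB : ∀ j, Xs V2 W nbr P z true j false
        ≤ N ^ (j + 1) * (L * y * lam ^ (j + 1) * (2 - ρ ^ j)) ∧
      Xs V2 W nbr P z true j true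
        ≤ N ^ (j + 1) * (4 * L ^ 2 * y ^ 2 * lam ^ (j + 1) + L / 2 * ρ ^ (j + 1)) := by
    intro j
    induction j with
    | zero =>
      constructor
      · refine (Xs_zero_tf hP).trans ?_
        rw [hL, hPy, zero_add, pow_one, pow_one, pow_zero]
        have h1 : L * (N * y) * 1 ≤ L * (N * y) * lam := by
          refine mul_le_mul_of_nonneg_left (by linarith) (by positivity)
        nlinarith
      · refine (Xs_zero_tt hP hz).trans ?_
        rw [hL, hPy, zero_add, pow_one, pow_one, pow_one, hρ]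
        have : 0 ≤ N * (4 * L ^ 2 * y ^ 2 * lam) := by positivity
        nlinarith
    | succ j ih =>
      obtain ⟨ih1, ih2⟩ := ih
      have hρj : ρ ^ j ≤ 1 := pow_le_one₀ hρ0 (by linarith)
      have hρj0 : 0 ≤ ρ ^ j := by positivity
      have hlj : 1 ≤ lam ^ (j + 1) := one_le_pow₀ hlam1
      constructor
      · refine (Xs_succ_false hP hz hnb true j).trans ?_
        rw [hN, hL]
        calc (N + L * P) * Xs V2 W nbr P z true j false
              + 2 * P * Xs V2 W nbr P z true j true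
            ≤ (N + L * P) * (N ^ (j + 1) * (L * y * lam ^ (j + 1) * (2 - ρ ^ j)))
              + 2 * P * (N ^ (j + 1) * (4 * L ^ 2 * y ^ 2 * lam ^ (j + 1)
                + L / 2 * ρ ^ (j + 1))) := by
              gcongr
          _ = N ^ (j + 1 + 1) * (L * y * (lam ^ (j + 1) * ((1 + L * y) * (2 - ρ ^ j)
                + 8 * L * y ^ 2) + ρ ^ (j + 1))) := by
              rw [hPy]; ring
          _ ≤ N ^ (j + 1 + 1) * (L * y * (lam ^ (j + 1) * (lam * (2 - ρ ^ (j + 1))))) := by
              have hρj1 : ρ ^ (j + 1) ≤ ρ ^ j / 2 := by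
                rw [pow_succ]; nlinarith
              have k1 : (1 + L * y) * (2 - ρ ^ j) + 8 * L * y ^ 2 + ρ ^ (j + 1)
                  ≤ lam * (2 - ρ ^ (j + 1)) := by
                have hLy : 0 ≤ L * y := by positivity
                have hLy2 : 0 ≤ 8 * L * y ^ 2 := by positivity
                rw [hlam]
                have e : (1 + L * y + 8 * L * y ^ 2) * (2 - ρ ^ (j + 1))
                    = (1 + L * y) * (2 - ρ ^ (j + 1)) + 8 * L * y ^ 2 * (2 - ρ ^ (j + 1)) := by
                  ring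
                rw [e]
                have k2 : 8 * L * y ^ 2 ≤ 8 * L * y ^ 2 * (2 - ρ ^ (j + 1)) := by
                  nlinarith
                have k3 : (1 + L * y) * (2 - ρ ^ j) + ρ ^ (j + 1)
                    ≤ (1 + L * y) * (2 - ρ ^ (j + 1)) := by
                  nlinarith [mul_nonneg hLy (by linarith : 0 ≤ ρ ^ j - ρ ^ (j + 1))]
                linarith
              have k4 : lam ^ (j + 1) * ((1 + L * y) * (2 - ρ ^ j) + 8 * L * y ^ 2) + ρ ^ (j + 1)
                  ≤ lam ^ (j + 1) * (lam * (2 - ρ ^ (j + 1))) := by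
                have hρj1' : 0 ≤ ρ ^ (j + 1) := by positivity
                calc _ ≤ lam ^ (j + 1) * ((1 + L * y) * (2 - ρ ^ j) + 8 * L * y ^ 2)
                      + lam ^ (j + 1) * ρ ^ (j + 1) := by nlinarith
                  _ = lam ^ (j + 1) * ((1 + L * y) * (2 - ρ ^ j) + 8 * L * y ^ 2
                      + ρ ^ (j + 1)) := by ring
                  _ ≤ _ := mul_le_mul_of_nonneg_left k1 (by positivity)
              gcongr
          _ = N ^ (j + 1 + 1) * (L * y * lam ^ (j + 1 + 1) * (2 - ρ ^ (j + 1))) := by ring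
      · refine (Xs_succ_true hP hz hnb true j).trans ?_
        rw [hL]
        calc L * P * Xs V2 W nbr P z true j false
              + 2 * P * (1 + z) * Xs V2 W nbr P z true j true
            ≤ L * P * (N ^ (j + 1) * (L * y * lam ^ (j + 1) * (2 - ρ ^ j)))
              + 2 * P * (1 + z) * (N ^ (j + 1) * (4 * L ^ 2 * y ^ 2 * lam ^ (j + 1)
                + L / 2 * ρ ^ (j + 1))) := by
              gcongr
          _ = N ^ (j + 1 + 1) * (L ^ 2 * y ^ 2 * lam ^ (j + 1) * (2 - ρ ^ j + 4 * ρ)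
                + L / 2 * ρ ^ (j + 1 + 1)) := by
              rw [hPy, hρ]; ring
          _ ≤ N ^ (j + 1 + 1) * (L ^ 2 * y ^ 2 * lam ^ (j + 1) * (4 * lam)
                + L / 2 * ρ ^ (j + 1 + 1)) := by
              gcongr
              linarith
          _ = N ^ (j + 1 + 1) * (4 * L ^ 2 * y ^ 2 * lam ^ (j + 1 + 1)
                + L / 2 * ρ ^ (j + 1 + 1)) := by ring
  refine ⟨(hA j).1, (hB j).2.trans ?_⟩
  have : L / 2 * ρ ^ (j + 1) ≤ L * ρ ^ (j + 1) := by
    have : 0 ≤ ρ ^ (j + 1) := by positivity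
    nlinarith
  gcongr

end Pool.Agent.Work.MP_d47e79_lc
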