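import Pool.Agent.Work.MP_d47e79_lc.Mono

namespace Pool.Agent.Work.MP_d47e79_lc

open Finset

lemma EP_sum {ι : Type*} (n : ℕ) (p : ℝ) (s : Finset ι)
    (g : ι → Finset (Fin n) → (Pair n → Bool) → ℝ) :
    EP n p (fun S Y => ∑ i ∈ s, g i S Y) = ∑ i ∈ s, EP n p (g i) := by
  simp only [EP_eq, EQ_sum, Finset.mul_sum]
  exact Finset.sum_comm

/-- Normalised number of `m`-cliques. -/
noncomputable def cliquePoly (n m : ℕ) (p : ℝ) : MvPolynomial (Pair n) ℝ :=
  MvPolynomial.C (1 / ((n.choose m : ℝ) * p ^ m)) *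
    ∑ A ∈ powersetCard m (univ : Finset (Fin n)), mono (cl A)

/-- Normalised number of `(m+1)`-cliques through `v`. -/
noncomputable def rootPoly (n m : ℕ) (p : ℝ) (v : Fin n) : MvPolynomial (Pair n) ℝ :=
  MvPolynomial.C (1 / (((n - 1).choose m : ℝ) * p ^ m)) *
    ∑ A ∈ powersetCard m ((univ : Finset (Fin n)).erase v), mono (cl (insert v A))

lemma card_erase_univ {n : ℕ} (v : Fin n) : ((univ : Finset (Fin n)).erase v).card = n - 1 := by
  rw [card_erase_of_mem (mem_univ v), card_univ, Fintype.card_fin]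

lemma totalDegree_C_mul_le {σ : Type*} (c : ℝ) (f : MvPolynomial σ ℝ) :
    (MvPolynomial.C c * f).totalDegree ≤ f.totalDegree := by
  refine (MvPolynomial.totalDegree_mul _ _).trans ?_
  simp

lemma totalDegree_cliquePoly (n m : ℕ) (p : ℝ) :
    (cliquePoly n m p).totalDegree ≤ m.choose 2 := by
  unfold cliquePoly
  refine (totalDegree_C_mul_le _ _).trans ?_
  refine (MvPolynomial.totalDegree_finsetSum _ _).trans ?_
  refine Finset.sup_le fun A hA => ?_
  refine (totalDegree_mono_le _).trans ?_
  rw [card_cl, (mem_powersetCard.mp hA).2]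

lemma totalDegree_rootPoly (n m : ℕ) (p : ℝ) (v : Fin n) :
    (rootPoly n m p v).totalDegree ≤ (m + 1).choose 2 := by
  unfold rootPoly
  refine (totalDegree_C_mul_le _ _).trans ?_
  refine (MvPolynomial.totalDegree_finsetSum _ _).trans ?_
  refine Finset.sup_le fun A hA => ?_
  refine (totalDegree_mono_le _).trans ?_
  have hA' := mem_powersetCard.mp hA
  have hv : v ∉ A := fun h => by have := hA'.1 h; simp at this
  rw [card_cl, card_insert_of_notMem hv, hA'.2]

lemma evalAt_cliquePoly (n m : ℕ) (p : ℝ) (Y : Pair n → Bool) :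
    evalAt (cliquePoly n m p) Y = (1 / ((n.choose m : ℝ) * p ^ m)) *
      ∑ A ∈ powersetCard m (univ : Finset (Fin n)), evalAt (mono (cl A)) Y := by
  unfold cliquePoly; rw [evalAt_C_mul, evalAt_sum]

lemma evalAt_rootPoly (n m : ℕ) (p : ℝ) (v : Fin n) (Y : Pair n → Bool) :
    evalAt (rootPoly n m p v) Y = (1 / (((n - 1).choose m : ℝ) * p ^ m)) *
      ∑ A ∈ powersetCard m ((univ : Finset (Fin n)).erase v), evalAt (mono (cl (insert v A))) Y := by
  unfold rootPoly; rw [evalAt_C_mul, evalAt_sum]

/-- The bound `q ^ |A ∪ B| ≤ q^(m+l) (1+θ)^|A ∩ B|`. -/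
lemma pow_union_le {α : Type*} [DecidableEq α] (A B : Finset α) (p q : ℝ) (hp : 0 < p)
    (hpq : p ≤ q) :
    q ^ (A ∪ B).card ≤ q ^ (A.card + B.card) * (1 + (1 - p) / p) ^ (A ∩ B).card := by
  have hq : 0 < q := lt_of_lt_of_le hp hpq
  rw [pow_card_union A B q hq.ne']
  have e1 : 1 + (1 - p) / p = 1 / p := by field_simp; ring
  rw [e1]
  have : 1 / q ≤ 1 / p := one_div_le_one_div_of_le hp hpq
  gcongr

lemma sum_pow_union_le {α : Type*} [DecidableEq α] (N : Finset α) (m l : ℕ) (hm : m ≤ N.card)
    (hl : l ≤ N.card) (p q : ℝ) (hp : 0 < p) (hp1 : p ≤ 1) (hpq : p ≤ q) :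
    ∑ A ∈ powersetCard m N, ∑ B ∈ powersetCard l N, q ^ (A ∪ B).card
      ≤ q ^ (m + l) * ((N.card.choose m : ℝ) * (N.card.choose l) *
          Real.exp ((1 - p) / p * m * l / N.card)) := by
  have hq : 0 < q := lt_of_lt_of_le hp hpq
  have h1 : ∀ A ∈ powersetCard m N, ∀ B ∈ powersetCard l N,
      q ^ (A ∪ B).card ≤ q ^ (m + l) * (1 + (1 - p) / p) ^ (A ∩ B).card := by
    intro A hA B hB
    have := pow_union_le A B p q hp hpq
    rwa [(mem_powersetCard.mp hA).2, (mem_powersetCard.mp hB).2] at this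
  refine (Finset.sum_le_sum fun A hA => Finset.sum_le_sum fun B hB => h1 A hA B hB).trans ?_
  simp only [← Finset.mul_sum]
  have hθ : 0 ≤ (1 - p) / p := div_nonneg (by linarith) hp.le
  exact mul_le_mul_of_nonneg_left (sum_pow_inter_le N m l hm hl _ hθ) (by positivity)

lemma sum_pow_union_ge {α : Type*} [DecidableEq α] (N : Finset α) (m l : ℕ)
    (p : ℝ) (hp : 0 < p) (hp1 : p ≤ 1) :
    p ^ (m + l) * ((N.card.choose m : ℝ) * (N.card.choose l) *
          (1 + (1 - p) / p * m * l / N.card))
      ≤ ∑ A ∈ powersetCard m N, ∑ B ∈ powersetCard l N, p ^ (A ∪ B).card := by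
  have h1 : ∀ A ∈ powersetCard m N, ∀ B ∈ powersetCard l N,
      p ^ (A ∪ B).card = p ^ (m + l) * (1 + (1 - p) / p) ^ (A ∩ B).card := by
    intro A hA B hB
    have := pow_card_union A B p hp.ne'
    rw [(mem_powersetCard.mp hA).2, (mem_powersetCard.mp hB).2] at this
    rw [this]
    congr 2
    field_simp; ring
  rw [Finset.sum_congr rfl fun A hA => Finset.sum_congr rfl fun B hB => h1 A hA B hB]
  simp only [← Finset.mul_sum]
  have hθ : 0 ≤ (1 - p) / p := div_nonneg (by linarith) hp.le
  exact mul_le_mul_of_nonneg_left (sum_pow_inter_ge N m l _ hθ) (by positivity)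

section Moments

variable {n : ℕ} {p : ℝ}

/-- `q = p + (1-p) 2^{-h}`. -/
noncomputable def qq (p : ℝ) (h : ℕ) : ℝ := p + (1 - p) * (1 / 2) ^ h

lemma qq_ge (hp1 : p ≤ 1) (h : ℕ) : p ≤ qq p h := by
  unfold qq
  have : 0 ≤ (1 - p) * (1 / 2 : ℝ) ^ h := mul_nonneg (by linarith) (by positivity)
  linarith

lemma rootPoly_mul_eq (m l : ℕ) (v : Fin n) (w : Finset (Fin n) → ℝ) :
    EP n p (fun S Y => w S * (evalAt (rootPoly n m p v) Y * evalAt (rootPoly n l p v) Y))
      = (1 / (((n - 1).choose m : ℝ) * p ^ m)) * (1 / (((n - 1).choose l : ℝ) * p ^ l)) *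
        ∑ A ∈ powersetCard m ((univ : Finset (Fin n)).erase v),
          ∑ B ∈ powersetCard l ((univ : Finset (Fin n)).erase v),
          EP n p (fun S Y => w S *
            evalAt (mono (cl (insert v A) ∪ cl (insert v B))) Y) := by
  have e1 : (fun (S : Finset (Fin n)) (Y : Pair n → Bool) =>
      w S * (evalAt (rootPoly n m p v) Y * evalAt (rootPoly n l p v) Y))
      = fun S Y => ((1 / (((n - 1).choose m : ℝ) * p ^ m)) *
          (1 / (((n - 1).choose l : ℝ) * p ^ l))) *
        (∑ A ∈ powersetCard m ((univ : Finset (Fin n)).erase v),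
          ∑ B ∈ powersetCard l ((univ : Finset (Fin n)).erase v),
            w S * evalAt (mono (cl (insert v A) ∪ cl (insert v B))) Y) := by
    funext S Y
    rw [evalAt_rootPoly, evalAt_rootPoly]
    have : ∑ A ∈ powersetCard m ((univ : Finset (Fin n)).erase v),
          ∑ B ∈ powersetCard l ((univ : Finset (Fin n)).erase v),
            w S * evalAt (mono (cl (insert v A) ∪ cl (insert v B))) Y
        = w S * ((∑ A ∈ powersetCard m ((univ : Finset (Fin n)).erase v),
              evalAt (mono (cl (insert v A))) Y) *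
            (∑ B ∈ powersetCard l ((univ : Finset (Fin n)).erase v),
              evalAt (mono (cl (insert v B))) Y)) := by
      rw [Finset.sum_mul_sum, Finset.mul_sum]
      refine Finset.sum_congr rfl fun A _ => ?_
      rw [Finset.mul_sum]
      refine Finset.sum_congr rfl fun B _ => ?_
      rw [evalAt_mono_mul]
    rw [this]; ring
  rw [e1, EP_smul, EP_sum]
  congr 1
  refine Finset.sum_congr rfl fun A _ => ?_
  rw [EP_sum]

/-- Cross moment of rooted clique counts, root in `S`: upper bound. -/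
lemma EP_in_mul_le (hp : 0 < p) (hp1 : p ≤ 1) (v : Fin n) (m l h : ℕ)
    (hm : 2 * h ≤ m) (hl : 2 * h ≤ l) (hmn : m ≤ n - 1) (hln : l ≤ n - 1) :
    EP n p (fun S Y => (if v ∈ S then 1 else 0) *
        (evalAt (rootPoly n m p v) Y * evalAt (rootPoly n l p v) Y))
      ≤ p * (qq p h / p) ^ (m + l) * Real.exp ((1 - p) / p * m * l / (n - 1 : ℕ)) := by
  rw [rootPoly_mul_eq m l v (fun S => if v ∈ S then 1 else 0)]
  have hcard := card_erase_univ v
  have hqp := qq_ge hp1 h
  have hq : 0 < qq p h := lt_of_lt_of_le hp hqp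
  have h1 : ∑ A ∈ powersetCard m ((univ : Finset (Fin n)).erase v),
          ∑ B ∈ powersetCard l ((univ : Finset (Fin n)).erase v),
          EP n p (fun S Y => (if v ∈ S then 1 else 0) *
            evalAt (mono (cl (insert v A) ∪ cl (insert v B))) Y)
      ≤ ∑ A ∈ powersetCard m ((univ : Finset (Fin n)).erase v),
          ∑ B ∈ powersetCard l ((univ : Finset (Fin n)).erase v), p * qq p h ^ (A ∪ B).card := by
    refine Finset.sum_le_sum fun A hA => Finset.sum_le_sum fun B hB => ?_
    have hA' := mem_powersetCard.mp hA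
    have hB' := mem_powersetCard.mp hB
    have hvA : v ∉ A := fun h => by have := hA'.1 h; simp at this
    have hvB : v ∉ B := fun h => by have := hB'.1 h; simp at this
    have hvU : v ∉ A ∪ B := by simp [hvA, hvB]
    refine EP_in_le hp.le hp1 _ v (A ∪ B) hvU h ?_
    intro u hu
    refine deg_union (insert v A) (insert v B) h ?_ ?_ u ?_
    · rw [card_insert_of_notMem hvA, hA'.2]; omega
    · rw [card_insert_of_notMem hvB, hB'.2]; omega
    · rw [← insert_union_distrib]; exact hu
  simp only [← Finset.mul_sum] at h1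
  have h2 := sum_pow_union_le ((univ : Finset (Fin n)).erase v) m l (by omega) (by omega)
    p (qq p h) hp hp1 hqp
  rw [hcard] at h2
  have hC1 : (0 : ℝ) < ((n - 1).choose m : ℝ) := by exact_mod_cast Nat.choose_pos hmn
  have hC2 : (0 : ℝ) < ((n - 1).choose l : ℝ) := by exact_mod_cast Nat.choose_pos hln
  calc _ ≤ (1 / (((n - 1).choose m : ℝ) * p ^ m)) * (1 / (((n - 1).choose l : ℝ) * p ^ l)) *
        (p * ((qq p h) ^ (m + l) * (((n - 1).choose m : ℝ) * ((n - 1).choose l) *
          Real.exp ((1 - p) / p * m * l / (n - 1 : ℕ))))) := by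
        refine mul_le_mul_of_nonneg_left (h1.trans ?_) (by positivity)
        exact mul_le_mul_of_nonneg_left h2 hp.le
    _ = _ := by
        rw [div_pow, pow_add p m l]
        field_simp

/-- Cross moment of rooted clique counts, root in `S`: lower bound. -/
lemma EP_in_mul_ge (hp : 0 < p) (hp1 : p ≤ 1) (v : Fin n) (m l : ℕ)
    (hmn : m ≤ n - 1) (hln : l ≤ n - 1) :
    p * (1 + (1 - p) / p * m * l / (n - 1 : ℕ))
      ≤ EP n p (fun S Y => (if v ∈ S then 1 else 0) *
        (evalAt (rootPoly n m p v) Y * evalAt (rootPoly n l p v) Y)) := by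
  rw [rootPoly_mul_eq m l v (fun S => if v ∈ S then 1 else 0)]
  have hcard := card_erase_univ v
  have h1 : ∑ A ∈ powersetCard m ((univ : Finset (Fin n)).erase v),
          ∑ B ∈ powersetCard l ((univ : Finset (Fin n)).erase v), p * p ^ (A ∪ B).card
      ≤ ∑ A ∈ powersetCard m ((univ : Finset (Fin n)).erase v),
          ∑ B ∈ powersetCard l ((univ : Finset (Fin n)).erase v),
          EP n p (fun S Y => (if v ∈ S then 1 else 0) *
            evalAt (mono (cl (insert v A) ∪ cl (insert v B))) Y) := by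
    refine Finset.sum_le_sum fun A hA => Finset.sum_le_sum fun B hB => ?_
    have hA' := mem_powersetCard.mp hA
    have hB' := mem_powersetCard.mp hB
    have hvA : v ∉ A := fun h => by have := hA'.1 h; simp at this
    have hvB : v ∉ B := fun h => by have := hB'.1 h; simp at this
    have hvU : v ∉ A ∪ B := by simp [hvA, hvB]
    refine EP_in_ge hp.le hp1 _ v (A ∪ B) hvU ?_
    intro e he
    rw [insert_union_distrib]
    rcases mem_union.mp he with he | he
    · exact (mem_cl.mp he).trans subset_union_left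
    · exact (mem_cl.mp he).trans subset_union_right
  simp only [← Finset.mul_sum] at h1
  have h2 := sum_pow_union_ge ((univ : Finset (Fin n)).erase v) m l p hp hp1
  rw [hcard] at h2
  have hC1 : (0 : ℝ) < ((n - 1).choose m : ℝ) := by exact_mod_cast Nat.choose_pos hmn
  have hC2 : (0 : ℝ) < ((n - 1).choose l : ℝ) := by exact_mod_cast Nat.choose_pos hln
  calc p * (1 + (1 - p) / p * m * l / (n - 1 : ℕ))
      = (1 / (((n - 1).choose m : ℝ) * p ^ m)) * (1 / (((n - 1).choose l : ℝ) * p ^ l)) *
        (p * (p ^ (m + l) * (((n - 1).choose m : ℝ) * ((n - 1).choose l) *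
          (1 + (1 - p) / p * m * l / (n - 1 : ℕ))))) := by
        rw [pow_add p m l]
        field_simp
    _ ≤ _ := by
        refine mul_le_mul_of_nonneg_left (le_trans ?_ h1) (by positivity)
        exact mul_le_mul_of_nonneg_left h2 hp.le

/-- Second moment of rooted clique counts, root outside `S`: upper bound. -/
lemma EP_out_sq_le (hp : 0 < p) (hp1 : p ≤ 1) (v : Fin n) (m h : ℕ)
    (hm : 2 * h ≤ m) (hmn : m ≤ n - 1) :
    EP n p (fun S Y => (if v ∈ S then 0 else 1) *
        (evalAt (rootPoly n m p v) Y * evalAt (rootPoly n m p v) Y))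
      ≤ (1 / 2) ^ h * (qq p h / p) ^ (m + m) *
          Real.exp ((1 - p) / p * m * m / (n - 1 : ℕ)) := by
  rw [rootPoly_mul_eq m m v (fun S => if v ∈ S then 0 else 1)]
  have hcard := card_erase_univ v
  have hqp := qq_ge hp1 h
  have hq : 0 < qq p h := lt_of_lt_of_le hp hqp
  have h1 : ∑ A ∈ powersetCard m ((univ : Finset (Fin n)).erase v),
          ∑ B ∈ powersetCard m ((univ : Finset (Fin n)).erase v),
          EP n p (fun S Y => (if v ∈ S then 0 else 1) *
            evalAt (mono (cl (insert v A) ∪ cl (insert v B))) Y)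
      ≤ ∑ A ∈ powersetCard m ((univ : Finset (Fin n)).erase v),
          ∑ B ∈ powersetCard m ((univ : Finset (Fin n)).erase v),
            (1 / 2) ^ h * qq p h ^ (A ∪ B).card := by
    refine Finset.sum_le_sum fun A hA => Finset.sum_le_sum fun B hB => ?_
    have hA' := mem_powersetCard.mp hA
    have hB' := mem_powersetCard.mp hB
    have hvA : v ∉ A := fun h => by have := hA'.1 h; simp at this
    have hvB : v ∉ B := fun h => by have := hB'.1 h; simp at this
    have hvU : v ∉ A ∪ B := by simp [hvA, hvB]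
    refine EP_out_le hp.le hp1 _ v (A ∪ B) hvU h ?_
    intro u hu
    refine deg_union (insert v A) (insert v B) h ?_ ?_ u ?_
    · rw [card_insert_of_notMem hvA, hA'.2]; omega
    · rw [card_insert_of_notMem hvB, hB'.2]; omega
    · rw [← insert_union_distrib]; exact hu
  simp only [← Finset.mul_sum] at h1
  have h2 := sum_pow_union_le ((univ : Finset (Fin n)).erase v) m m (by omega) (by omega)
    p (qq p h) hp hp1 hqp
  rw [hcard] at h2
  have hC1 : (0 : ℝ) < ((n - 1).choose m : ℝ) := by exact_mod_cast Nat.choose_pos hmn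
  calc _ ≤ (1 / (((n - 1).choose m : ℝ) * p ^ m)) * (1 / (((n - 1).choose m : ℝ) * p ^ m)) *
        ((1 / 2) ^ h * ((qq p h) ^ (m + m) * (((n - 1).choose m : ℝ) * ((n - 1).choose m) *
          Real.exp ((1 - p) / p * m * m / (n - 1 : ℕ))))) := by
        refine mul_le_mul_of_nonneg_left (h1.trans ?_) (by positivity)
        exact mul_le_mul_of_nonneg_left h2 (by positivity)
    _ = _ := by
        rw [div_pow (qq p h) p (m + m), pow_add p m m]
        field_simp

/-- First moment, root in `S`. -/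
lemma EP_in_one_ge (hp : 0 < p) (hp1 : p ≤ 1) (v : Fin n) (m : ℕ) (hmn : m ≤ n - 1) :
    p ≤ EP n p (fun S Y => (if v ∈ S then 1 else 0) * evalAt (rootPoly n m p v) Y) := by
  have e1 : (fun (S : Finset (Fin n)) (Y : Pair n → Bool) =>
      (if v ∈ S then (1 : ℝ) else 0) * evalAt (rootPoly n m p v) Y)
      = fun S Y => (1 / (((n - 1).choose m : ℝ) * p ^ m)) *
        (∑ A ∈ powersetCard m ((univ : Finset (Fin n)).erase v),
            (if v ∈ S then (1 : ℝ) else 0) * evalAt (mono (cl (insert v A))) Y) := by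
    funext S Y
    rw [evalAt_rootPoly, ← Finset.mul_sum]; ring
  rw [e1, EP_smul, EP_sum]
  have h1 : ∑ A ∈ powersetCard m ((univ : Finset (Fin n)).erase v), p * p ^ m
      ≤ ∑ A ∈ powersetCard m ((univ : Finset (Fin n)).erase v),
        EP n p (fun S Y => (if v ∈ S then (1 : ℝ) else 0) * evalAt (mono (cl (insert v A))) Y) := by
    refine Finset.sum_le_sum fun A hA => ?_
    have hA' := mem_powersetCard.mp hA
    have hvA : v ∉ A := fun h => by have := hA'.1 h; simp at this
    have := EP_in_ge hp.le hp1 (cl (insert v A)) v A hvA (fun e he => mem_cl.mp he)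
    rwa [hA'.2] at this
  rw [Finset.sum_const, card_powersetCard, card_erase_univ, nsmul_eq_mul] at h1
  have hC1 : (0 : ℝ) < ((n - 1).choose m : ℝ) := by exact_mod_cast Nat.choose_pos hmn
  calc p = (1 / (((n - 1).choose m : ℝ) * p ^ m)) * (((n - 1).choose m : ℝ) * (p * p ^ m)) := by
        field_simp
    _ ≤ _ := mul_le_mul_of_nonneg_left h1 (by positivity)

lemma EP_in_one_le (hp : 0 < p) (hp1 : p ≤ 1) (v : Fin n) (m h : ℕ) (hm : 2 * h ≤ m)
    (hmn : m ≤ n - 1) :
    EP n p (fun S Y => (if v ∈ S then 1 else 0) * evalAt (rootPoly n m p v) Y)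
      ≤ p * (qq p h / p) ^ m := by
  have e1 : (fun (S : Finset (Fin n)) (Y : Pair n → Bool) =>
      (if v ∈ S then (1 : ℝ) else 0) * evalAt (rootPoly n m p v) Y)
      = fun S Y => (1 / (((n - 1).choose m : ℝ) * p ^ m)) *
        (∑ A ∈ powersetCard m ((univ : Finset (Fin n)).erase v),
            (if v ∈ S then (1 : ℝ) else 0) * evalAt (mono (cl (insert v A))) Y) := by
    funext S Y
    rw [evalAt_rootPoly, ← Finset.mul_sum]; ring
  rw [e1, EP_smul, EP_sum]
  have h1 : ∑ A ∈ powersetCard m ((univ : Finset (Fin n)).erase v),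
        EP n p (fun S Y => (if v ∈ S then (1 : ℝ) else 0) * evalAt (mono (cl (insert v A))) Y)
      ≤ ∑ A ∈ powersetCard m ((univ : Finset (Fin n)).erase v), p * qq p h ^ m := by
    refine Finset.sum_le_sum fun A hA => ?_
    have hA' := mem_powersetCard.mp hA
    have hvA : v ∉ A := fun h => by have := hA'.1 h; simp at this
    have := EP_in_le hp.le hp1 (cl (insert v A)) v A hvA h (fun u hu => by
      have h2 := deg_cl (insert v A) u hu
      rw [card_insert_of_notMem hvA, hA'.2] at h2
      omega)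
    rwa [hA'.2] at this
  rw [Finset.sum_const, card_powersetCard, card_erase_univ, nsmul_eq_mul] at h1
  have hC1 : (0 : ℝ) < ((n - 1).choose m : ℝ) := by exact_mod_cast Nat.choose_pos hmn
  calc _ ≤ (1 / (((n - 1).choose m : ℝ) * p ^ m)) *
        (((n - 1).choose m : ℝ) * (p * qq p h ^ m)) :=
        mul_le_mul_of_nonneg_left h1 (by positivity)
    _ = _ := by rw [div_pow]; field_simp

end Moments

end Pool.Agent.Work.MP_d47e79_lc
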