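import Pool.Agent.Work.MP_d47e79_lc.Final3

namespace Pool.Agent.Work.MP_d47e79_lc

open Filter Asymptotics Finset

/-- The conclusion of the unified theorem, as a predicate of the constant. -/
def Unified (C : ℝ) : Prop :=
  ∀ (k : ℕ → ℝ) (D : ℕ → ℕ), (∀ n, 0 ≤ k n) →
    (fun n : ℕ => Real.log n ^ 4) =o[atTop] k →
    k =o[atTop] (fun n : ℕ => (n : ℝ) / Real.log n ^ 4) →
    (∀ᶠ n : ℕ in atTop, C * Real.log n * (1 + max 0 (Real.log (Real.sqrt n / k n))) ≤ D n) →
    Succeeds k D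

lemma unified : Unified 1632 := fun _ _ hk0 h1 h2 hD => succeeds_all hk0 h1 h2 hD

lemma log_pow_isLittleO {a : ℝ} (ha : 0 < a) :
    (fun n : ℕ => Real.log n ^ 4) =o[atTop] (fun n : ℕ => (n : ℝ) ^ a) := by
  have h := (isLittleO_log_rpow_rpow_atTop (4 : ℝ) ha).comp_tendsto
    (tendsto_natCast_atTop_atTop (R := ℝ))
  refine h.congr_left fun n => ?_
  simp only [Function.comp]
  have : (4 : ℝ) = ((4 : ℕ) : ℝ) := by norm_num
  rw [this, Real.rpow_natCast]

lemma rpow_isLittleO {a : ℝ} (ha : a < 1) :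
    (fun n : ℕ => (n : ℝ) ^ a) =o[atTop] (fun n : ℕ => (n : ℝ) / Real.log n ^ 4) := by
  have h := log_pow_isLittleO (a := 1 - a) (by linarith)
  rw [isLittleO_iff] at h ⊢
  intro c hc
  filter_upwards [h hc, eventually_ge_atTop 3] with n hn hn3
  have hn0 : (0 : ℝ) < n := by exact_mod_cast (by omega : 0 < n)
  have hlog : 1 ≤ Real.log n := by
    have h3 : (3 : ℝ) ≤ n := by exact_mod_cast (by omega : 3 ≤ n)
    rw [Real.le_log_iff_exp_le hn0]
    exact (Real.exp_one_lt_d9.le.trans (by norm_num)).trans h3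
  have hl4 : 0 < Real.log n ^ 4 := by positivity
  rw [Real.norm_of_nonneg hl4.le, Real.norm_of_nonneg (by positivity)] at hn
  rw [Real.norm_of_nonneg (by positivity), Real.norm_of_nonneg (by positivity),
    ← mul_div_assoc, le_div_iff₀ hl4]
  calc (n : ℝ) ^ a * Real.log n ^ 4 ≤ (n : ℝ) ^ a * (c * (n : ℝ) ^ (1 - a)) := by gcongr
    _ = c * ((n : ℝ) ^ a * (n : ℝ) ^ (1 - a)) := by ring
    _ = c * n := by
        rw [← Real.rpow_add hn0]
        norm_num

/-- The posed question Q1 follows (with a constant that depends neither on `a` nor on `k`). -/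
lemma q1_of_unified {C : ℝ} (hC : 0 < C) (h : Unified C) {a : ℝ} (ha : 0 < a) (ha2 : a < 1 / 2)
    {k : ℕ → ℝ} (hk0 : ∀ n, 0 ≤ k n) (hk : k =Θ[atTop] (fun n : ℕ => (n : ℝ) ^ a)) :
    Succeeds k (fun n => ⌈2 * C * Real.log n ^ 2⌉₊) := by
  have h1 : (fun n : ℕ => Real.log n ^ 4) =o[atTop] k := (log_pow_isLittleO ha).trans_isBigO hk.2
  have h2 : k =o[atTop] (fun n : ℕ => (n : ℝ) / Real.log n ^ 4) :=
    hk.1.trans_isLittleO (rpow_isLittleO (by linarith))
  refine h k _ hk0 h1 h2 ?_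
  filter_upwards [h1.bound one_pos, eventually_ge_atTop 8] with n hn hn3
  have hn0 : (0 : ℝ) < n := by exact_mod_cast (by omega : 0 < n)
  have hlog : 1 ≤ Real.log n := by
    have h3 : (3 : ℝ) ≤ n := by exact_mod_cast (by omega : 3 ≤ n)
    rw [Real.le_log_iff_exp_le hn0]
    exact (Real.exp_one_lt_d9.le.trans (by norm_num)).trans h3
  have hl4 : 1 ≤ Real.log n ^ 4 := one_le_pow₀ hlog
  rw [Real.norm_of_nonneg (by positivity), Real.norm_of_nonneg (hk0 n), one_mul] at hn
  have hk1 : 1 ≤ k n := by linarith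
  have hs0 := Real.sqrt_pos.mpr hn0
  have h4 : max 0 (Real.log (Real.sqrt n / k n)) ≤ Real.log n / 2 := by
    refine max_le (by linarith) ?_
    have h5 : Real.log (Real.sqrt n / k n) ≤ Real.log (Real.sqrt n) := by
      refine Real.log_le_log (by positivity) ?_
      rw [div_le_iff₀ (by linarith)]
      nlinarith
    rw [Real.log_sqrt hn0.le] at h5
    exact h5
  refine le_trans ?_ (Nat.le_ceil _)
  calc C * Real.log n * (1 + max 0 (Real.log (Real.sqrt n / k n)))
      ≤ C * Real.log n * (2 * Real.log n) := by gcongr; linarith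
    _ = 2 * C * Real.log n ^ 2 := by ring

/-- The posed question Q2 follows. -/
lemma q2_of_unified {C : ℝ} (hC : 0 < C) (h : Unified C) {ε : ℝ} (hε : 0 < ε) :
    Succeeds (fun n : ℕ => ε * Real.sqrt n)
      (fun n => ⌈C * (1 + max 0 (Real.log (1 / ε))) * Real.log n⌉₊) := by
  have hk : (fun n : ℕ => ε * Real.sqrt n) =Θ[atTop] (fun n : ℕ => (n : ℝ) ^ (1 / 2 : ℝ)) := by
    simp_rw [← Real.sqrt_eq_rpow]
    exact (isTheta_refl _ _).const_mul_left hε.ne'
  have h1 : (fun n : ℕ => Real.log n ^ 4) =o[atTop] (fun n : ℕ => ε * Real.sqrt n) :=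
    (log_pow_isLittleO (by norm_num)).trans_isBigO hk.2
  have h2 : (fun n : ℕ => ε * Real.sqrt n) =o[atTop] (fun n : ℕ => (n : ℝ) / Real.log n ^ 4) :=
    hk.1.trans_isLittleO (rpow_isLittleO (by norm_num))
  refine h _ _ (fun n => by positivity) h1 h2 ?_
  filter_upwards [eventually_ge_atTop 1] with n hn
  have hn0 : (0 : ℝ) < n := by exact_mod_cast hn
  have hs0 := Real.sqrt_pos.mpr hn0
  refine le_trans (le_of_eq ?_) (Nat.le_ceil _)
  have : Real.sqrt n / (ε * Real.sqrt n) = 1 / ε := by field_simp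
  rw [this]; ring

end Pool.Agent.Work.MP_d47e79_lc
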