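import Pool.Agent.Work.MP_d47e79_lc.Basic

namespace Pool.Agent.Work.MP_d47e79_lc

open Finset

/-! ### Sums over pairs of subsets -/

section PairSums

variable {α : Type*} [DecidableEq α]

lemma choose_mul_pow_le {N m : ℕ} (hm : m ≤ N) (j : ℕ) (hj : j ≤ m) :
    (N - j).choose (m - j) * N ^ j ≤ N.choose m * m ^ j := by
  induction j with
  | zero => simp
  | succ j ih =>
    have hj' : j < m := hj
    have ih' := ih hj'.le
    -- (N-j) * C(N-j-1, m-j-1) = (m-j) * C(N-j, m-j)
    obtain ⟨a, ha⟩ : ∃ a, N - j = a + 1 := ⟨N - j - 1, by omega⟩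
    obtain ⟨b, hb⟩ : ∃ b, m - j = b + 1 := ⟨m - j - 1, by omega⟩
    have e1 : N - (j + 1) = a := by omega
    have e2 : m - (j + 1) = b := by omega
    rw [e1, e2]
    rw [ha, hb] at ih'
    have key : (a + 1) * a.choose b = (a + 1).choose (b + 1) * (b + 1) :=
      Nat.add_one_mul_choose_eq a b
    have h3 : N * (b + 1) ≤ m * (a + 1) := by
      have e3 : b + 1 = m - j := hb.symm
      have e4 : a + 1 = N - j := ha.symm
      rw [e3, e4, Nat.mul_sub, Nat.mul_sub, mul_comm N m]
      have : m * j ≤ N * j := Nat.mul_le_mul_right j hm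
      omega
    have h4 : (a + 1) * (a.choose b * N ^ (j + 1)) ≤ (a + 1) * (N.choose m * m ^ (j + 1)) := by
      calc (a + 1) * (a.choose b * N ^ (j + 1))
          = ((a + 1) * a.choose b) * (N ^ j * N) := by ring
        _ = ((a + 1).choose (b + 1) * (b + 1)) * (N ^ j * N) := by rw [key]
        _ = ((a + 1).choose (b + 1) * N ^ j) * (N * (b + 1)) := by ring
        _ ≤ (N.choose m * m ^ j) * (m * (a + 1)) := Nat.mul_le_mul ih' h3
        _ = (a + 1) * (N.choose m * m ^ (j + 1)) := by ring
    exact Nat.le_of_mul_le_mul_left h4 (Nat.succ_pos a)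

lemma card_supersets_le (N : Finset α) (m : ℕ) (J : Finset α) (hm : m ≤ N.card) (hJN : J ⊆ N) :
    (((powersetCard m N).filter (fun A => J ⊆ A)).card : ℝ)
      ≤ (N.card.choose m : ℝ) * ((m : ℝ) / N.card) ^ J.card := by
  by_cases hj : J.card ≤ m
  · have h1 : ((powersetCard m N).filter (fun A => J ⊆ A)).card
        ≤ (N.card - J.card).choose (m - J.card) := by
      have : (N.card - J.card).choose (m - J.card)
          = (powersetCard (m - J.card) (N \ J)).card := by
        rw [card_powersetCard, card_sdiff_of_subset hJN]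
      rw [this]
      refine Finset.card_le_card_of_injOn (fun A => A \ J) ?_ ?_
      · intro A hA
        simp only [coe_filter, mem_powersetCard, Set.mem_ofPred_eq] at hA
        simp only [mem_powersetCard, mem_coe]
        refine ⟨sdiff_subset_sdiff hA.1.1 le_rfl, ?_⟩
        rw [card_sdiff_of_subset hA.2, hA.1.2]
      · intro A hA B hB hAB
        simp only [coe_filter, mem_powersetCard, Set.mem_ofPred_eq] at hA hB
        have hAB' : A \ J = B \ J := hAB
        rw [← sdiff_union_of_subset hA.2, ← sdiff_union_of_subset hB.2, hAB']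
    have h2 := choose_mul_pow_le hm J.card hj
    rcases Nat.eq_zero_or_pos N.card with h0 | h0
    · have hm0 : m = 0 := by omega
      have hj0 : J.card = 0 := by omega
      rw [hj0, hm0] at h1 ⊢
      simp only [pow_zero, mul_one, Nat.choose_zero_right, Nat.cast_one]
      simpa using h1
    · have h0' : (0 : ℝ) < N.card := by exact_mod_cast h0
      rw [div_pow, ← mul_div_assoc, le_div_iff₀ (by positivity)]
      calc (((powersetCard m N).filter (fun A => J ⊆ A)).card : ℝ) * (N.card : ℝ) ^ J.card
          ≤ ((N.card - J.card).choose (m - J.card) : ℝ) * (N.card : ℝ) ^ J.card := by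
            gcongr
        _ ≤ (N.card.choose m : ℝ) * (m : ℝ) ^ J.card := by exact_mod_cast h2
  · have : (powersetCard m N).filter (fun A => J ⊆ A) = ∅ := by
      ext A
      simp only [mem_filter, mem_powersetCard, notMem_empty, iff_false, not_and]
      intro hA hJ
      have := card_le_card hJ
      omega
    rw [this]
    simp only [card_empty, Nat.cast_zero]
    positivity

lemma card_filter_mem_ge (N : Finset α) (m : ℕ) (u : α) (hu : u ∈ N) :
    ((N.card.choose m : ℝ)) * ((m : ℝ) / N.card)
      ≤ ((powersetCard m N).filter (fun A => u ∈ A)).card := by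
  rcases Nat.eq_zero_or_pos m with h0 | h0
  · subst h0; simp
  · obtain ⟨b, rfl⟩ : ∃ b, m = b + 1 := ⟨m - 1, by omega⟩
    have hN : 0 < N.card := card_pos.mpr ⟨u, hu⟩
    obtain ⟨a, ha⟩ : ∃ a, N.card = a + 1 := ⟨N.card - 1, by omega⟩
    have h1 : a.choose b ≤ ((powersetCard (b + 1) N).filter (fun A => u ∈ A)).card := by
      have : a.choose b = (powersetCard b (N.erase u)).card := by
        rw [card_powersetCard, card_erase_of_mem hu, ha]; simp
      rw [this]
      refine Finset.card_le_card_of_injOn (fun A => insert u A) ?_ ?_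
      · intro A hA
        simp only [mem_powersetCard, mem_coe] at hA
        simp only [coe_filter, mem_powersetCard, Set.mem_ofPred_eq]
        have huA : u ∉ A := fun h => by
          have := hA.1 h; simp at this
        refine ⟨⟨?_, ?_⟩, mem_insert_self _ _⟩
        · intro x hx
          rcases mem_insert.mp hx with rfl | hx
          · exact hu
          · exact (mem_erase.mp (hA.1 hx)).2
        · rw [card_insert_of_notMem huA, hA.2]
      · intro A hA B hB hAB
        simp only [mem_powersetCard, mem_coe] at hA hB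
        have huA : u ∉ A := fun h => by
          have := hA.1 h; simp at this
        have huB : u ∉ B := fun h => by
          have := hB.1 h; simp at this
        have hAB' : insert u A = insert u B := hAB
        rw [← erase_insert huA, ← erase_insert huB, hAB']
    have key : (a + 1) * a.choose b = (a + 1).choose (b + 1) * (b + 1) :=
      Nat.add_one_mul_choose_eq a b
    rw [ha]
    have h2 : ((a + 1 : ℕ) : ℝ) ≠ 0 := by positivity
    have key' : ((a + 1 : ℕ) : ℝ) * (a.choose b : ℝ)
        = ((a + 1).choose (b + 1) : ℝ) * ((b + 1 : ℕ) : ℝ) := by exact_mod_cast key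
    calc (((a + 1).choose (b + 1) : ℕ) : ℝ) * (((b + 1 : ℕ) : ℝ) / ((a + 1 : ℕ) : ℝ))
        = (((a + 1).choose (b + 1) : ℝ) * ((b + 1 : ℕ) : ℝ)) / ((a + 1 : ℕ) : ℝ) := by ring
      _ = (a.choose b : ℝ) := by rw [← key']; field_simp
      _ ≤ _ := by exact_mod_cast h1

/-- Upper bound for the exponential moment of the overlap of two independent uniform subsets. -/
lemma sum_pow_inter_le (N : Finset α) (m l : ℕ) (hm : m ≤ N.card) (hl : l ≤ N.card)
    (θ : ℝ) (hθ : 0 ≤ θ) :
    ∑ A ∈ powersetCard m N, ∑ B ∈ powersetCard l N, (1 + θ) ^ (A ∩ B).card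
      ≤ (N.card.choose m : ℝ) * (N.card.choose l) * Real.exp (θ * m * l / N.card) := by
  have h1 : ∀ A ∈ powersetCard m N, ∀ B ∈ powersetCard l N,
      (1 + θ) ^ (A ∩ B).card
        = ∑ J ∈ N.powerset, θ ^ J.card * ((if J ⊆ A then 1 else 0) * (if J ⊆ B then 1 else 0)) := by
    intro A hA B hB
    have e1 : (1 + θ) ^ (A ∩ B).card = ∑ J ∈ (A ∩ B).powerset, θ ^ J.card := by
      have := Finset.sum_pow_mul_eq_add_pow θ 1 (A ∩ B)
      simp only [one_pow, mul_one] at this
      rw [this, add_comm]
    rw [e1]
    have hAN : A ∩ B ⊆ N := inter_subset_left.trans (mem_powersetCard.mp hA).1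
    rw [← Finset.sum_subset (powerset_mono.mpr hAN)]
    · refine Finset.sum_congr rfl fun J hJ => ?_
      have hJ' := mem_powerset.mp hJ
      rw [if_pos (hJ'.trans inter_subset_left), if_pos (hJ'.trans inter_subset_right)]
      ring
    · intro J _ hJ
      rw [mem_powerset, subset_inter_iff, not_and_or] at hJ
      rcases hJ with hJ | hJ
      · rw [if_neg hJ]; ring
      · rw [if_neg hJ]; ring
  have h2 : ∑ A ∈ powersetCard m N, ∑ B ∈ powersetCard l N, (1 + θ) ^ (A ∩ B).card
      = ∑ J ∈ N.powerset, θ ^ J.card *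
          ((((powersetCard m N).filter (fun A => J ⊆ A)).card : ℝ) *
            (((powersetCard l N).filter (fun A => J ⊆ A)).card : ℝ)) := by
    calc _ = ∑ A ∈ powersetCard m N, ∑ B ∈ powersetCard l N, ∑ J ∈ N.powerset, θ ^ J.card *
              ((if J ⊆ A then 1 else 0) * (if J ⊆ B then 1 else 0)) :=
            Finset.sum_congr rfl fun A hA => Finset.sum_congr rfl fun B hB => h1 A hA B hB
      _ = ∑ A ∈ powersetCard m N, ∑ J ∈ N.powerset, ∑ B ∈ powersetCard l N, θ ^ J.card *
              ((if J ⊆ A then 1 else 0) * (if J ⊆ B then 1 else 0)) :=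
            Finset.sum_congr rfl fun A _ => Finset.sum_comm
      _ = ∑ J ∈ N.powerset, ∑ A ∈ powersetCard m N, ∑ B ∈ powersetCard l N, θ ^ J.card *
              ((if J ⊆ A then 1 else 0) * (if J ⊆ B then 1 else 0)) := Finset.sum_comm
      _ = _ := by
            refine Finset.sum_congr rfl fun J _ => ?_
            have e1 : (((powersetCard m N).filter (fun A => J ⊆ A)).card : ℝ)
                = ∑ A ∈ powersetCard m N, if J ⊆ A then (1 : ℝ) else 0 := by
              rw [Finset.sum_boole]
            have e2 : (((powersetCard l N).filter (fun A => J ⊆ A)).card : ℝ)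
                = ∑ A ∈ powersetCard l N, if J ⊆ A then (1 : ℝ) else 0 := by
              rw [Finset.sum_boole]
            rw [e1, e2, Finset.sum_mul_sum, Finset.mul_sum]
            refine Finset.sum_congr rfl fun A _ => ?_
            rw [Finset.mul_sum]
  rw [h2]
  set x : ℝ := θ * ((m : ℝ) / N.card) * ((l : ℝ) / N.card) with hx
  have hx0 : 0 ≤ x := by positivity
  have h3 : ∀ J ∈ N.powerset, θ ^ J.card *
          ((((powersetCard m N).filter (fun A => J ⊆ A)).card : ℝ) *
            (((powersetCard l N).filter (fun A => J ⊆ A)).card : ℝ))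
        ≤ (N.card.choose m : ℝ) * (N.card.choose l) * x ^ J.card := by
    intro J hJ
    have hJN := mem_powerset.mp hJ
    have a1 := card_supersets_le N m J hm hJN
    have a2 := card_supersets_le N l J hl hJN
    calc _ ≤ θ ^ J.card * (((N.card.choose m : ℝ) * ((m : ℝ) / N.card) ^ J.card) *
              ((N.card.choose l : ℝ) * ((l : ℝ) / N.card) ^ J.card)) := by
            gcongr
      _ = _ := by rw [hx, mul_pow, mul_pow]; ring
  calc _ ≤ ∑ J ∈ N.powerset, (N.card.choose m : ℝ) * (N.card.choose l) * x ^ J.card :=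
        Finset.sum_le_sum h3
    _ = (N.card.choose m : ℝ) * (N.card.choose l) * (1 + x) ^ N.card := by
        rw [← Finset.mul_sum]
        congr 1
        have := Finset.sum_pow_mul_eq_add_pow x 1 N
        simp only [one_pow, mul_one] at this
        rw [this, add_comm]
    _ ≤ (N.card.choose m : ℝ) * (N.card.choose l) * Real.exp (θ * m * l / N.card) := by
        gcongr
        have e1 : (1 + x) ^ N.card ≤ Real.exp x ^ N.card := by
          gcongr
          rw [add_comm]; exact Real.add_one_le_exp x
        refine e1.trans ?_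
        rw [← Real.exp_nat_mul]
        apply Real.exp_le_exp.mpr
        rcases Nat.eq_zero_or_pos N.card with h0 | h0
        · rw [h0]; simp
        · have h0' : (0 : ℝ) < N.card := by exact_mod_cast h0
          rw [hx]
          apply le_of_eq
          field_simp

/-- Lower bound for the exponential moment of the overlap of two independent uniform subsets. -/
lemma sum_pow_inter_ge (N : Finset α) (m l : ℕ) (θ : ℝ) (hθ : 0 ≤ θ) :
    (N.card.choose m : ℝ) * (N.card.choose l) * (1 + θ * m * l / N.card)
      ≤ ∑ A ∈ powersetCard m N, ∑ B ∈ powersetCard l N, (1 + θ) ^ (A ∩ B).card := by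
  have h1 : ∑ A ∈ powersetCard m N, ∑ B ∈ powersetCard l N, (1 + θ * ((A ∩ B).card : ℝ))
      ≤ ∑ A ∈ powersetCard m N, ∑ B ∈ powersetCard l N, (1 + θ) ^ (A ∩ B).card := by
    refine Finset.sum_le_sum fun A _ => Finset.sum_le_sum fun B _ => ?_
    have := one_add_mul_le_pow (by linarith : (-2 : ℝ) ≤ θ) (A ∩ B).card
    linarith
  refine le_trans ?_ h1
  have h2 : ∑ A ∈ powersetCard m N, ∑ B ∈ powersetCard l N, ((A ∩ B).card : ℝ)
      = ∑ u ∈ N, (((powersetCard m N).filter (fun A => u ∈ A)).card : ℝ) *
            (((powersetCard l N).filter (fun A => u ∈ A)).card : ℝ) := by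
    have e0 : ∀ A ∈ powersetCard m N, ∀ B ∈ powersetCard l N, ((A ∩ B).card : ℝ)
        = ∑ u ∈ N, (if u ∈ A then (1 : ℝ) else 0) * (if u ∈ B then 1 else 0) := by
      intro A hA B hB
      have hAN : A ∩ B ⊆ N := inter_subset_left.trans (mem_powersetCard.mp hA).1
      rw [← Finset.sum_subset hAN]
      · rw [Finset.card_eq_sum_ones, Nat.cast_sum]
        refine Finset.sum_congr rfl fun u hu => ?_
        rw [if_pos (mem_inter.mp hu).1, if_pos (mem_inter.mp hu).2]; simp
      · intro u _ hu
        rw [mem_inter, not_and_or] at hu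
        rcases hu with hu | hu
        · rw [if_neg hu]; ring
        · rw [if_neg hu]; ring
    calc _ = ∑ A ∈ powersetCard m N, ∑ B ∈ powersetCard l N,
              ∑ u ∈ N, (if u ∈ A then (1 : ℝ) else 0) * (if u ∈ B then 1 else 0) :=
            Finset.sum_congr rfl fun A hA => Finset.sum_congr rfl fun B hB => e0 A hA B hB
      _ = ∑ A ∈ powersetCard m N, ∑ u ∈ N, ∑ B ∈ powersetCard l N,
              (if u ∈ A then (1 : ℝ) else 0) * (if u ∈ B then 1 else 0) :=
            Finset.sum_congr rfl fun A _ => Finset.sum_comm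
      _ = ∑ u ∈ N, ∑ A ∈ powersetCard m N, ∑ B ∈ powersetCard l N,
              (if u ∈ A then (1 : ℝ) else 0) * (if u ∈ B then 1 else 0) := Finset.sum_comm
      _ = _ := by
            refine Finset.sum_congr rfl fun u _ => ?_
            rw [← Finset.sum_mul_sum, Finset.sum_boole, Finset.sum_boole]
  have h3 : ∑ A ∈ powersetCard m N, ∑ B ∈ powersetCard l N, (1 + θ * ((A ∩ B).card : ℝ))
      = (N.card.choose m : ℝ) * (N.card.choose l)
        + θ * ∑ A ∈ powersetCard m N, ∑ B ∈ powersetCard l N, ((A ∩ B).card : ℝ) := by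
    simp only [Finset.sum_add_distrib, Finset.sum_const, card_powersetCard, nsmul_eq_mul,
      mul_one, Finset.mul_sum]
  rw [h3, h2]
  have h4 : ∑ u ∈ N, ((N.card.choose m : ℝ) * ((m : ℝ) / N.card)) *
        ((N.card.choose l : ℝ) * ((l : ℝ) / N.card))
      ≤ ∑ u ∈ N, (((powersetCard m N).filter (fun A => u ∈ A)).card : ℝ) *
            (((powersetCard l N).filter (fun A => u ∈ A)).card : ℝ) := by
    refine Finset.sum_le_sum fun u hu => ?_
    have a1 := card_filter_mem_ge N m u hu
    have a2 := card_filter_mem_ge N l u hu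
    gcongr
  have h5 : ∑ u ∈ N, ((N.card.choose m : ℝ) * ((m : ℝ) / N.card)) *
        ((N.card.choose l : ℝ) * ((l : ℝ) / N.card))
      = (N.card.choose m : ℝ) * (N.card.choose l) * (m * l / N.card) := by
    rw [Finset.sum_const, nsmul_eq_mul]
    rcases Nat.eq_zero_or_pos N.card with h0 | h0
    · rw [h0]; simp
    · have h0' : (0 : ℝ) < N.card := by exact_mod_cast h0
      field_simp
  have h6 := mul_le_mul_of_nonneg_left (h5 ▸ h4) hθ
  calc (N.card.choose m : ℝ) * (N.card.choose l) * (1 + θ * m * l / N.card)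
      = (N.card.choose m : ℝ) * (N.card.choose l)
        + θ * ((N.card.choose m : ℝ) * (N.card.choose l) * (m * l / N.card)) := by ring
    _ ≤ _ := by linarith

/-- `q ^ |A ∪ B|` in terms of the intersection. -/
lemma pow_card_union (A B : Finset α) (q : ℝ) (hq : q ≠ 0) :
    q ^ (A ∪ B).card = q ^ (A.card + B.card) * (1 / q) ^ (A ∩ B).card := by
  have h := card_union_add_card_inter A B
  rw [← h, pow_add, mul_assoc, ← mul_pow]
  rw [mul_one_div_cancel hq]; simp

end PairSums

end Pool.Agent.Work.MP_d47e79_lc
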