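import Pool.Agent.Work.MP_d47e79_lc.SeqSum

namespace Pool.Agent.Work.MP_d47e79_lc

open Finset

section CyclePoly

variable {n : ℕ}

/-- Normalised signed count of closed sequences of length `m+1` in `V2` all of whose vertices are
adjacent to the `c`-subset `T` of `V1` and to the root set `R`. -/
noncomputable def cyclePoly (n c m : ℕ) (p : ℝ) (R V1 V2 : Finset (Fin n)) :
    MvPolynomial (Pair n) ℝ :=
  MvPolynomial.C (1 / ((V1.card.choose c : ℝ) * p ^ c * ((injTo n m V2).card * p ^ (m + 1)))) *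
    ∑ T ∈ powersetCard c V1, ∑ w ∈ injTo n m V2, term (cross (univ.image w) (R ∪ T)) (cyc w)

lemma totalDegree_cyclePoly (c m : ℕ) (p : ℝ) (R V1 V2 : Finset (Fin n)) :
    (cyclePoly n c m p R V1 V2).totalDegree ≤ (m + 1) * (R.card + c + 1) := by
  unfold cyclePoly
  refine (totalDegree_C_mul_le _ _).trans ?_
  refine (MvPolynomial.totalDegree_finsetSum _ _).trans ?_
  refine Finset.sup_le fun T hT => ?_
  refine (MvPolynomial.totalDegree_finsetSum _ _).trans ?_
  refine Finset.sup_le fun w hw => ?_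
  refine (totalDegree_term_le _ _).trans ?_
  have h1 := card_cross_le (univ.image w) (R ∪ T)
  have h2 := card_cyc_le w
  rw [card_image_inj (mem_injTo.mp hw).1] at h1
  have h3 : (R ∪ T).card ≤ R.card + c := by
    refine (card_union_le _ _).trans ?_
    rw [(mem_powersetCard.mp hT).2]
  calc _ ≤ (m + 1) * (R ∪ T).card + (m + 1) := add_le_add h1 h2
    _ ≤ (m + 1) * (R.card + c) + (m + 1) := by gcongr
    _ = _ := by ring

/-- The normalising constant. -/
noncomputable def nrm (c m : ℕ) (p : ℝ) (V1 V2 : Finset (Fin n)) : ℝ :=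
  1 / ((V1.card.choose c : ℝ) * p ^ c * ((injTo n m V2).card * p ^ (m + 1)))

lemma evalAt_cyclePoly (c m : ℕ) (p : ℝ) (R V1 V2 : Finset (Fin n)) (Y : Pair n → Bool) :
    evalAt (cyclePoly n c m p R V1 V2) Y = nrm c m p V1 V2 *
      ∑ T ∈ powersetCard c V1, ∑ w ∈ injTo n m V2,
        evalAt (term (cross (univ.image w) (R ∪ T)) (cyc w)) Y := by
  unfold cyclePoly nrm
  rw [evalAt_C_mul, evalAt_sum]
  congr 1
  refine Finset.sum_congr rfl fun T _ => ?_
  rw [evalAt_sum]

lemma nrm_nonneg (c m : ℕ) {p : ℝ} (hp : 0 ≤ p) (V1 V2 : Finset (Fin n)) :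
    0 ≤ nrm c m p V1 V2 := by unfold nrm; positivity

/-- Expansion of the weighted cross moment. -/
lemma EP_cycle_mul (c c' m m' : ℕ) (p : ℝ) (R V1 V2 : Finset (Fin n))
    (om : Finset (Fin n) → ℝ) :
    EP n p (fun S Y => om S * (evalAt (cyclePoly n c m p R V1 V2) Y *
        evalAt (cyclePoly n c' m' p R V1 V2) Y))
      = nrm c m p V1 V2 * nrm c' m' p V1 V2 *
        ∑ T ∈ powersetCard c V1, ∑ T' ∈ powersetCard c' V1,
          ∑ w ∈ injTo n m V2, ∑ w' ∈ injTo n m' V2,
          EP n p (fun S Y => om S *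
            (evalAt (term (cross (univ.image w) (R ∪ T)) (cyc w)) Y *
             evalAt (term (cross (univ.image w') (R ∪ T')) (cyc w')) Y)) := by
  have e1 : (fun (S : Finset (Fin n)) (Y : Pair n → Bool) =>
      om S * (evalAt (cyclePoly n c m p R V1 V2) Y * evalAt (cyclePoly n c' m' p R V1 V2) Y))
      = fun S Y => (nrm c m p V1 V2 * nrm c' m' p V1 V2) *
        (∑ T ∈ powersetCard c V1, ∑ T' ∈ powersetCard c' V1,
          ∑ w ∈ injTo n m V2, ∑ w' ∈ injTo n m' V2, om S *
            (evalAt (term (cross (univ.image w) (R ∪ T)) (cyc w)) Y *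
             evalAt (term (cross (univ.image w') (R ∪ T')) (cyc w')) Y)) := by
    funext S Y
    rw [evalAt_cyclePoly, evalAt_cyclePoly]
    have : (∑ T ∈ powersetCard c V1, ∑ T' ∈ powersetCard c' V1,
          ∑ w ∈ injTo n m V2, ∑ w' ∈ injTo n m' V2, om S *
            (evalAt (term (cross (univ.image w) (R ∪ T)) (cyc w)) Y *
             evalAt (term (cross (univ.image w') (R ∪ T')) (cyc w')) Y))
        = om S * ((∑ T ∈ powersetCard c V1, ∑ w ∈ injTo n m V2,
              evalAt (term (cross (univ.image w) (R ∪ T)) (cyc w)) Y) *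
            (∑ T' ∈ powersetCard c' V1, ∑ w' ∈ injTo n m' V2,
              evalAt (term (cross (univ.image w') (R ∪ T')) (cyc w')) Y)) := by
      rw [Finset.sum_mul_sum, Finset.mul_sum]
      refine Finset.sum_congr rfl fun T _ => ?_
      rw [Finset.mul_sum]
      refine Finset.sum_congr rfl fun T' _ => ?_
      rw [Finset.sum_mul_sum, Finset.mul_sum]
      refine Finset.sum_congr rfl fun w _ => ?_
      rw [Finset.mul_sum]
    rw [this]; ring
  rw [e1, EP_smul, EP_sum]
  congr 1
  refine Finset.sum_congr rfl fun T _ => ?_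
  rw [EP_sum]
  refine Finset.sum_congr rfl fun T' _ => ?_
  rw [EP_sum]
  refine Finset.sum_congr rfl fun w _ => ?_
  rw [EP_sum]

/-- The upper bound factor coming from the closed sequences. -/
noncomputable def Mfac (m : ℕ) (N y ρ I : ℝ) : ℝ :=
  N ^ (m + 1) / I * ((1 + (m + 1) * y + 8 * (m + 1) * y ^ 2) ^ (m + 1) *
    (1 + 4 * (m + 1) ^ 2 * y ^ 2) + (m + 1) * ρ ^ (m + 1))

/-- Weighted second moment, upper bound. -/
lemma EP_cycle_sq_le {p : ℝ} (hp : 0 < p) (hp1 : p ≤ 1) (c m c0 l0 : ℕ) (hm : 1 ≤ m)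
    (hc : 2 * c0 ≤ c) (hl0 : 2 * l0 ≤ m + 1)
    (R V1 V2 : Finset (Fin n)) (hRV1 : Disjoint R V1) (hRV2 : Disjoint R V2)
    (hV : Disjoint V1 V2) (hcV : c ≤ V1.card) (hmV : m + 1 ≤ V2.card)
    (a b : Fin n → ℝ) (ha0 : ∀ u, 0 ≤ a u) (hb0 : ∀ u, 0 ≤ b u)
    (ha : ∀ u, u ∉ R → a u = 1) (hb : ∀ u, u ∉ R → b u = 1)
    (y ρ : ℝ) (hy : y = 1 / (p * V2.card))
    (hρ : ρ = 2 * y * ((p + (1 - p) * (1 / 2) ^ c0) / p)) (hρ2 : ρ ≤ 1 / 2) :
    EP n p (fun S Y => (∏ u, if u ∈ S then a u else b u) *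
        (evalAt (cyclePoly n c m p R V1 V2) Y * evalAt (cyclePoly n c m p R V1 V2) Y))
      ≤ rootFac p ((1 / 2) ^ l0) R a b * (qq p l0 / p) ^ (c + c) *
          Real.exp ((1 - p) / p * c * c / V1.card) *
          Mfac m V2.card y ρ (injTo n m V2).card := by
  rw [EP_cycle_mul c c m m p R V1 V2 (fun S => ∏ u, if u ∈ S then a u else b u)]
  set κ : ℝ := (1 / 2) ^ c0 with hκ
  set τ : ℝ := (1 / 2) ^ l0 with hτ
  set rf := rootFac p τ R a b with hrf
  have h1p : 0 ≤ 1 - p := by linarith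
  have hrf0 : 0 ≤ rf := by
    rw [hrf]; unfold rootFac
    refine Finset.prod_nonneg fun u _ => ?_
    have := ha0 u
    have := hb0 u
    positivity
  have hqp := qq_ge hp1 l0
  have hq : 0 < qq p l0 := lt_of_lt_of_le hp hqp
  have hI : 0 < (injTo n m V2).card := by
    rw [card_injTo]
    exact Nat.descFactorial_pos.mpr hmV
  have hI' : (0 : ℝ) < (injTo n m V2).card := by exact_mod_cast hI
  have hV2 : (0 : ℝ) < V2.card := by exact_mod_cast (by omega : 0 < V2.card)
  set B : ℝ := (V2.card : ℝ) ^ (m + 1) *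
        ((1 + ((m : ℝ) + 1) * y + 8 * ((m : ℝ) + 1) * y ^ 2) ^ (m + 1) *
          (1 + 4 * ((m : ℝ) + 1) ^ 2 * y ^ 2) + ((m : ℝ) + 1) * ρ ^ (m + 1)) with hB
  -- inner sum
  have hin : ∀ T ∈ powersetCard c V1, ∀ T' ∈ powersetCard c V1,
      ∑ w ∈ injTo n m V2, ∑ w' ∈ injTo n m V2,
          EP n p (fun S Y => (∏ u, if u ∈ S then a u else b u) *
            (evalAt (term (cross (univ.image w) (R ∪ T)) (cyc w)) Y *
             evalAt (term (cross (univ.image w') (R ∪ T')) (cyc w')) Y))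
        ≤ rf * (qq p l0 ^ (T ∪ T').card) * ((injTo n m V2).card * (p ^ (2 * (m + 1)) * B)) := by
    intro T hT T' hT'
    have hT1 := mem_powersetCard.mp hT
    have hT1' := mem_powersetCard.mp hT'
    have hq0 : 0 ≤ rf * (qq p l0 ^ (T ∪ T').card) := by positivity
    have h1 : ∀ w ∈ injTo n m V2, ∑ w' ∈ injTo n m V2,
          EP n p (fun S Y => (∏ u, if u ∈ S then a u else b u) *
            (evalAt (term (cross (univ.image w) (R ∪ T)) (cyc w)) Y *
             evalAt (term (cross (univ.image w') (R ∪ T')) (cyc w')) Y))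
        ≤ rf * (qq p l0 ^ (T ∪ T').card) * (p ^ (2 * (m + 1)) * B) := by
      intro w hw
      have h2 := sum_seq_le hm V2 p κ hp hp1 (by positivity) V2.card (m + 1) y ρ rfl hV2 rfl hy hρ
        hρ2 w hw
      refine le_trans ?_ (mul_le_mul_of_nonneg_left h2 hq0)
      rw [Finset.mul_sum]
      refine Finset.sum_le_sum fun w' hw' => ?_
      have hw1 := mem_injTo.mp hw
      have hw1' := mem_injTo.mp hw'
      have := EP_pair_le hp.le hp1 hm c0 l0 hl0 R T T' V1 V2 hRV1 hRV2 hV hT1.1 hT1'.1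
        (by rw [hT1.2]; exact hc) (by rw [hT1'.2]; exact hc) w w' hw1.1 hw1'.1 hw1.2 hw1'.2
        a b ha0 hb0 ha hb
      exact this
    refine (Finset.sum_le_sum h1).trans (le_of_eq ?_)
    rw [Finset.sum_const, nsmul_eq_mul]; ring
  have hout : ∑ T ∈ powersetCard c V1, ∑ T' ∈ powersetCard c V1,
        ∑ w ∈ injTo n m V2, ∑ w' ∈ injTo n m V2,
          EP n p (fun S Y => (∏ u, if u ∈ S then a u else b u) *
            (evalAt (term (cross (univ.image w) (R ∪ T)) (cyc w)) Y *
             evalAt (term (cross (univ.image w') (R ∪ T')) (cyc w')) Y))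
      ≤ rf * (qq p l0 ^ (c + c) * ((V1.card.choose c : ℝ) * (V1.card.choose c) *
          Real.exp ((1 - p) / p * c * c / V1.card))) *
          ((injTo n m V2).card * (p ^ (2 * (m + 1)) * B)) := by
    refine (Finset.sum_le_sum fun T hT => Finset.sum_le_sum fun T' hT' => hin T hT T' hT').trans ?_
    have h3 := sum_pow_union_le V1 c c hcV hcV p (qq p l0) hp hp1 hqp
    have hB0 : 0 ≤ B := by
      have hy0 : 0 ≤ y := by rw [hy]; positivity
      have hρ0 : 0 ≤ ρ := by rw [hρ]; positivity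
      rw [hB]; positivity
    have h4 : ∑ T ∈ powersetCard c V1, ∑ T' ∈ powersetCard c V1,
        rf * (qq p l0 ^ (T ∪ T').card) * ((injTo n m V2).card * (p ^ (2 * (m + 1)) * B))
        = rf * (∑ T ∈ powersetCard c V1, ∑ T' ∈ powersetCard c V1, qq p l0 ^ (T ∪ T').card) *
          ((injTo n m V2).card * (p ^ (2 * (m + 1)) * B)) := by
      simp only [Finset.mul_sum, Finset.sum_mul]
    rw [h4]
    gcongr
  have hC1 : (0 : ℝ) < (V1.card.choose c : ℝ) := by exact_mod_cast Nat.choose_pos hcV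
  have hn0 := nrm_nonneg c m hp.le V1 V2
  refine (mul_le_mul_of_nonneg_left hout (mul_nonneg hn0 hn0)).trans (le_of_eq ?_)
  unfold nrm Mfac
  rw [hB, div_pow (qq p l0) p (c + c), pow_add p c c, two_mul, pow_add p (m + 1) (m + 1)]
  field_simp

/-- Sum over injective sequences through their images. -/
lemma sum_injTo_image (m : ℕ) (V : Finset (Fin n)) (f : Finset (Fin n) → ℝ) :
    ∑ w ∈ injTo n m V, f (univ.image w)
      = ((m + 1).factorial : ℝ) * ∑ A ∈ powersetCard (m + 1) V, f A := by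
  have hmaps : ∀ w ∈ injTo n m V, univ.image w ∈ powersetCard (m + 1) V := by
    intro w hw
    have hw1 := mem_injTo.mp hw
    rw [mem_powersetCard]
    refine ⟨?_, card_image_inj hw1.1⟩
    intro x hx; obtain ⟨i, _, rfl⟩ := mem_image.mp hx; exact hw1.2 i
  rw [← Finset.sum_fiberwise_of_maps_to hmaps, Finset.mul_sum]
  refine Finset.sum_congr rfl fun A hA => ?_
  have hA1 := mem_powersetCard.mp hA
  have h1 : ∑ w ∈ (injTo n m V).filter (fun w => univ.image w = A), f (univ.image w)
      = ∑ w ∈ (injTo n m V).filter (fun w => univ.image w = A), f A := by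
    refine Finset.sum_congr rfl fun w hw => ?_
    rw [(mem_filter.mp hw).2]
  rw [h1, Finset.sum_const, nsmul_eq_mul]
  congr 1
  have h2 : (injTo n m V).filter (fun w => univ.image w = A) = injTo n m A := by
    ext w
    rw [mem_filter, mem_injTo, mem_injTo]
    constructor
    · rintro ⟨⟨h3, h4⟩, h5⟩
      refine ⟨h3, fun i => ?_⟩
      rw [← h5]; exact mem_image_of_mem w (mem_univ _)
    · rintro ⟨h3, h4⟩
      refine ⟨⟨h3, fun i => hA1.1 (h4 i)⟩, ?_⟩
      refine Finset.eq_of_subset_of_card_le ?_ ?_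
      · intro x hx; obtain ⟨i, _, rfl⟩ := mem_image.mp hx; exact h4 i
      · rw [card_image_inj h3, hA1.2]
  rw [h2, card_injTo, hA1.2, Nat.descFactorial_self]

lemma card_injTo' (m : ℕ) (V : Finset (Fin n)) :
    ((injTo n m V).card : ℝ) = ((m + 1).factorial : ℝ) * (V.card.choose (m + 1)) := by
  rw [card_injTo, Nat.descFactorial_eq_factorial_mul_choose]
  push_cast; ring

/-- Weighted cross moment, lower bound. -/
lemma EP_cycle_mul_ge {p : ℝ} (hp : 0 < p) (hp1 : p ≤ 1) (c c' m m' : ℕ)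
    (R V1 V2 : Finset (Fin n)) (hRV1 : Disjoint R V1) (hRV2 : Disjoint R V2)
    (hV : Disjoint V1 V2) (hcV : c ≤ V1.card) (hcV' : c' ≤ V1.card)
    (hmV : m + 1 ≤ V2.card) (hmV' : m' + 1 ≤ V2.card)
    (a b : Fin n → ℝ) (ha0 : ∀ u, 0 ≤ a u) (hb0 : ∀ u, 0 ≤ b u)
    (ha : ∀ u, u ∉ R → a u = 1) (hb : ∀ u, u ∉ R → b u = 1) :
    rootFac p 0 R a b * (1 + (1 - p) / p * c * c' / V1.card) *
        (1 + (1 - p) / p * (m + 1 : ℕ) * (m' + 1 : ℕ) / V2.card)
      ≤ EP n p (fun S Y => (∏ u, if u ∈ S then a u else b u) *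
        (evalAt (cyclePoly n c m p R V1 V2) Y * evalAt (cyclePoly n c' m' p R V1 V2) Y)) := by
  rw [EP_cycle_mul c c' m m' p R V1 V2 (fun S => ∏ u, if u ∈ S then a u else b u)]
  set rf := rootFac p 0 R a b with hrf
  have h1p : 0 ≤ 1 - p := by linarith
  have hrf0 : 0 ≤ rf := by
    rw [hrf]; unfold rootFac
    refine Finset.prod_nonneg fun u _ => ?_
    have := ha0 u
    have := hb0 u
    positivity
  have h1 : ∑ T ∈ powersetCard c V1, ∑ T' ∈ powersetCard c' V1,
        ∑ w ∈ injTo n m V2, ∑ w' ∈ injTo n m' V2,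
          rf * p ^ (T ∪ T').card * p ^ (univ.image w ∪ univ.image w').card
      ≤ ∑ T ∈ powersetCard c V1, ∑ T' ∈ powersetCard c' V1,
        ∑ w ∈ injTo n m V2, ∑ w' ∈ injTo n m' V2,
          EP n p (fun S Y => (∏ u, if u ∈ S then a u else b u) *
            (evalAt (term (cross (univ.image w) (R ∪ T)) (cyc w)) Y *
             evalAt (term (cross (univ.image w') (R ∪ T')) (cyc w')) Y)) := by
    refine Finset.sum_le_sum fun T hT => Finset.sum_le_sum fun T' hT' =>
      Finset.sum_le_sum fun w hw => Finset.sum_le_sum fun w' hw' => ?_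
    exact EP_pair_ge hp.le hp1 R T T' V1 V2 hRV1 hRV2 hV (mem_powersetCard.mp hT).1
      (mem_powersetCard.mp hT').1 w w' (mem_injTo.mp hw).2 (mem_injTo.mp hw').2 a b ha0 hb0 ha hb
  have h2 : ∑ T ∈ powersetCard c V1, ∑ T' ∈ powersetCard c' V1,
        ∑ w ∈ injTo n m V2, ∑ w' ∈ injTo n m' V2,
          rf * p ^ (T ∪ T').card * p ^ (univ.image w ∪ univ.image w').card
      = rf * (∑ T ∈ powersetCard c V1, ∑ T' ∈ powersetCard c' V1, p ^ (T ∪ T').card) *
        (∑ w ∈ injTo n m V2, ∑ w' ∈ injTo n m' V2, p ^ (univ.image w ∪ univ.image w').card) := by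
    have e : ∀ T T' : Finset (Fin n), ∑ w ∈ injTo n m V2, ∑ w' ∈ injTo n m' V2,
          rf * p ^ (T ∪ T').card * p ^ (univ.image w ∪ univ.image w').card
        = rf * p ^ (T ∪ T').card * (∑ w ∈ injTo n m V2, ∑ w' ∈ injTo n m' V2,
          p ^ (univ.image w ∪ univ.image w').card) := by
      intro T T'
      simp only [Finset.mul_sum]
    generalize (∑ w ∈ injTo n m V2, ∑ w' ∈ injTo n m' V2,
          p ^ (univ.image w ∪ univ.image w').card) = G at e ⊢
    simp only [e, Finset.mul_sum, Finset.sum_mul]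
  have h3 : ∑ w ∈ injTo n m V2, ∑ w' ∈ injTo n m' V2, p ^ (univ.image w ∪ univ.image w').card
      = ((m + 1).factorial : ℝ) * (((m' + 1).factorial : ℝ) *
        ∑ A ∈ powersetCard (m + 1) V2, ∑ B ∈ powersetCard (m' + 1) V2, p ^ (A ∪ B).card) := by
    have e1 : ∀ w ∈ injTo n m V2, ∑ w' ∈ injTo n m' V2, p ^ (univ.image w ∪ univ.image w').card
        = ((m' + 1).factorial : ℝ) * ∑ B ∈ powersetCard (m' + 1) V2,
          p ^ (univ.image w ∪ B).card := fun w _ =>
      sum_injTo_image m' V2 (fun B => p ^ (univ.image w ∪ B).card)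
    rw [Finset.sum_congr rfl e1]
    rw [sum_injTo_image m V2 (fun A => ((m' + 1).factorial : ℝ) *
      ∑ B ∈ powersetCard (m' + 1) V2, p ^ (A ∪ B).card)]
    rw [← Finset.mul_sum]
  have g1 := sum_pow_union_ge V1 c c' p hp hp1
  have g2 := sum_pow_union_ge V2 (m + 1) (m' + 1) p hp hp1
  have hC1 : (0 : ℝ) < (V1.card.choose c : ℝ) := by exact_mod_cast Nat.choose_pos hcV
  have hC1' : (0 : ℝ) < (V1.card.choose c' : ℝ) := by exact_mod_cast Nat.choose_pos hcV'
  have hC2 : (0 : ℝ) < (V2.card.choose (m + 1) : ℝ) := by exact_mod_cast Nat.choose_pos hmV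
  have hC2' : (0 : ℝ) < (V2.card.choose (m' + 1) : ℝ) := by exact_mod_cast Nat.choose_pos hmV'
  have hn0 := nrm_nonneg c m hp.le V1 V2
  have hn0' := nrm_nonneg c' m' hp.le V1 V2
  have hθ : 0 ≤ (1 - p) / p := div_nonneg h1p hp.le
  refine le_trans ?_ (mul_le_mul_of_nonneg_left h1 (mul_nonneg hn0 hn0'))
  rw [h2, h3]
  have hf1 : (0 : ℝ) < ((m + 1).factorial : ℝ) := by exact_mod_cast Nat.factorial_pos _
  have hf2 : (0 : ℝ) < ((m' + 1).factorial : ℝ) := by exact_mod_cast Nat.factorial_pos _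
  calc rf * (1 + (1 - p) / p * c * c' / V1.card) *
        (1 + (1 - p) / p * (m + 1 : ℕ) * (m' + 1 : ℕ) / V2.card)
      = nrm c m p V1 V2 * nrm c' m' p V1 V2 *
        (rf * (p ^ (c + c') * ((V1.card.choose c : ℝ) * (V1.card.choose c') *
          (1 + (1 - p) / p * c * c' / V1.card))) *
          (((m + 1).factorial : ℝ) * (((m' + 1).factorial : ℝ) *
            (p ^ (m + 1 + (m' + 1)) * ((V2.card.choose (m + 1) : ℝ) * (V2.card.choose (m' + 1)) *
          (1 + (1 - p) / p * (m + 1 : ℕ) * (m' + 1 : ℕ) / V2.card)))))) := by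
        unfold nrm
        rw [card_injTo', card_injTo', pow_add p c c', pow_add p (m + 1) (m' + 1)]
        field_simp
    _ ≤ _ := by
        gcongr

/-- Pointwise bound for a single term. -/
lemma EQ_single_le {m : ℕ} (hm : 1 ≤ m) (l0 : ℕ) (hl0 : 2 * l0 ≤ m + 1)
    (R T V1 V2 : Finset (Fin n)) (hRV2 : Disjoint R V2) (hV : Disjoint V1 V2)
    (hT : T ⊆ V1)
    (w : Fin (m + 1) → Fin n) (hw : Function.Injective w)
    (hwV : ∀ i, w i ∈ V2) (S : Finset (Fin n)) :
    EQ n (fun Z => evalAt (term (cross (univ.image w) (R ∪ T)) (cyc w)) (plant S Z))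
      ≤ ∏ u, (if u ∈ S then (1 : ℝ) else (if u ∈ univ.image w then 0 else
          (if u ∈ R ∪ T then (1 / 2) ^ l0 else 1))) := by
  have hRT : Disjoint (R ∪ T) V2 := by
    rw [disjoint_union_left]; exact ⟨hRV2, hV.mono_left hT⟩
  have hWV : univ.image w ⊆ V2 := by
    intro x hx; obtain ⟨i, _, rfl⟩ := mem_image.mp hx; exact hwV i
  have hcW : (univ.image w).card = m + 1 := card_image_inj hw
  have h0 : (fun Z => evalAt (term (cross (univ.image w) (R ∪ T)) (cyc w)) (plant S Z))
      = fun Z => evalAt (term (cross (univ.image w) (R ∪ T)) (cyc w)) (plant S Z) *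
        evalAt (term ∅ ∅) (plant S Z) := by
    funext Z
    have : evalAt (term (∅ : Finset (Pair n)) ∅) (plant S Z) = 1 := by
      rw [evalAt_term]; simp
    rw [this, mul_one]
  rw [h0, EQ_term_mul]
  · split_ifs with hc
    · have hWS : univ.image w ⊆ S := by
        intro x hx
        obtain ⟨j, _, rfl⟩ := mem_image.mp hx
        have hne : w j ≠ w (j + 1) := fun h => add_one_ne_self hm j (hw h)
        have e1 : (⟨{w j, w (j + 1)}, card_pair hne⟩ : Pair n) ∈ cyc w := mem_cyc.mpr ⟨j, rfl⟩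
        exact hc.1 _ e1 (by simp) (by simp)
      rw [union_empty]
      set F := cross (univ.image w) (R ∪ T) with hF
      have hlost : ∑ u ∈ (R ∪ T) \ S, l0 ≤ (F.filter (fun e => ¬ e.1 ⊆ S)).card := by
        refine lost_ge_w F (R ∪ T) (fun _ => l0) S ?_
        intro u hu
        rw [mem_sdiff] at hu
        have h1 := deg_cross_right (hRT.symm.mono_left hWV) hu.1
        rw [← hF] at h1
        omega
      have hprod : ∏ u, (if u ∈ S then (1 : ℝ) else (if u ∈ univ.image w then 0 else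
          (if u ∈ R ∪ T then (1 / 2) ^ l0 else 1)))
          = (1 / 2) ^ (∑ u ∈ (R ∪ T) \ S, l0) := by
        rw [← Finset.prod_pow_eq_pow_sum, ← Finset.prod_subset (Finset.subset_univ ((R ∪ T) \ S))]
        · refine Finset.prod_congr rfl fun u hu => ?_
          rw [mem_sdiff] at hu
          rw [if_neg hu.2, if_neg (fun h => hu.2 (hWS h)), if_pos hu.1]
        · intro u _ hu
          rw [mem_sdiff, not_and, not_not] at hu
          by_cases hS : u ∈ S
          · rw [if_pos hS]
          · rw [if_neg hS, if_neg (fun h => hS (hWS h)), if_neg (fun h => hS (hu h))]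
      rw [hprod]
      exact pow_le_pow_of_le_one (by norm_num) (by norm_num) hlost
    · refine Finset.prod_nonneg fun u _ => ?_
      split_ifs <;> positivity
  · rw [union_empty, union_empty]
    exact cross_disjoint_cyc hRT hwV

lemma EP_single_le {m : ℕ} {p : ℝ} (h0 : 0 ≤ p) (h1 : p ≤ 1) (hm : 1 ≤ m) (l0 : ℕ)
    (hl0 : 2 * l0 ≤ m + 1)
    (R T V1 V2 : Finset (Fin n)) (hRV1 : Disjoint R V1) (hRV2 : Disjoint R V2)
    (hV : Disjoint V1 V2) (hT : T ⊆ V1)
    (w : Fin (m + 1) → Fin n) (hw : Function.Injective w) (hwV : ∀ i, w i ∈ V2)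
    (a b : Fin n → ℝ) (ha0 : ∀ u, 0 ≤ a u) (hb0 : ∀ u, 0 ≤ b u)
    (ha : ∀ u, u ∉ R → a u = 1) (hb : ∀ u, u ∉ R → b u = 1) :
    EP n p (fun S Y => (∏ u, if u ∈ S then a u else b u) *
        evalAt (term (cross (univ.image w) (R ∪ T)) (cyc w)) Y)
      ≤ rootFac p ((1 / 2) ^ l0) R a b * (p + (1 - p) * (1 / 2) ^ l0) ^ T.card * p ^ (m + 1) := by
  rw [EP_eq]
  set f : Fin n → ℝ := fun u => if u ∈ univ.image w then 0 else
          (if u ∈ R ∪ T then (1 / 2) ^ l0 else 1) with hf
  have e1 : ∑ S : Finset (Fin n), wt n p S *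
        EQ n (fun Z => (∏ u, if u ∈ S then a u else b u) *
        evalAt (term (cross (univ.image w) (R ∪ T)) (cyc w)) (plant S Z))
      ≤ ∑ S : Finset (Fin n), wt n p S *
          ∏ u, (if u ∈ S then a u else b u * f u) := by
    refine Finset.sum_le_sum fun S _ => mul_le_mul_of_nonneg_left ?_ (wt_nonneg h0 h1 S)
    rw [EQ_smul]
    have e2 := EQ_single_le hm l0 hl0 R T V1 V2 hRV2 hV hT w hw hwV S
    have e3 : (0 : ℝ) ≤ ∏ u, (if u ∈ S then a u else b u) :=
      Finset.prod_nonneg fun u _ => by split_ifs; exacts [ha0 u, hb0 u]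
    refine (mul_le_mul_of_nonneg_left e2 e3).trans (le_of_eq ?_)
    rw [← Finset.prod_mul_distrib]
    refine Finset.prod_congr rfl fun u _ => ?_
    by_cases hS : u ∈ S
    · simp only [hS, if_true, mul_one]
    · simp only [hS, if_false, hf]
  refine e1.trans ?_
  rw [sum_wt_prod n p a (fun u => b u * f u)]
  set W := univ.image w with hW
  have hWV : W ⊆ V2 := by
    intro x hx; obtain ⟨i, _, rfl⟩ := mem_image.mp hx; exact hwV i
  have d1 : Disjoint R T := hRV1.mono_right hT
  have d2 : Disjoint (R ∪ T) W := by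
    rw [disjoint_union_left]
    exact ⟨hRV2.mono_right hWV, (hV.mono_left hT).mono_right hWV⟩
  rw [← Finset.prod_subset (Finset.subset_univ ((R ∪ T) ∪ W))]
  · rw [Finset.prod_union d2, Finset.prod_union d1]
    have p1 : ∏ u ∈ R, (p * a u + (1 - p) * (b u * f u)) = rootFac p ((1 / 2) ^ l0) R a b := by
      unfold rootFac
      refine Finset.prod_congr rfl fun u hu => ?_
      have hnW : u ∉ W := fun h => Finset.disjoint_left.mp d2 (mem_union_left _ hu) h
      have : f u = (1 / 2) ^ l0 := by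
        rw [hf]; simp only
        rw [if_neg hnW, if_pos (mem_union_left _ hu)]
      rw [this]; ring
    have p2 : ∏ u ∈ T, (p * a u + (1 - p) * (b u * f u))
        = (p + (1 - p) * (1 / 2) ^ l0) ^ T.card := by
      rw [← Finset.prod_const]
      refine Finset.prod_congr rfl fun u hu => ?_
      have hnR : u ∉ R := fun h => Finset.disjoint_left.mp d1 h hu
      have hnW : u ∉ W := fun h => Finset.disjoint_left.mp d2 (mem_union_right _ hu) h
      have : f u = (1 / 2) ^ l0 := by
        rw [hf]; simp only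
        rw [if_neg hnW, if_pos (mem_union_right _ hu)]
      rw [this, ha u hnR, hb u hnR]; ring
    have p3 : ∏ u ∈ W, (p * a u + (1 - p) * (b u * f u)) = p ^ (m + 1) := by
      rw [← card_image_inj hw, ← Finset.prod_const]
      refine Finset.prod_congr rfl fun u hu => ?_
      have hnR : u ∉ R := fun h => Finset.disjoint_left.mp d2 (mem_union_left _ h) hu
      have : f u = 0 := by
        rw [hf]; simp only
        rw [if_pos hu]
      rw [this, ha u hnR]; ring
    rw [p1, p2, p3]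
  · intro u _ hu
    rw [mem_union, not_or, mem_union, not_or] at hu
    have : f u = 1 := by
      rw [hf]; simp only
      rw [if_neg hu.2, if_neg]
      rw [mem_union, not_or]; exact hu.1
    rw [this, ha u hu.1.1, hb u hu.1.1]; ring

/-- Expansion of the weighted first moment. -/
lemma EP_cycle_one (c m : ℕ) (p : ℝ) (R V1 V2 : Finset (Fin n))
    (om : Finset (Fin n) → ℝ) :
    EP n p (fun S Y => om S * evalAt (cyclePoly n c m p R V1 V2) Y)
      = nrm c m p V1 V2 *
        ∑ T ∈ powersetCard c V1, ∑ w ∈ injTo n m V2,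
          EP n p (fun S Y => om S *
            evalAt (term (cross (univ.image w) (R ∪ T)) (cyc w)) Y) := by
  have e1 : (fun (S : Finset (Fin n)) (Y : Pair n → Bool) =>
      om S * evalAt (cyclePoly n c m p R V1 V2) Y)
      = fun S Y => nrm c m p V1 V2 *
        (∑ T ∈ powersetCard c V1, ∑ w ∈ injTo n m V2, om S *
            evalAt (term (cross (univ.image w) (R ∪ T)) (cyc w)) Y) := by
    funext S Y
    rw [evalAt_cyclePoly]
    simp only [← Finset.mul_sum]
    ring
  rw [e1, EP_smul, EP_sum]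
  congr 1
  refine Finset.sum_congr rfl fun T _ => ?_
  rw [EP_sum]

lemma EP_cycle_one_le {p : ℝ} (hp : 0 < p) (hp1 : p ≤ 1) (c m l0 : ℕ) (hm : 1 ≤ m)
    (hl0 : 2 * l0 ≤ m + 1)
    (R V1 V2 : Finset (Fin n)) (hRV1 : Disjoint R V1) (hRV2 : Disjoint R V2)
    (hV : Disjoint V1 V2) (hcV : c ≤ V1.card) (hmV : m + 1 ≤ V2.card)
    (a b : Fin n → ℝ) (ha0 : ∀ u, 0 ≤ a u) (hb0 : ∀ u, 0 ≤ b u)
    (ha : ∀ u, u ∉ R → a u = 1) (hb : ∀ u, u ∉ R → b u = 1) :
    EP n p (fun S Y => (∏ u, if u ∈ S then a u else b u) *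
        evalAt (cyclePoly n c m p R V1 V2) Y)
      ≤ rootFac p ((1 / 2) ^ l0) R a b * (qq p l0 / p) ^ c := by
  rw [EP_cycle_one c m p R V1 V2 (fun S => ∏ u, if u ∈ S then a u else b u)]
  have h1 : ∑ T ∈ powersetCard c V1, ∑ w ∈ injTo n m V2,
          EP n p (fun S Y => (∏ u, if u ∈ S then a u else b u) *
            evalAt (term (cross (univ.image w) (R ∪ T)) (cyc w)) Y)
      ≤ ∑ T ∈ powersetCard c V1, ∑ w ∈ injTo n m V2,
        rootFac p ((1 / 2) ^ l0) R a b * qq p l0 ^ c * p ^ (m + 1) := by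
    refine Finset.sum_le_sum fun T hT => Finset.sum_le_sum fun w hw => ?_
    have hT1 := mem_powersetCard.mp hT
    have hw1 := mem_injTo.mp hw
    have := EP_single_le hp.le hp1 hm l0 hl0 R T V1 V2 hRV1 hRV2 hV hT1.1 w hw1.1 hw1.2
      a b ha0 hb0 ha hb
    rw [hT1.2] at this
    exact this
  rw [Finset.sum_const, Finset.sum_const, nsmul_eq_mul, nsmul_eq_mul, card_powersetCard] at h1
  have hC1 : (0 : ℝ) < (V1.card.choose c : ℝ) := by exact_mod_cast Nat.choose_pos hcV
  have hI : (0 : ℝ) < (injTo n m V2).card := by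
    rw [card_injTo]
    exact_mod_cast Nat.descFactorial_pos.mpr hmV
  refine (mul_le_mul_of_nonneg_left h1 (nrm_nonneg c m hp.le V1 V2)).trans (le_of_eq ?_)
  unfold nrm
  rw [div_pow (qq p l0) p c]
  field_simp

lemma EP_cycle_one_ge {p : ℝ} (hp : 0 < p) (hp1 : p ≤ 1) (c m : ℕ)
    (R V1 V2 : Finset (Fin n)) (hRV1 : Disjoint R V1) (hRV2 : Disjoint R V2)
    (hV : Disjoint V1 V2) (hcV : c ≤ V1.card) (hmV : m + 1 ≤ V2.card)
    (a b : Fin n → ℝ) (ha0 : ∀ u, 0 ≤ a u) (hb0 : ∀ u, 0 ≤ b u)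
    (ha : ∀ u, u ∉ R → a u = 1) (hb : ∀ u, u ∉ R → b u = 1) :
    rootFac p 0 R a b ≤ EP n p (fun S Y => (∏ u, if u ∈ S then a u else b u) *
        evalAt (cyclePoly n c m p R V1 V2) Y) := by
  rw [EP_cycle_one c m p R V1 V2 (fun S => ∏ u, if u ∈ S then a u else b u)]
  have h1 : ∑ T ∈ powersetCard c V1, ∑ w ∈ injTo n m V2,
        rootFac p 0 R a b * p ^ c * p ^ (m + 1)
      ≤ ∑ T ∈ powersetCard c V1, ∑ w ∈ injTo n m V2,
          EP n p (fun S Y => (∏ u, if u ∈ S then a u else b u) *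
            evalAt (term (cross (univ.image w) (R ∪ T)) (cyc w)) Y) := by
    refine Finset.sum_le_sum fun T hT => Finset.sum_le_sum fun w hw => ?_
    have hT1 := mem_powersetCard.mp hT
    have hw1 := mem_injTo.mp hw
    rw [EP_eq]
    set W := univ.image w with hW
    have hWV : W ⊆ V2 := by
      intro x hx; obtain ⟨i, _, rfl⟩ := mem_image.mp hx; exact hw1.2 i
    have d1 : Disjoint R T := hRV1.mono_right hT1.1
    have d2 : Disjoint (R ∪ T) W := by
      rw [disjoint_union_left]
      exact ⟨hRV2.mono_right hWV, (hV.mono_left hT1.1).mono_right hWV⟩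
    set U := (R ∪ T) ∪ W with hU
    have hRT : Disjoint (R ∪ T) V2 := by
      rw [disjoint_union_left]; exact ⟨hRV2, hV.mono_left hT1.1⟩
    have hd : Disjoint (cross W (R ∪ T) ∪ ∅) (cyc w ∪ ∅) := by
      rw [union_empty, union_empty]
      exact cross_disjoint_cyc hRT hw1.2
    have hUe : ∀ e ∈ (cross W (R ∪ T) ∪ ∅) ∪ (cyc w ∪ ∅), e.1 ⊆ U := by
      intro e he x hx
      rw [union_empty, union_empty] at he
      rcases mem_union.mp he with he | he
      · obtain ⟨y, hy, t, ht, h⟩ := mem_cross.mp he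
        rw [h, mem_insert, mem_singleton] at hx
        rcases hx with rfl | rfl
        · exact mem_union_right _ hy
        · exact mem_union_left _ ht
      · obtain ⟨i, h⟩ := mem_cyc.mp he
        rw [h, mem_insert, mem_singleton] at hx
        rcases hx with rfl | rfl
        · exact mem_union_right _ (mem_image_of_mem w (mem_univ _))
        · exact mem_union_right _ (mem_image_of_mem w (mem_univ _))
    have e1 : ∑ S : Finset (Fin n), wt n p S *
          ∏ u, (if u ∈ S then a u else b u * (if u ∈ U then 0 else 1))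
        ≤ ∑ S : Finset (Fin n), wt n p S *
          EQ n (fun Z => (∏ u, if u ∈ S then a u else b u) *
          evalAt (term (cross W (R ∪ T)) (cyc w)) (plant S Z)) := by
      refine Finset.sum_le_sum fun S _ => mul_le_mul_of_nonneg_left ?_ (wt_nonneg hp.le hp1 S)
      rw [EQ_smul]
      have e2 := EQ_pair_ge _ _ _ _ hd U hUe S
      have e2' : (fun Z => evalAt (term (cross W (R ∪ T)) (cyc w)) (plant S Z) *
          evalAt (term ∅ ∅) (plant S Z))
          = fun Z => evalAt (term (cross W (R ∪ T)) (cyc w)) (plant S Z) := by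
        funext Z
        have : evalAt (term (∅ : Finset (Pair n)) ∅) (plant S Z) = 1 := by
          rw [evalAt_term]; simp
        rw [this, mul_one]
      rw [e2'] at e2
      have e3 : (0 : ℝ) ≤ ∏ u, (if u ∈ S then a u else b u) :=
        Finset.prod_nonneg fun u _ => by split_ifs; exacts [ha0 u, hb0 u]
      refine le_trans (le_of_eq ?_) (mul_le_mul_of_nonneg_left e2 e3)
      rw [← Finset.prod_mul_distrib]
      refine Finset.prod_congr rfl fun u _ => ?_
      by_cases hS : u ∈ S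
      · simp only [hS, if_true, mul_one]
      · simp only [hS, if_false]
    refine le_trans (le_of_eq ?_) e1
    rw [sum_wt_prod n p a (fun u => b u * (if u ∈ U then 0 else 1))]
    rw [← Finset.prod_subset (Finset.subset_univ U)]
    · rw [hU, Finset.prod_union d2, Finset.prod_union d1]
      congr 1
      · congr 1
        · unfold rootFac
          refine Finset.prod_congr rfl fun u hu => ?_
          rw [if_pos (mem_union_left _ (mem_union_left _ hu))]; ring
        · rw [← hT1.2, ← Finset.prod_const]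
          refine Finset.prod_congr rfl fun u hu => ?_
          have hnR : u ∉ R := fun h => Finset.disjoint_left.mp d1 h hu
          rw [if_pos (mem_union_left _ (mem_union_right _ hu)), ha u hnR]; ring
      · rw [← card_image_inj hw1.1, ← Finset.prod_const]
        refine Finset.prod_congr rfl fun u hu => ?_
        have hnR : u ∉ R := fun h => Finset.disjoint_left.mp d2 (mem_union_left _ h) hu
        rw [if_pos (mem_union_right _ hu), ha u hnR]; ring
    · intro u _ hu
      rw [if_neg hu]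
      have hnR : u ∉ R := fun h => hu (by rw [hU]; simp [h])
      rw [ha u hnR, hb u hnR]; ring
  rw [Finset.sum_const, Finset.sum_const, nsmul_eq_mul, nsmul_eq_mul, card_powersetCard] at h1
  have hC1 : (0 : ℝ) < (V1.card.choose c : ℝ) := by exact_mod_cast Nat.choose_pos hcV
  have hI : (0 : ℝ) < (injTo n m V2).card := by
    rw [card_injTo]
    exact_mod_cast Nat.descFactorial_pos.mpr hmV
  refine le_trans (le_of_eq ?_) (mul_le_mul_of_nonneg_left h1 (nrm_nonneg c m hp.le V1 V2))
  unfold nrm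
  field_simp

end CyclePoly

end Pool.Agent.Work.MP_d47e79_lc
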