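import Mathlib

namespace Pool.Agent.Work.MP_d47e79_lc

open Filter Asymptotics

/-- The coordinates of the input: the pairs of distinct vertices of `[n]`, as two-element subsets
of `Fin n`. -/
abbrev Pair (n : ℕ) : Type := {e : Finset (Fin n) // e.card = 2}

/-- The value of the polynomial `f` at the graph with edge indicator `Y`. -/
noncomputable def evalAt {n : ℕ} (f : MvPolynomial (Pair n) ℝ) (Y : Pair n → Bool) : ℝ :=
  MvPolynomial.eval (fun e => if Y e then (1 : ℝ) else 0) f

/-- Expectation under the null distribution `G(n,1/2)`: the average over all edge indicators. -/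
noncomputable def EQ (n : ℕ) (g : (Pair n → Bool) → ℝ) : ℝ :=
  (∑ Y : Pair n → Bool, g Y) / 2 ^ Fintype.card (Pair n)

/-- The union of the graph `Z` and the complete graph on `S`. -/
def plant {n : ℕ} (S : Finset (Fin n)) (Z : Pair n → Bool) : Pair n → Bool :=
  fun e => Z e || decide (e.1 ⊆ S)

/-- Expectation of `g (S, Y)` under the planted distribution: every vertex is put in `S`
independently with probability `p`, and `Y` is the union of an independent `G(n,1/2)` with the
complete graph on `S`. -/
noncomputable def EP (n : ℕ) (p : ℝ) (g : Finset (Fin n) → (Pair n → Bool) → ℝ) : ℝ :=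
  ∑ S : Finset (Fin n), p ^ S.card * (1 - p) ^ (n - S.card) * EQ n (fun Z => g S (plant S Z))

/-- Mean of `f(Y)` under the null distribution. -/
noncomputable def meanQ (n : ℕ) (f : MvPolynomial (Pair n) ℝ) : ℝ :=
  EQ n (fun Y => evalAt f Y)

/-- Variance of `f(Y)` under the null distribution. -/
noncomputable def varQ (n : ℕ) (f : MvPolynomial (Pair n) ℝ) : ℝ :=
  EQ n (fun Y => (evalAt f Y - meanQ n f) ^ 2)

/-- Mean of `f(Y)` under the planted distribution with inclusion probability `p`. -/
noncomputable def meanP (n : ℕ) (p : ℝ) (f : MvPolynomial (Pair n) ℝ) : ℝ :=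
  EP n p (fun _ Y => evalAt f Y)

/-- Variance of `f(Y)` under the planted distribution with inclusion probability `p`. -/
noncomputable def varP (n : ℕ) (p : ℝ) (f : MvPolynomial (Pair n) ℝ) : ℝ :=
  EP n p (fun _ Y => (evalAt f Y - meanP n p f) ^ 2)

/-- Strong separation of the planted (parameter `k`) and null distributions by the sequence `f`:
the larger standard deviation is `o` of the difference of the means. (The means are moreover
required to differ for all large `n`, which excludes the degenerate case `0 = o(0)`.) -/
def StronglySeparates (k : ℕ → ℝ) (f : (n : ℕ) → MvPolynomial (Pair n) ℝ) : Prop :=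
  (∀ᶠ n : ℕ in atTop, meanP n (k n / n) (f n) ≠ meanQ n (f n)) ∧
  (fun n : ℕ => Real.sqrt (max (varP n (k n / n) (f n)) (varQ n (f n))))
    =o[atTop] (fun n : ℕ => |meanP n (k n / n) (f n) - meanQ n (f n)|)

/-- The degree-`D` minimum mean squared error for estimating the indicator of `v ∈ S`. -/
noncomputable def mmse (n D : ℕ) (p : ℝ) (v : Fin n) : ℝ :=
  ⨅ f : {f : MvPolynomial (Pair n) ℝ // f.totalDegree ≤ D},
    EP n p (fun S Y => (evalAt f.1 Y - if v ∈ S then 1 else 0) ^ 2)

/-- Degree `D` succeeds at planted clique with parameter `k`: (i) some sequence of polynomials of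
degree at most `D n` strongly separates the two distributions; (ii) the degree-`D n` minimum mean
squared error for the membership indicator of a vertex is `o(1/n)` (all vertices are equivalent;
the bound is asked for all of them). -/
def Succeeds (k : ℕ → ℝ) (D : ℕ → ℕ) : Prop :=
  (∃ f : (n : ℕ) → MvPolynomial (Pair n) ℝ,
    (∀ n, (f n).totalDegree ≤ D n) ∧ StronglySeparates k f) ∧
  (∀ δ : ℝ, 0 < δ → ∀ᶠ n : ℕ in atTop, ∀ v : Fin n, mmse n (D n) (k n / n) v ≤ δ / n)

end Pool.Agent.Work.MP_d47e79_lc
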