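import Pool.Agent.Work.MP_d47e79_lc.Clique

namespace Pool.Agent.Work.MP_d47e79_lc

open Finset

section DetectMoments

variable {n : ℕ} {p : ℝ}

lemma EP_indicator (n : ℕ) (p : ℝ) (v : Fin n) :
    EP n p (fun S _ => if v ∈ S then (1 : ℝ) else 0) = p := by
  rw [EP_eq]
  simp only [EQ_const]
  have h := sum_wt_prod n p (fun _ => 1) (fun u => if u = v then 0 else 1)
  have h1 : ∀ S : Finset (Fin n), (∏ u, if u ∈ S then (1 : ℝ) else if u = v then 0 else 1)
      = if v ∈ S then 1 else 0 := by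
    intro S
    by_cases hS : v ∈ S
    · rw [if_pos hS]
      refine Finset.prod_eq_one fun u _ => ?_
      by_cases hu : u ∈ S
      · rw [if_pos hu]
      · rw [if_neg hu, if_neg (fun hh => hu (by rw [hh]; exact hS))]
    · rw [if_neg hS]
      exact Finset.prod_eq_zero (mem_univ v) (by rw [if_neg hS, if_pos rfl])
  simp only [h1] at h
  rw [h]
  rw [Finset.prod_eq_single v]
  · rw [if_pos rfl]; ring
  · intro u _ hu; rw [if_neg hu]; ring
  · intro hv; exact absurd (mem_univ v) hv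

lemma meanP_cliquePoly_ge (hp : 0 < p) (hp1 : p ≤ 1) (m : ℕ) (hmn : m ≤ n) :
    1 ≤ meanP n p (cliquePoly n m p) := by
  unfold meanP
  have e1 : (fun (_ : Finset (Fin n)) (Y : Pair n → Bool) => evalAt (cliquePoly n m p) Y)
      = fun S Y => (1 / ((n.choose m : ℝ) * p ^ m)) *
        (∑ A ∈ powersetCard m (univ : Finset (Fin n)), evalAt (mono (cl A)) Y) := by
    funext S Y
    rw [evalAt_cliquePoly]
  rw [e1, EP_smul, EP_sum]
  have h1 : ∑ A ∈ powersetCard m (univ : Finset (Fin n)), p ^ m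
      ≤ ∑ A ∈ powersetCard m (univ : Finset (Fin n)),
        EP n p (fun _ Y => evalAt (mono (cl A)) Y) := by
    refine Finset.sum_le_sum fun A hA => ?_
    have hA' := mem_powersetCard.mp hA
    have := EP_mono_ge hp.le hp1 (cl A) A (fun e he => mem_cl.mp he)
    rwa [hA'.2] at this
  rw [Finset.sum_const, card_powersetCard, card_univ, Fintype.card_fin, nsmul_eq_mul] at h1
  have hC1 : (0 : ℝ) < (n.choose m : ℝ) := by exact_mod_cast Nat.choose_pos hmn
  calc (1 : ℝ) = (1 / ((n.choose m : ℝ) * p ^ m)) * ((n.choose m : ℝ) * p ^ m) := by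
        field_simp
    _ ≤ _ := mul_le_mul_of_nonneg_left h1 (by positivity)

lemma cliquePoly_sq_eq (m : ℕ) (Y : Pair n → Bool) :
    evalAt (cliquePoly n m p) Y ^ 2 = (1 / ((n.choose m : ℝ) * p ^ m)) ^ 2 *
        (∑ A ∈ powersetCard m (univ : Finset (Fin n)),
          ∑ B ∈ powersetCard m (univ : Finset (Fin n)), evalAt (mono (cl A ∪ cl B)) Y) := by
  rw [evalAt_cliquePoly, mul_pow]
  congr 1
  rw [sq, Finset.sum_mul_sum]
  refine Finset.sum_congr rfl fun A _ => Finset.sum_congr rfl fun B _ => ?_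
  rw [evalAt_mono_mul]

lemma EP_sq_cliquePoly_le (hp : 0 < p) (hp1 : p ≤ 1) (m h : ℕ) (hm : 2 * h + 1 ≤ m)
    (hmn : m ≤ n) :
    EP n p (fun _ Y => evalAt (cliquePoly n m p) Y ^ 2)
      ≤ (qq p h / p) ^ (m + m) * Real.exp ((1 - p) / p * m * m / n) := by
  have e1 : (fun (_ : Finset (Fin n)) (Y : Pair n → Bool) => evalAt (cliquePoly n m p) Y ^ 2)
      = fun S Y => (1 / ((n.choose m : ℝ) * p ^ m)) ^ 2 *
        (∑ A ∈ powersetCard m (univ : Finset (Fin n)),
          ∑ B ∈ powersetCard m (univ : Finset (Fin n)), evalAt (mono (cl A ∪ cl B)) Y) := by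
    funext S Y
    rw [cliquePoly_sq_eq]
  rw [e1, EP_smul, EP_sum]
  have hqp := qq_ge hp1 h
  have hq : 0 < qq p h := lt_of_lt_of_le hp hqp
  have h1 : ∑ A ∈ powersetCard m (univ : Finset (Fin n)),
        EP n p (fun _ Y => ∑ B ∈ powersetCard m (univ : Finset (Fin n)),
          evalAt (mono (cl A ∪ cl B)) Y)
      ≤ ∑ A ∈ powersetCard m (univ : Finset (Fin n)),
          ∑ B ∈ powersetCard m (univ : Finset (Fin n)), qq p h ^ (A ∪ B).card := by
    refine Finset.sum_le_sum fun A hA => ?_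
    rw [EP_sum]
    refine Finset.sum_le_sum fun B hB => ?_
    have hA' := mem_powersetCard.mp hA
    have hB' := mem_powersetCard.mp hB
    refine EP_mono_le hp.le hp1 _ (A ∪ B) h ?_
    intro u hu
    exact deg_union A B h (by omega) (by omega) u hu
  have h2 := sum_pow_union_le (univ : Finset (Fin n)) m m (by simpa using hmn) (by simpa using hmn)
    p (qq p h) hp hp1 hqp
  rw [card_univ, Fintype.card_fin] at h2
  have hC1 : (0 : ℝ) < (n.choose m : ℝ) := by exact_mod_cast Nat.choose_pos hmn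
  calc _ ≤ (1 / ((n.choose m : ℝ) * p ^ m)) ^ 2 *
        ((qq p h) ^ (m + m) * ((n.choose m : ℝ) * (n.choose m) *
          Real.exp ((1 - p) / p * m * m / n))) :=
        mul_le_mul_of_nonneg_left (h1.trans h2) (by positivity)
    _ = _ := by
        rw [div_pow (qq p h) p (m + m), pow_add p m m]
        field_simp

/-- With `S = ∅`, the number of edges of `F` is at least `h |U|`. -/
lemma card_ge_of_deg (F : Finset (Pair n)) (U : Finset (Fin n)) (h : ℕ)
    (hdeg : ∀ u ∈ U, 2 * h ≤ (F.filter (fun e => u ∈ e.1)).card) : h * U.card ≤ F.card := by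
  have := lost_ge F U h hdeg ∅
  rw [sdiff_empty] at this
  exact this.trans (card_le_card (filter_subset _ _))

lemma meanQ_cliquePoly_nonneg (hp : 0 < p) (m : ℕ) : 0 ≤ meanQ n (cliquePoly n m p) := by
  unfold meanQ
  refine EQ_nonneg n fun Y => ?_
  rw [evalAt_cliquePoly]
  refine mul_nonneg (by positivity) (Finset.sum_nonneg fun A _ => ?_)
  rw [evalAt_mono_eq]; split_ifs <;> norm_num

lemma meanQ_cliquePoly_le (hp : 0 < p) (m h : ℕ) (hm : 2 * h + 1 ≤ m) (hmn : m ≤ n) :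
    meanQ n (cliquePoly n m p) ≤ ((1 / 2) ^ h / p) ^ m := by
  unfold meanQ
  have e1 : (fun (Y : Pair n → Bool) => evalAt (cliquePoly n m p) Y)
      = fun Y => (1 / ((n.choose m : ℝ) * p ^ m)) *
        (∑ A ∈ powersetCard m (univ : Finset (Fin n)), evalAt (mono (cl A)) Y) := by
    funext Y
    rw [evalAt_cliquePoly]
  rw [e1, EQ_smul, EQ_sum]
  have h1 : ∑ A ∈ powersetCard m (univ : Finset (Fin n)), EQ n (fun Y => evalAt (mono (cl A)) Y)
      ≤ ∑ A ∈ powersetCard m (univ : Finset (Fin n)), ((1 / 2 : ℝ) ^ h) ^ m := by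
    refine Finset.sum_le_sum fun A hA => ?_
    have hA' := mem_powersetCard.mp hA
    rw [EQ_mono_eq, ← pow_mul]
    refine pow_le_pow_of_le_one (by norm_num) (by norm_num) ?_
    have := card_ge_of_deg (cl A) A h (fun u hu => by
      have := deg_cl A u hu
      omega)
    rwa [hA'.2] at this
  rw [Finset.sum_const, card_powersetCard, card_univ, Fintype.card_fin, nsmul_eq_mul] at h1
  have hC1 : (0 : ℝ) < (n.choose m : ℝ) := by exact_mod_cast Nat.choose_pos hmn
  calc _ ≤ (1 / ((n.choose m : ℝ) * p ^ m)) * ((n.choose m : ℝ) * ((1 / 2 : ℝ) ^ h) ^ m) :=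
        mul_le_mul_of_nonneg_left h1 (by positivity)
    _ = _ := by rw [div_pow ((1 / 2 : ℝ) ^ h) p m]; field_simp

lemma EQ_sq_cliquePoly_le (hp : 0 < p) (m h : ℕ) (hm : 2 * h + 1 ≤ m) (hmn : m ≤ n) :
    EQ n (fun Y => evalAt (cliquePoly n m p) Y ^ 2) ≤ ((1 / 2) ^ h / p ^ 2) ^ m := by
  have e1 : (fun (Y : Pair n → Bool) => evalAt (cliquePoly n m p) Y ^ 2)
      = fun Y => (1 / ((n.choose m : ℝ) * p ^ m)) ^ 2 *
        (∑ A ∈ powersetCard m (univ : Finset (Fin n)),
          ∑ B ∈ powersetCard m (univ : Finset (Fin n)), evalAt (mono (cl A ∪ cl B)) Y) := by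
    funext Y
    rw [cliquePoly_sq_eq]
  rw [e1, EQ_smul, EQ_sum]
  have h1 : ∑ A ∈ powersetCard m (univ : Finset (Fin n)),
        EQ n (fun Y => ∑ B ∈ powersetCard m (univ : Finset (Fin n)),
          evalAt (mono (cl A ∪ cl B)) Y)
      ≤ ∑ A ∈ powersetCard m (univ : Finset (Fin n)),
          ∑ B ∈ powersetCard m (univ : Finset (Fin n)), ((1 / 2 : ℝ) ^ h) ^ m := by
    refine Finset.sum_le_sum fun A hA => ?_
    rw [EQ_sum]
    refine Finset.sum_le_sum fun B hB => ?_
    have hA' := mem_powersetCard.mp hA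
    have hB' := mem_powersetCard.mp hB
    rw [EQ_mono_eq, ← pow_mul]
    refine pow_le_pow_of_le_one (by norm_num) (by norm_num) ?_
    have h3 := card_ge_of_deg (cl A ∪ cl B) (A ∪ B) h
      (fun u hu => deg_union A B h (by omega) (by omega) u hu)
    refine le_trans ?_ h3
    refine Nat.mul_le_mul_left h ?_
    rw [← hA'.2]
    exact card_le_card subset_union_left
  rw [Finset.sum_const, Finset.sum_const, card_powersetCard, card_univ, Fintype.card_fin,
    nsmul_eq_mul, nsmul_eq_mul] at h1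
  have hC1 : (0 : ℝ) < (n.choose m : ℝ) := by exact_mod_cast Nat.choose_pos hmn
  calc _ ≤ (1 / ((n.choose m : ℝ) * p ^ m)) ^ 2 *
        ((n.choose m : ℝ) * ((n.choose m : ℝ) * ((1 / 2 : ℝ) ^ h) ^ m)) :=
        mul_le_mul_of_nonneg_left h1 (by positivity)
    _ = _ := by
        rw [div_pow ((1 / 2 : ℝ) ^ h) (p ^ 2) m, ← pow_mul p 2 m, mul_comm 2 m, pow_mul p m 2]
        field_simp

lemma varP_cliquePoly_le (hp : 0 < p) (hp1 : p ≤ 1) (m h : ℕ) (hm : 2 * h + 1 ≤ m)
    (hmn : m ≤ n) :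
    varP n p (cliquePoly n m p)
      ≤ (qq p h / p) ^ (m + m) * Real.exp ((1 - p) / p * m * m / n) - 1 := by
  rw [varP_eq]
  have h1 := EP_sq_cliquePoly_le hp hp1 m h hm hmn
  have h2 := meanP_cliquePoly_ge hp hp1 m hmn
  nlinarith

lemma varQ_cliquePoly_le (hp : 0 < p) (m h : ℕ) (hm : 2 * h + 1 ≤ m) (hmn : m ≤ n) :
    varQ n (cliquePoly n m p) ≤ ((1 / 2) ^ h / p ^ 2) ^ m :=
  (varQ_le n _).trans (EQ_sq_cliquePoly_le hp m h hm hmn)

/-! ### The recovery bound -/

lemma exp_le_quad {x : ℝ} (h0 : 0 ≤ x) (h1 : x ≤ 1) : Real.exp x ≤ 1 + x + x ^ 2 := by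
  have := Real.abs_exp_sub_one_sub_id_le (x := x) (by rw [abs_of_nonneg h0]; exact h1)
  have := (abs_le.mp this).2
  linarith

/-- The estimator `2 R_{2h} - R_{4h}`. -/
noncomputable def estPoly (n h : ℕ) (p : ℝ) (v : Fin n) : MvPolynomial (Pair n) ℝ :=
  MvPolynomial.C 2 * rootPoly n (2 * h) p v - rootPoly n (4 * h) p v

lemma totalDegree_estPoly (n h : ℕ) (p : ℝ) (v : Fin n) :
    (estPoly n h p v).totalDegree ≤ (4 * h + 1).choose 2 := by
  unfold estPoly
  refine (MvPolynomial.totalDegree_sub _ _).trans ?_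
  refine max_le ?_ (totalDegree_rootPoly _ _ _ _)
  refine (totalDegree_C_mul_le _ _).trans ((totalDegree_rootPoly _ _ _ _).trans ?_)
  exact Nat.choose_le_choose 2 (by omega)

lemma mmse_bound (hp : 0 < p) (hp1 : p ≤ 1) (v : Fin n) (h : ℕ) (hn : 4 * h ≤ n - 1)
    (u r : ℝ) (hu : u = (1 - p) / p * (2 * h) * (2 * h) / (n - 1 : ℕ)) (hu1 : 4 * u ≤ 1)
    (hr : r = (qq p h / p) ^ (8 * h)) :
    mmse n ((4 * h + 1).choose 2) p v
      ≤ p * (35 * (r - 1) + 20 * u ^ 2) + (1 / 2) ^ h * (30 * r) := by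
  refine (mmse_le hp.le hp1 v (estPoly n h p v) (totalDegree_estPoly n h p v)).trans ?_
  set R := fun Y => evalAt (rootPoly n (2 * h) p v) Y with hR
  set L := fun Y => evalAt (rootPoly n (4 * h) p v) Y with hL
  have hqp := qq_ge hp1 h
  have hratio : 1 ≤ qq p h / p := by rw [le_div_iff₀ hp]; linarith
  have hr1 : 1 ≤ r := by rw [hr]; exact one_le_pow₀ hratio
  have hu0 : 0 ≤ u := by
    rw [hu]
    have : 0 ≤ 1 - p := by linarith
    positivity
  -- pointwise expansion
  have hpt : ∀ (S : Finset (Fin n)) (Y : Pair n → Bool),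
      (evalAt (estPoly n h p v) Y - if v ∈ S then 1 else 0) ^ 2
        ≤ 4 * ((if v ∈ S then 1 else 0) * (R Y * R Y))
          + (((if v ∈ S then 1 else 0) * (L Y * L Y))
          + ((-4) * ((if v ∈ S then 1 else 0) * (R Y * L Y))
          + ((-4) * ((if v ∈ S then 1 else 0) * R Y)
          + (2 * ((if v ∈ S then 1 else 0) * L Y)
          + ((if v ∈ S then 1 else 0)
          + (8 * ((if v ∈ S then 0 else 1) * (R Y * R Y))
          + 2 * ((if v ∈ S then 0 else 1) * (L Y * L Y)))))))) := by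
    intro S Y
    have : evalAt (estPoly n h p v) Y = 2 * R Y - L Y := by
      unfold estPoly
      rw [evalAt_sub, evalAt_C_mul]
    rw [this]
    by_cases hS : v ∈ S
    · simp only [hS, if_true]
      apply le_of_eq; ring
    · simp only [hS, if_false]
      nlinarith [sq_nonneg (2 * R Y + L Y)]
  refine (EP_mono hp.le hp1 hpt).trans ?_
  rw [EP_add, EP_add, EP_add, EP_add, EP_add, EP_add, EP_add]
  rw [EP_smul, EP_smul, EP_smul, EP_smul, EP_smul, EP_smul, EP_indicator]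
  have b1 := EP_in_mul_le hp hp1 v (2 * h) (2 * h) h (by omega) (by omega) (by omega) (by omega)
  have b2 := EP_in_mul_le hp hp1 v (4 * h) (4 * h) h (by omega) (by omega) (by omega) (by omega)
  have b3 := EP_in_mul_ge hp hp1 v (2 * h) (4 * h) (by omega) (by omega)
  have b4 := EP_in_one_ge hp hp1 v (2 * h) (by omega)
  have b5 := EP_in_one_le hp hp1 v (4 * h) h (by omega) (by omega)
  have b6 := EP_out_sq_le hp hp1 v (2 * h) h (by omega) (by omega)
  have b7 := EP_out_sq_le hp hp1 v (4 * h) h (by omega) (by omega)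
  -- identify the exponents
  have x1 : (1 - p) / p * ((2 * h : ℕ) : ℝ) * ((2 * h : ℕ) : ℝ) / ((n - 1 : ℕ) : ℝ) = u := by
    rw [hu]; push_cast; ring
  have x2 : (1 - p) / p * ((4 * h : ℕ) : ℝ) * ((4 * h : ℕ) : ℝ) / ((n - 1 : ℕ) : ℝ) = 4 * u := by
    rw [hu]; push_cast; ring
  have x3 : (1 - p) / p * ((2 * h : ℕ) : ℝ) * ((4 * h : ℕ) : ℝ) / ((n - 1 : ℕ) : ℝ) = 2 * u := by
    rw [hu]; push_cast; ring
  rw [x1] at b1 b6
  rw [x2] at b2 b7
  rw [x3] at b3
  have p1 : (qq p h / p) ^ (2 * h + 2 * h) ≤ r := by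
    rw [hr]; exact pow_le_pow_right₀ hratio (by omega)
  have p2 : (qq p h / p) ^ (4 * h + 4 * h) ≤ r := by
    rw [hr]; exact pow_le_pow_right₀ hratio (by omega)
  have p3 : (qq p h / p) ^ (4 * h) ≤ r := by
    rw [hr]; exact pow_le_pow_right₀ hratio (by omega)
  have g1 := exp_le_quad hu0 (by linarith : u ≤ 1)
  have g2 := exp_le_quad (by linarith : 0 ≤ 4 * u) hu1
  have hκ : (0 : ℝ) < (1 / 2) ^ h := by positivity
  have c1 : EP n p (fun S Y => (if v ∈ S then 1 else 0) * (R Y * R Y))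
      ≤ p * (r * (1 + u + u ^ 2)) := by
    refine b1.trans ?_
    rw [mul_assoc]
    have := Real.exp_pos u
    gcongr
  have c2 : EP n p (fun S Y => (if v ∈ S then 1 else 0) * (L Y * L Y))
      ≤ p * (r * (1 + 4 * u + (4 * u) ^ 2)) := by
    refine b2.trans ?_
    rw [mul_assoc]
    gcongr
  have c5 : EP n p (fun S Y => (if v ∈ S then 1 else 0) * L Y) ≤ p * r := by
    refine b5.trans ?_
    gcongr
  have c6 : EP n p (fun S Y => (if v ∈ S then 0 else 1) * (R Y * R Y))
      ≤ (1 / 2) ^ h * (r * 3) := by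
    refine b6.trans ?_
    rw [mul_assoc]
    have : Real.exp u ≤ 3 := by nlinarith
    gcongr
  have c7 : EP n p (fun S Y => (if v ∈ S then 0 else 1) * (L Y * L Y))
      ≤ (1 / 2) ^ h * (r * 3) := by
    refine b7.trans ?_
    rw [mul_assoc]
    have : Real.exp (4 * u) ≤ 3 := by nlinarith
    gcongr
  have final1 : 4 * (r * (1 + u + u ^ 2)) + r * (1 + 4 * u + (4 * u) ^ 2) - 4 * (1 + 2 * u) - 4
      + 2 * r + 1 ≤ 35 * (r - 1) + 20 * u ^ 2 := by
    have hu2 : u ^ 2 ≤ 1 / 4 := by nlinarith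
    nlinarith [mul_nonneg (by linarith : 0 ≤ r - 1) hu0,
      mul_nonneg (by linarith : 0 ≤ r - 1) (by linarith : 0 ≤ 1 - 4 * u),
      mul_nonneg (by linarith : 0 ≤ r - 1) (by linarith : 0 ≤ 1 / 4 - u ^ 2)]
  have final2 := mul_le_mul_of_nonneg_left final1 hp.le
  nlinarith [c1, c2, c5, c6, c7, b3, b4, final2]

end DetectMoments

end Pool.Agent.Work.MP_d47e79_lc
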