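import Pool.Agent.Work.MP_d47e79_lc.CyclePoly

namespace Pool.Agent.Work.MP_d47e79_lc

open Finset

section Estimate2

variable {n : ℕ}

/-- The second moment bound. -/
noncomputable def Ub (p : ℝ) (c m l0 : ℕ) (n1 N y ρ I : ℝ) : ℝ :=
  (qq p l0 / p) ^ (c + c) * Real.exp ((1 - p) / p * c * c / n1) * Mfac m N y ρ I

lemma prod_in (v : Fin n) (S : Finset (Fin n)) :
    (∏ u, if u ∈ S then (fun _ => (1 : ℝ)) u else (fun u => if u ∈ ({v} : Finset (Fin n)) then (0 : ℝ) else 1) u)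
      = if v ∈ S then 1 else 0 := by
  by_cases hS : v ∈ S
  · rw [if_pos hS]
    refine Finset.prod_eq_one fun u _ => ?_
    by_cases hu : u ∈ S
    · simp [hu]
    · have : u ≠ v := fun h => hu (h ▸ hS)
      simp [this]
  · rw [if_neg hS]
    exact Finset.prod_eq_zero (mem_univ v) (by simp [hS])

lemma prod_out (v : Fin n) (S : Finset (Fin n)) :
    (∏ u, if u ∈ S then (fun u => if u ∈ ({v} : Finset (Fin n)) then (0 : ℝ) else 1) u else (fun _ => (1 : ℝ)) u)
      = if v ∈ S then 0 else 1 := by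
  by_cases hS : v ∈ S
  · rw [if_pos hS]
    exact Finset.prod_eq_zero (mem_univ v) (by simp [hS])
  · rw [if_neg hS]
    refine Finset.prod_eq_one fun u _ => ?_
    by_cases hu : u ∈ S
    · have : u ≠ v := fun h => hS (h ▸ hu)
      simp [this]
    · simp [hu]

/-- The estimator. -/
noncomputable def est2 (n c m : ℕ) (p : ℝ) (v : Fin n) (V1 V2 : Finset (Fin n)) :
    MvPolynomial (Pair n) ℝ :=
  MvPolynomial.C 2 * cyclePoly n c m p {v} V1 V2 - cyclePoly n (2 * c) (2 * m + 1) p {v} V1 V2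

lemma totalDegree_est2 (c m : ℕ) (p : ℝ) (v : Fin n) (V1 V2 : Finset (Fin n)) :
    (est2 n c m p v V1 V2).totalDegree ≤ (2 * m + 2) * (2 * c + 2) := by
  unfold est2
  refine (MvPolynomial.totalDegree_sub _ _).trans ?_
  refine max_le ?_ ?_
  · refine (totalDegree_C_mul_le _ _).trans ((totalDegree_cyclePoly _ _ _ _ _ _).trans ?_)
    rw [card_singleton]
    exact Nat.mul_le_mul (by omega) (by omega)
  · refine (totalDegree_cyclePoly _ _ _ _ _ _).trans ?_
    rw [card_singleton]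
    exact Nat.mul_le_mul (by omega) (by omega)

lemma mmse_bound2 {p : ℝ} (hp : 0 < p) (hp1 : p ≤ 1) (v : Fin n) (c m c0 l0 : ℕ) (hm : 1 ≤ m)
    (hc : 2 * c0 ≤ c) (hl0 : 2 * l0 ≤ m + 1)
    (V1 V2 : Finset (Fin n)) (hv1 : v ∉ V1) (hv2 : v ∉ V2)
    (hV : Disjoint V1 V2) (hcV : 2 * c ≤ V1.card) (hmV : 2 * m + 2 ≤ V2.card)
    (y ρ : ℝ) (hy : y = 1 / (p * V2.card))
    (hρ : ρ = 2 * y * ((p + (1 - p) * (1 / 2) ^ c0) / p)) (hρ2 : ρ ≤ 1 / 2) (D : ℕ)
    (hD : (2 * m + 2) * (2 * c + 2) ≤ D) :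
    mmse n D p v
      ≤ p * (4 * Ub p c m l0 V1.card V2.card y ρ (injTo n m V2).card
            + Ub p (2 * c) (2 * m + 1) l0 V1.card V2.card y ρ (injTo n (2 * m + 1) V2).card
            - 4 * ((1 + (1 - p) / p * c * (2 * c : ℕ) / V1.card) *
                (1 + (1 - p) / p * (m + 1 : ℕ) * (2 * m + 1 + 1 : ℕ) / V2.card))
            - 3 + 2 * (qq p l0 / p) ^ (2 * c))
        + (1 / 2) ^ l0 * (8 * Ub p c m l0 V1.card V2.card y ρ (injTo n m V2).card
            + 2 * Ub p (2 * c) (2 * m + 1) l0 V1.card V2.card y ρ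
              (injTo n (2 * m + 1) V2).card) := by
  refine (mmse_le hp.le hp1 v (est2 n c m p v V1 V2)
    ((totalDegree_est2 c m p v V1 V2).trans hD)).trans ?_
  set R := fun Y => evalAt (cyclePoly n c m p {v} V1 V2) Y with hR
  set L := fun Y => evalAt (cyclePoly n (2 * c) (2 * m + 1) p {v} V1 V2) Y with hL
  have h1p : 0 ≤ 1 - p := by linarith
  have hRV1 : Disjoint ({v} : Finset (Fin n)) V1 := by simpa using hv1
  have hRV2 : Disjoint ({v} : Finset (Fin n)) V2 := by simpa using hv2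
  have hpt : ∀ (S : Finset (Fin n)) (Y : Pair n → Bool),
      (evalAt (est2 n c m p v V1 V2) Y - if v ∈ S then 1 else 0) ^ 2
        ≤ 4 * ((if v ∈ S then 1 else 0) * (R Y * R Y))
          + (((if v ∈ S then 1 else 0) * (L Y * L Y))
          + ((-4) * ((if v ∈ S then 1 else 0) * (R Y * L Y))
          + ((-4) * ((if v ∈ S then 1 else 0) * R Y)
          + (2 * ((if v ∈ S then 1 else 0) * L Y)
          + ((if v ∈ S then 1 else 0)
          + (8 * ((if v ∈ S then 0 else 1) * (R Y * R Y))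
          + 2 * ((if v ∈ S then 0 else 1) * (L Y * L Y)))))))) := by
    intro S Y
    have : evalAt (est2 n c m p v V1 V2) Y = 2 * R Y - L Y := by
      unfold est2
      rw [evalAt_sub, evalAt_C_mul]
    rw [this]
    by_cases hS : v ∈ S
    · simp only [hS, if_true]
      apply le_of_eq; ring
    · simp only [hS, if_false]
      nlinarith [sq_nonneg (2 * R Y + L Y)]
  refine (EP_mono hp.le hp1 hpt).trans ?_
  rw [EP_add, EP_add, EP_add, EP_add, EP_add, EP_add, EP_add]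
  rw [EP_smul, EP_smul, EP_smul, EP_smul, EP_smul, EP_smul, EP_indicator]
  -- weights
  set a1 : Fin n → ℝ := fun _ => (1 : ℝ) with ha1
  set b1 : Fin n → ℝ := fun u => if u ∈ ({v} : Finset (Fin n)) then (0 : ℝ) else 1 with hb1
  have ha1n : ∀ u, 0 ≤ a1 u := fun u => by rw [ha1]; norm_num
  have hb1n : ∀ u, 0 ≤ b1 u := fun u => by rw [hb1]; simp only; split_ifs <;> norm_num
  have ha1R : ∀ u, u ∉ ({v} : Finset (Fin n)) → a1 u = 1 := fun u _ => rfl
  have hb1R : ∀ u, u ∉ ({v} : Finset (Fin n)) → b1 u = 1 := fun u hu => by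
    rw [hb1]; simp only; rw [if_neg hu]
  have rin : ∀ τ : ℝ, rootFac p τ {v} a1 b1 = p := by
    intro τ; unfold rootFac; rw [prod_singleton, ha1, hb1]; simp
  have rout : rootFac p ((1 / 2) ^ l0) {v} b1 a1 ≤ (1 / 2) ^ l0 := by
    unfold rootFac; rw [prod_singleton, ha1, hb1]
    have : (0 : ℝ) ≤ (1 / 2) ^ l0 := by positivity
    simp only [mem_singleton, if_true, mul_zero, zero_add, mul_one]
    nlinarith
  have pin : ∀ S : Finset (Fin n), (∏ u, if u ∈ S then a1 u else b1 u) = if v ∈ S then 1 else 0 :=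
    fun S => prod_in v S
  have pout : ∀ S : Finset (Fin n), (∏ u, if u ∈ S then b1 u else a1 u) = if v ∈ S then 0 else 1 :=
    fun S => prod_out v S
  have B1 := EP_cycle_sq_le hp hp1 c m c0 l0 hm hc hl0 {v} V1 V2 hRV1 hRV2 hV (by omega) (by omega)
    a1 b1 ha1n hb1n ha1R hb1R y ρ hy hρ hρ2
  have B2 := EP_cycle_sq_le hp hp1 (2 * c) (2 * m + 1) c0 l0 (by omega) (by omega) (by omega)
    {v} V1 V2 hRV1 hRV2 hV hcV (by omega) a1 b1 ha1n hb1n ha1R hb1R y ρ hy hρ hρ2
  have B3 := EP_cycle_mul_ge hp hp1 c (2 * c) m (2 * m + 1) {v} V1 V2 hRV1 hRV2 hV (by omega) hcV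
    (by omega) (by omega) a1 b1 ha1n hb1n ha1R hb1R
  have B4 := EP_cycle_one_ge hp hp1 c m {v} V1 V2 hRV1 hRV2 hV (by omega)
    (by omega) a1 b1 ha1n hb1n ha1R hb1R
  have B5 := EP_cycle_one_le hp hp1 (2 * c) (2 * m + 1) l0 (by omega) (by omega) {v} V1 V2
    hRV1 hRV2 hV hcV (by omega) a1 b1 ha1n hb1n ha1R hb1R
  have B6 := EP_cycle_sq_le hp hp1 c m c0 l0 hm hc hl0 {v} V1 V2 hRV1 hRV2 hV (by omega) (by omega)
    b1 a1 hb1n ha1n hb1R ha1R y ρ hy hρ hρ2
  have B7 := EP_cycle_sq_le hp hp1 (2 * c) (2 * m + 1) c0 l0 (by omega) (by omega) (by omega)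
    {v} V1 V2 hRV1 hRV2 hV hcV (by omega) b1 a1 hb1n ha1n hb1R ha1R y ρ hy hρ hρ2
  simp only [pin, rin] at B1 B2 B3 B4 B5
  simp only [pout] at B6 B7
  have hqp := qq_ge hp1 l0
  have hq : 0 < qq p l0 := lt_of_lt_of_le hp hqp
  have hI1 : (0 : ℝ) ≤ (injTo n m V2).card := by positivity
  have hI2 : (0 : ℝ) ≤ (injTo n (2 * m + 1) V2).card := by positivity
  have hy0 : 0 ≤ y := by rw [hy]; positivity
  have hρ0 : 0 ≤ ρ := by rw [hρ]; positivity
  have U1n : 0 ≤ Ub p c m l0 V1.card V2.card y ρ (injTo n m V2).card := by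
    unfold Ub Mfac; positivity
  have U2n : 0 ≤ Ub p (2 * c) (2 * m + 1) l0 V1.card V2.card y ρ
      (injTo n (2 * m + 1) V2).card := by
    unfold Ub Mfac; positivity
  have c1 : EP n p (fun S Y => (if v ∈ S then 1 else 0) * (R Y * R Y))
      ≤ p * Ub p c m l0 V1.card V2.card y ρ (injTo n m V2).card := by
    refine B1.trans (le_of_eq ?_)
    unfold Ub; ring
  have c2 : EP n p (fun S Y => (if v ∈ S then 1 else 0) * (L Y * L Y))
      ≤ p * Ub p (2 * c) (2 * m + 1) l0 V1.card V2.card y ρ (injTo n (2 * m + 1) V2).card := by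
    refine B2.trans (le_of_eq ?_)
    unfold Ub; ring
  have c6 : EP n p (fun S Y => (if v ∈ S then 0 else 1) * (R Y * R Y))
      ≤ (1 / 2) ^ l0 * Ub p c m l0 V1.card V2.card y ρ (injTo n m V2).card := by
    refine B6.trans ?_
    have := mul_le_mul_of_nonneg_right rout U1n
    refine le_trans (le_of_eq ?_) this
    unfold Ub; ring
  have c7 : EP n p (fun S Y => (if v ∈ S then 0 else 1) * (L Y * L Y))
      ≤ (1 / 2) ^ l0 * Ub p (2 * c) (2 * m + 1) l0 V1.card V2.card y ρ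
        (injTo n (2 * m + 1) V2).card := by
    refine B7.trans ?_
    have := mul_le_mul_of_nonneg_right rout U2n
    refine le_trans (le_of_eq ?_) this
    unfold Ub; ring
  nlinarith [c1, c2, B3, B4, B5, c6, c7]

lemma plant_empty (Z : Pair n → Bool) : plant ∅ Z = Z := by
  funext e
  unfold plant
  have : ¬ (e.1 ⊆ ∅) := by
    intro h
    have := Finset.subset_empty.mp h
    have h2 := e.2
    rw [this] at h2
    simp at h2
  simp [this]

/-- Under the null distribution a pair contributes only if all edges are shared. -/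
lemma EQ_null_pair {m : ℕ} (hm : 1 ≤ m) (c0 l0 : ℕ) (hl0 : 2 * l0 ≤ m + 1)
    (T T' V1 V2 : Finset (Fin n)) (hV : Disjoint V1 V2)
    (hT : T ⊆ V1) (hT' : T' ⊆ V1) (hcT : 2 * c0 ≤ T.card) (hcT' : 2 * c0 ≤ T'.card)
    (w w' : Fin (m + 1) → Fin n) (hw : Function.Injective w) (hw' : Function.Injective w')
    (hwV : ∀ i, w i ∈ V2) (hwV' : ∀ i, w' i ∈ V2) :
    EQ n (fun Z => evalAt (term (cross (univ.image w) (∅ ∪ T)) (cyc w)) Z *
        evalAt (term (cross (univ.image w') (∅ ∪ T')) (cyc w')) Z)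
      ≤ if (∀ i, shb w w' i = true) then ((1 / 2) ^ c0) ^ (m + 1) * ((1 / 2) ^ l0) ^ T.card else 0 := by
  have h := EQ_pair_le hm c0 l0 hl0 ∅ T T' V1 V2 (disjoint_empty_left _) hV hT hT' hcT hcT'
    w w' hw hw' hwV hwV' ∅
  simp only [plant_empty] at h
  refine h.trans ?_
  have e1 : ∏ u, (if u ∈ (∅ : Finset (Fin n)) then (1 : ℝ) else fac c0 l0 (∅ ∪ (T ∪ T')) w w' u)
      = ∏ u, fac c0 l0 (∅ ∪ (T ∪ T')) w w' u := by
    refine Finset.prod_congr rfl fun u _ => ?_
    simp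
  rw [e1]
  split_ifs with hs
  · have hint : intv w w' = univ.image w' := by
      refine Finset.Subset.antisymm (intv_subset w w') ?_
      intro x hx
      obtain ⟨j, _, rfl⟩ := mem_image.mp hx
      unfold intv
      rw [mem_image]
      exact ⟨j - 1, by simp [hs], by rw [sub_add_cancel]⟩
    have hWV' : univ.image w' ⊆ V2 := by
      intro x hx; obtain ⟨i, _, rfl⟩ := mem_image.mp hx; exact hwV' i
    have hWV : univ.image w ⊆ V2 := by
      intro x hx; obtain ⟨i, _, rfl⟩ := mem_image.mp hx; exact hwV i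
    have hd : Disjoint (univ.image w') T := (hV.symm.mono_left hWV').mono_right hT
    have hfac1 : ∀ u, fac c0 l0 (∅ ∪ (T ∪ T')) w w' u ≤ 1 := by
      intro u; unfold fac
      split_ifs
      · exact pow_le_one₀ (by norm_num) (by norm_num)
      · norm_num
      · exact pow_le_one₀ (by norm_num) (by norm_num)
      · norm_num
    rw [← Finset.prod_sdiff (Finset.subset_univ (univ.image w' ∪ T))]
    have e2 : ∏ x ∈ univ \ (univ.image w' ∪ T), fac c0 l0 (∅ ∪ (T ∪ T')) w w' x ≤ 1 :=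
      Finset.prod_le_one (fun u _ => fac_nonneg _ _ _ _ _ _) (fun u _ => hfac1 u)
    have e3 : ∏ x ∈ univ.image w' ∪ T, fac c0 l0 (∅ ∪ (T ∪ T')) w w' x
        = ((1 / 2) ^ c0) ^ (m + 1) * ((1 / 2) ^ l0) ^ T.card := by
      rw [Finset.prod_union hd]
      congr 1
      · have hpc : ∏ x ∈ univ.image w', fac c0 l0 (∅ ∪ (T ∪ T')) w w' x
            = ∏ x ∈ univ.image w', (1 / 2 : ℝ) ^ c0 := by
          refine Finset.prod_congr rfl fun u hu => ?_
          unfold fac
          rw [hint, if_pos hu]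
        rw [hpc, Finset.prod_const, card_image_inj hw']
      · rw [← Finset.prod_const]
        refine Finset.prod_congr rfl fun u hu => ?_
        unfold fac
        have hu' : u ∉ univ.image w' := fun h => Finset.disjoint_left.mp hd h hu
        have hu'' : u ∉ univ.image w := fun h => Finset.disjoint_left.mp hV (hT hu) (hWV h)
        rw [hint, if_neg hu', if_neg, if_pos]
        · simp [hu]
        · rw [mem_union, not_or]; exact ⟨hu'', hu'⟩
    rw [e3]
    have : (0 : ℝ) ≤ ((1 / 2) ^ c0) ^ (m + 1) * ((1 / 2) ^ l0) ^ T.card := by positivity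
    nlinarith
  · push Not at hs
    obtain ⟨i, hi⟩ := hs
    apply le_of_eq
    refine Finset.prod_eq_zero (mem_univ (w' i)) ?_
    unfold fac
    rw [if_neg, if_pos]
    · exact mem_union_right _ (mem_image_of_mem w' (mem_univ _))
    · intro hI
      unfold intv at hI
      obtain ⟨j, hj, hji⟩ := mem_image.mp hI
      have := hw' hji
      rw [mem_filter, this] at hj
      exact hi hj.2.2

lemma meanQ_cycle {m : ℕ} (hm : 1 ≤ m) (c : ℕ) (p : ℝ) (V1 V2 : Finset (Fin n))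
    (hV : Disjoint V1 V2) : meanQ n (cyclePoly n c m p ∅ V1 V2) = 0 := by
  unfold meanQ
  have e1 : (fun Y => evalAt (cyclePoly n c m p ∅ V1 V2) Y)
      = fun Y => nrm c m p V1 V2 * ∑ T ∈ powersetCard c V1, ∑ w ∈ injTo n m V2,
        evalAt (term (cross (univ.image w) (∅ ∪ T)) (cyc w)) Y := by
    funext Y; rw [evalAt_cyclePoly]
  rw [e1, EQ_smul, EQ_sum]
  have e2 : ∀ T ∈ powersetCard c V1, EQ n (fun Y => ∑ w ∈ injTo n m V2,
        evalAt (term (cross (univ.image w) (∅ ∪ T)) (cyc w)) Y) = 0 := by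
    intro T hT
    rw [EQ_sum]
    refine Finset.sum_eq_zero fun w hw => ?_
    have hw1 := mem_injTo.mp hw
    have hd := cross_disjoint_cyc (A := univ.image w) (T := ∅ ∪ T) (V := V2)
      (by rw [empty_union]; exact hV.mono_left (mem_powersetCard.mp hT).1) hw1.2
    have h1 := EQ_term_mul ∅ (cross (univ.image w) (∅ ∪ T)) (cyc w) ∅ ∅
      (by rw [union_empty, union_empty]; exact hd)
    simp only [plant_empty] at h1
    have h2 : (fun Z => evalAt (term (cross (univ.image w) (∅ ∪ T)) (cyc w)) Z *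
          evalAt (term ∅ ∅) Z)
          = fun Z => evalAt (term (cross (univ.image w) (∅ ∪ T)) (cyc w)) Z := by
        funext Z
        have : evalAt (term (∅ : Finset (Pair n)) ∅) Z = 1 := by
          rw [evalAt_term]; simp
        rw [this, mul_one]
    rw [h2] at h1
    rw [h1, if_neg]
    rintro ⟨h3, _⟩
    have hne : w 0 ≠ w (0 + 1) := fun h => add_one_ne_self hm 0 (hw1.1 h)
    have h4 := h3 ⟨{w 0, w (0 + 1)}, card_pair hne⟩ (mem_cyc.mpr ⟨0, rfl⟩) (by simp)
    have h5 : w 0 ∈ (∅ : Finset (Fin n)) := h4 (by simp)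
    simp at h5
  rw [Finset.sum_eq_zero e2, mul_zero]

lemma EQ_sq_cycle {m : ℕ} {p : ℝ} (hp : 0 < p) (hm : 1 ≤ m) (c c0 l0 : ℕ) (hc : 2 * c0 ≤ c)
    (hl0 : 2 * l0 ≤ m + 1)
    (V1 V2 : Finset (Fin n)) (hV : Disjoint V1 V2) (hcV : c ≤ V1.card) (hmV : m + 1 ≤ V2.card) :
    EQ n (fun Y => evalAt (cyclePoly n c m p ∅ V1 V2) Y ^ 2)
      ≤ ((1 / 2) ^ l0 / p ^ 2) ^ c * ((m + 1) * (2 * (1 / 2) ^ c0 / p ^ 2) ^ (m + 1) /
          (injTo n m V2).card) := by
  have e1 : (fun Y => evalAt (cyclePoly n c m p ∅ V1 V2) Y ^ 2)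
      = fun Y => (nrm c m p V1 V2) ^ 2 * (∑ T ∈ powersetCard c V1, ∑ T' ∈ powersetCard c V1,
          ∑ w ∈ injTo n m V2, ∑ w' ∈ injTo n m V2,
            (evalAt (term (cross (univ.image w) (∅ ∪ T)) (cyc w)) Y *
             evalAt (term (cross (univ.image w') (∅ ∪ T')) (cyc w')) Y)) := by
    funext Y
    rw [evalAt_cyclePoly, mul_pow]
    congr 1
    rw [sq, Finset.sum_mul_sum]
    refine Finset.sum_congr rfl fun T _ => ?_
    refine Finset.sum_congr rfl fun T' _ => ?_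
    rw [Finset.sum_mul_sum]
  rw [e1, EQ_smul, EQ_sum]
  set κ : ℝ := (1 / 2) ^ c0 with hκ
  set τ : ℝ := (1 / 2) ^ l0 with hτ
  have hin : ∀ T ∈ powersetCard c V1,
      EQ n (fun Y => ∑ T' ∈ powersetCard c V1,
          ∑ w ∈ injTo n m V2, ∑ w' ∈ injTo n m V2,
            (evalAt (term (cross (univ.image w) (∅ ∪ T)) (cyc w)) Y *
             evalAt (term (cross (univ.image w') (∅ ∪ T')) (cyc w')) Y))
        ≤ (V1.card.choose c : ℝ) * ((injTo n m V2).card * (((m + 1) * 2 ^ m) *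
            (κ ^ (m + 1) * τ ^ c))) := by
    intro T hT
    have hT1 := mem_powersetCard.mp hT
    rw [EQ_sum]
    have h2 : ∀ T' ∈ powersetCard c V1,
        EQ n (fun Y => ∑ w ∈ injTo n m V2, ∑ w' ∈ injTo n m V2,
            (evalAt (term (cross (univ.image w) (∅ ∪ T)) (cyc w)) Y *
             evalAt (term (cross (univ.image w') (∅ ∪ T')) (cyc w')) Y))
        ≤ (injTo n m V2).card * (((m + 1) * 2 ^ m) * (κ ^ (m + 1) * τ ^ c)) := by
      intro T' hT'
      have hT1' := mem_powersetCard.mp hT'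
      rw [EQ_sum]
      have h3 : ∀ w ∈ injTo n m V2,
          EQ n (fun Y => ∑ w' ∈ injTo n m V2,
            (evalAt (term (cross (univ.image w) (∅ ∪ T)) (cyc w)) Y *
             evalAt (term (cross (univ.image w') (∅ ∪ T')) (cyc w')) Y))
          ≤ ((m + 1) * 2 ^ m) * (κ ^ (m + 1) * τ ^ c) := by
        intro w hw
        have hw1 := mem_injTo.mp hw
        rw [EQ_sum]
        have h4 : ∀ w' ∈ injTo n m V2,
            EQ n (fun Y => (evalAt (term (cross (univ.image w) (∅ ∪ T)) (cyc w)) Y *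
             evalAt (term (cross (univ.image w') (∅ ∪ T')) (cyc w')) Y))
            ≤ if (∀ i, shb w w' i = true) then κ ^ (m + 1) * τ ^ c else 0 := by
          intro w' hw'
          have hw1' := mem_injTo.mp hw'
          have := EQ_null_pair hm c0 l0 hl0 T T' V1 V2 hV hT1.1 hT1'.1 (by rw [hT1.2]; exact hc)
            (by rw [hT1'.2]; exact hc) w w' hw1.1 hw1'.1 hw1.2 hw1'.2
          rw [hT1.2] at this
          exact this
        refine (Finset.sum_le_sum h4).trans ?_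
        rw [← Finset.sum_filter, Finset.sum_const, nsmul_eq_mul]
        have := card_all_shared hm V2 w hw
        have h0 : (0 : ℝ) ≤ κ ^ (m + 1) * τ ^ c := by positivity
        exact mul_le_mul_of_nonneg_right this h0
      refine (Finset.sum_le_sum h3).trans (le_of_eq ?_)
      rw [Finset.sum_const, nsmul_eq_mul]
    refine (Finset.sum_le_sum h2).trans (le_of_eq ?_)
    rw [Finset.sum_const, nsmul_eq_mul, card_powersetCard]
  have hout := Finset.sum_le_sum hin
  rw [Finset.sum_const, nsmul_eq_mul, card_powersetCard] at hout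
  have hC1 : (0 : ℝ) < (V1.card.choose c : ℝ) := by exact_mod_cast Nat.choose_pos hcV
  have hI : (0 : ℝ) < (injTo n m V2).card := by
    rw [card_injTo]
    exact_mod_cast Nat.descFactorial_pos.mpr hmV
  refine (mul_le_mul_of_nonneg_left hout (by positivity)).trans ?_
  unfold nrm
  have hk : (0 : ℝ) ≤ κ ^ (m + 1) * τ ^ c := by positivity
  calc (1 / ((V1.card.choose c : ℝ) * p ^ c * ((injTo n m V2).card * p ^ (m + 1)))) ^ 2 *
        ((V1.card.choose c : ℝ) * ((V1.card.choose c : ℝ) * ((injTo n m V2).card *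
          (((m + 1) * 2 ^ m) * (κ ^ (m + 1) * τ ^ c)))))
      = (τ ^ c / (p ^ c) ^ 2) * (((m : ℝ) + 1) * (2 ^ m * κ ^ (m + 1) / (p ^ (m + 1)) ^ 2) /
          (injTo n m V2).card) := by
        field_simp
    _ ≤ (τ ^ c / (p ^ c) ^ 2) * (((m : ℝ) + 1) * (2 ^ (m + 1) * κ ^ (m + 1) / (p ^ (m + 1)) ^ 2) /
          (injTo n m V2).card) := by
        gcongr
        · norm_num
        · omega
    _ = (τ / p ^ 2) ^ c * (((m : ℝ) + 1) * (2 * κ / p ^ 2) ^ (m + 1) / (injTo n m V2).card) := by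
        rw [div_pow τ, div_pow (2 * κ), mul_pow 2 κ, ← pow_mul, ← pow_mul, ← pow_mul, ← pow_mul]
        ring

lemma varP_cycle {m : ℕ} {p : ℝ} (hp : 0 < p) (hp1 : p ≤ 1) (hm : 1 ≤ m) (c c0 l0 : ℕ)
    (hc : 2 * c0 ≤ c) (hl0 : 2 * l0 ≤ m + 1)
    (V1 V2 : Finset (Fin n)) (hV : Disjoint V1 V2) (hcV : c ≤ V1.card) (hmV : m + 1 ≤ V2.card)
    (y ρ : ℝ) (hy : y = 1 / (p * V2.card))
    (hρ : ρ = 2 * y * ((p + (1 - p) * (1 / 2) ^ c0) / p)) (hρ2 : ρ ≤ 1 / 2) :
    1 ≤ meanP n p (cyclePoly n c m p ∅ V1 V2) ∧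
    varP n p (cyclePoly n c m p ∅ V1 V2)
      ≤ Ub p c m l0 V1.card V2.card y ρ (injTo n m V2).card - 1 := by
  set a1 : Fin n → ℝ := fun _ => (1 : ℝ) with ha1
  have ha1n : ∀ u, 0 ≤ a1 u := fun u => by rw [ha1]; norm_num
  have ha1R : ∀ u, u ∉ (∅ : Finset (Fin n)) → a1 u = 1 := fun u _ => rfl
  have pin : ∀ S : Finset (Fin n), (∏ u, if u ∈ S then a1 u else a1 u) = 1 := by
    intro S
    refine Finset.prod_eq_one fun u _ => ?_
    split_ifs <;> rfl
  have rin : ∀ τ : ℝ, rootFac p τ ∅ a1 a1 = 1 := by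
    intro τ; unfold rootFac; simp
  have B1 := EP_cycle_sq_le hp hp1 c m c0 l0 hm hc hl0 ∅ V1 V2 (disjoint_empty_left _)
    (disjoint_empty_left _) hV hcV hmV a1 a1 ha1n ha1n ha1R ha1R y ρ hy hρ hρ2
  have B4 := EP_cycle_one_ge hp hp1 c m ∅ V1 V2 (disjoint_empty_left _)
    (disjoint_empty_left _) hV hcV hmV a1 a1 ha1n ha1n ha1R ha1R
  simp only [pin, rin, one_mul] at B1 B4
  have hmean : 1 ≤ meanP n p (cyclePoly n c m p ∅ V1 V2) := B4
  refine ⟨hmean, ?_⟩
  rw [varP_eq]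
  have e1 : (fun (_ : Finset (Fin n)) (Y : Pair n → Bool) =>
      evalAt (cyclePoly n c m p ∅ V1 V2) Y ^ 2)
      = fun _ Y => evalAt (cyclePoly n c m p ∅ V1 V2) Y * evalAt (cyclePoly n c m p ∅ V1 V2) Y := by
    funext _ Y; rw [sq]
  rw [e1]
  have : Ub p c m l0 V1.card V2.card y ρ (injTo n m V2).card
      = (qq p l0 / p) ^ (c + c) * Real.exp ((1 - p) / p * c * c / V1.card) *
          Mfac m V2.card y ρ (injTo n m V2).card := rfl
  rw [this]
  nlinarith

end Estimate2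

end Pool.Agent.Work.MP_d47e79_lc
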