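import Pool.Agent.Work.MP_d47e79_lc.Asymp2

namespace Pool.Agent.Work.MP_d47e79_lc

open Filter Asymptotics Finset

/-- The constant in front of `hh n ^ 4 / n`. -/
noncomputable def KK (ε : ℝ) : ℝ := 144 / ε ^ 2 + 16 / ε + 12

/-- The error parameter. -/
noncomputable def ee (ε : ℝ) (n : ℕ) : ℝ := KK ε * ((hh n : ℝ) ^ 4 / n)

lemma KK_pos {ε : ℝ} (hε : 0 < ε) : 0 < KK ε := by unfold KK; positivity

lemma tendsto_ee {ε : ℝ} : Tendsto (ee ε) atTop (nhds 0) := by
  have h := (tendsto_hh_pow_div 1 one_pos).const_mul (KK ε)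
  rw [mul_zero] at h
  refine h.congr fun n => ?_
  unfold ee
  rw [Real.rpow_one]

lemma tendsto_p {ε : ℝ} : Tendsto (fun n : ℕ => ε * Real.sqrt n / n) atTop (nhds 0) := by
  have h1 : Tendsto (fun n : ℕ => Real.sqrt n) atTop atTop :=
    Real.tendsto_sqrt_atTop.comp tendsto_natCast_atTop_atTop
  have h2 : Tendsto (fun n : ℕ => ε / Real.sqrt n) atTop (nhds 0) :=
    tendsto_const_nhds.div_atTop h1
  refine h2.congr' ?_
  filter_upwards [eventually_ge_atTop 1] with n hn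
  have hn0 : (0 : ℝ) < n := by exact_mod_cast hn
  have hs := Real.mul_self_sqrt hn0.le
  have hs0 := Real.sqrt_pos.mpr hn0
  rw [div_eq_div_iff hs0.ne' hn0.ne', mul_assoc, hs]

lemma tendsto_hh : Tendsto (fun n : ℕ => (hh n : ℝ)) atTop atTop := by
  have h1 : Tendsto (fun n : ℕ => Real.log n) atTop atTop :=
    Real.tendsto_log_atTop.comp tendsto_natCast_atTop_atTop
  refine tendsto_atTop_mono (fun n => ?_) h1
  unfold hh
  push_cast
  have := Nat.le_ceil (Real.log n)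
  have h0 : (0 : ℝ) ≤ (⌈Real.log n⌉₊ : ℝ) := Nat.cast_nonneg _
  linarith

lemma facts_eventually {ε : ℝ} (hε : 0 < ε) (c0 : ℕ) :
    ∀ᶠ n : ℕ in atTop, Facts ε c0 n (ee ε n) := by
  have e1 := (tendsto_ee (ε := ε)).eventually (gt_mem_nhds (by norm_num : (0 : ℝ) < 1 / 100000))
  have e2 := (tendsto_p (ε := ε)).eventually (gt_mem_nhds (by positivity :
    (0 : ℝ) < (1 / 2) ^ c0))
  have e3 := tendsto_hh.eventually (eventually_ge_atTop (c0 : ℝ))
  filter_upwards [e1, e2, e3, eventually_ge_atTop 100] with n h1 h2 h3 h4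
  have hn0 : (0 : ℝ) < n := by exact_mod_cast (by omega : 0 < n)
  have hn1 : (1 : ℝ) ≤ n := by exact_mod_cast (by omega : 1 ≤ n)
  have hh6 := hh_pos n (by omega)
  have hh6' : (6 : ℝ) ≤ hh n := by exact_mod_cast hh6
  have hx0 : (0 : ℝ) < (hh n : ℝ) ^ 4 / n := by positivity
  have hK := KK_pos hε
  have hε2 : 0 < 144 / ε ^ 2 := by positivity
  have hε1 : 0 < 16 / ε := by positivity
  set x := (hh n : ℝ) ^ 4 / n with hx
  have hee : ee ε n = KK ε * x := rfl
  have b1 : 144 / ε ^ 2 * x ≤ ee ε n := by rw [hee]; unfold KK; nlinarith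
  have b2 : 16 / ε * x ≤ ee ε n := by rw [hee]; unfold KK; nlinarith
  have b3 : 12 * x ≤ ee ε n := by rw [hee]; unfold KK; nlinarith
  have hs0 := Real.sqrt_pos.mpr hn0
  have hss := Real.mul_self_sqrt hn0.le
  have hs1 : 1 ≤ Real.sqrt n := by
    rw [← Real.sqrt_one]; exact Real.sqrt_le_sqrt hn1
  have hp1 : (1 / 2 : ℝ) ^ c0 ≤ 1 := pow_le_one₀ (by norm_num) (by norm_num)
  have hh4 : (hh n : ℝ) ≤ (hh n : ℝ) ^ 4 := le_self_pow₀ (by linarith) (by norm_num)
  have hh2 : (hh n : ℝ) ^ 2 ≤ (hh n : ℝ) ^ 4 := pow_le_pow_right₀ (by linarith) (by norm_num)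
  have hx1 : x ≤ 1 / 1000 := by linarith
  have hh1000 : (hh n : ℝ) ^ 4 * 1000 ≤ n := by
    rw [hx, div_le_iff₀ hn0] at hx1; linarith
  have tauv : 8 * c0 * (1 / (n : ℝ) ^ 4 / (ε * Real.sqrt n / n)) ≤ ee ε n / 2 := by
    have a1 : 8 * (c0 : ℝ) * (1 / (n : ℝ) ^ 4 / (ε * Real.sqrt n / n))
        = 8 / ε * (c0 / n) * (1 / Real.sqrt n) * (1 / n) * (1 / n) := by
      field_simp
    rw [a1]
    have a2 : (c0 : ℝ) / n ≤ x := by
      rw [hx]; gcongr; linarith
    calc 8 / ε * ((c0 : ℝ) / n) * (1 / Real.sqrt n) * (1 / n) * (1 / n)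
        ≤ 8 / ε * x * 1 * 1 * 1 := by
          gcongr
          · rw [div_le_one hs0]; exact hs1
          · rw [div_le_one hn0]; exact hn1
          · rw [div_le_one hn0]; exact hn1
      _ = (16 / ε * x) / 2 := by ring
      _ ≤ ee ε n / 2 := by linarith
  have hee0 : 0 ≤ ee ε n := by rw [hee]; exact mul_nonneg hK.le hx0.le
  refine ⟨h4, hee0, h1.le, ?_, h2.le, ?_, ?_, ?_, tauv, ?_, ?_, h3, ?_⟩
  · linarith
  · have a1 : hh n ^ 4 * 1000 ≤ n := by exact_mod_cast hh1000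
    have a2 : hh n ≤ hh n ^ 4 := Nat.le_self_pow (by norm_num) _
    have a3 : c0 ≤ hh n := by exact_mod_cast h3
    have a4 : 1000 * hh n ≤ n := by omega
    omega
  · refine le_trans (le_of_eq ?_) b1
    rw [hx, div_pow, mul_pow ε, Real.sq_sqrt hn0.le]
    field_simp
    ring
  · refine le_trans ?_ b3
    rw [hx]
    calc 3 * (2 * (hh n : ℝ)) ^ 2 / n = 12 * ((hh n : ℝ) ^ 2 / n) := by ring
      _ ≤ 12 * ((hh n : ℝ) ^ 4 / n) := by gcongr
  · linarith
  · have hκ := kappa_le n (by omega)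
    have hκ0 : (0 : ℝ) ≤ (1 / 2) ^ hh n := by positivity
    have hκ1 : (1 / 2 : ℝ) ^ hh n ≤ 1 := pow_le_one₀ (by norm_num) (by norm_num)
    have a1 : (1 / 2 : ℝ) ^ (2 * hh n) ≤ 1 / n := by
      rw [two_mul, pow_add]
      calc (1 / 2 : ℝ) ^ hh n * (1 / 2) ^ hh n ≤ 1 / (n : ℝ) ^ 4 * 1 := by gcongr
        _ ≤ 1 / n := by
            rw [mul_one]
            exact one_div_le_one_div_of_le hn0 (le_self_pow₀ hn1 (by norm_num))
    calc 2 * (hh n : ℝ) * (1 / 2) ^ (2 * hh n) ≤ 2 * (hh n : ℝ) ^ 4 * (1 / n) := by gcongr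
      _ = 2 * x := by rw [hx]; ring
      _ ≤ ee ε n := by linarith
  · rw [div_pow, mul_pow, Real.sq_sqrt hn0.le]
    have a1 : 144 / ε ^ 2 * x ≤ 1 := by linarith
    have a2 : 1 / n ≤ x := by
      rw [hx]; gcongr; exact one_le_pow₀ (by linarith)
    have a3 : 1 / n ≤ ε ^ 2 := by
      have : 1 / ε ^ 2 * (1 / n) ≤ 1 := by
        calc 1 / ε ^ 2 * (1 / n) ≤ 144 / ε ^ 2 * x := by
              gcongr
              norm_num
          _ ≤ 1 := a1
      have h5 : (0 : ℝ) < ε ^ 2 := by positivity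
      rw [one_div_mul_eq_div, div_le_one h5] at this
      exact this
    calc 1 / (n : ℝ) ^ 4 = 1 / n * (1 / n) * (1 / n) * (1 / n) := by field_simp
      _ ≤ ε ^ 2 * (1 / n) * 1 * 1 := by
          have : 1 / (n : ℝ) ≤ 1 := by rw [div_le_one hn0]; exact hn1
          gcongr
      _ = ε ^ 2 * n / (n : ℝ) ^ 2 := by field_simp

lemma degree_le2 (c0 n : ℕ) (hn : 3 ≤ n) :
    (4 * hh n) * (4 * c0 + 2) ≤ ⌈(48 * (4 * (c0 : ℝ) + 2)) * Real.log n⌉₊ := by
  have h1 := hh_le n hn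
  have hlog : 1 ≤ Real.log n := by
    have h3 : (3 : ℝ) ≤ n := by exact_mod_cast hn
    rw [Real.le_log_iff_exp_le (by linarith)]
    exact (Real.exp_one_lt_d9.le.trans (by norm_num)).trans h3
  have h2 : (hh n : ℝ) ≤ 12 * Real.log n := by linarith
  have h4 : (((4 * hh n) * (4 * c0 + 2) : ℕ) : ℝ) ≤ (48 * (4 * (c0 : ℝ) + 2)) * Real.log n := by
    push_cast
    calc 4 * (hh n : ℝ) * (4 * c0 + 2) ≤ 4 * (12 * Real.log n) * (4 * c0 + 2) := by gcongr
      _ = _ := by ring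
  exact_mod_cast h4.trans (Nat.le_ceil _)

/-- The choice of `c0`. -/
lemma exists_c0 {ε : ℝ} (hε : 0 < ε) : ∃ c0 : ℕ, (1 / 2 : ℝ) ^ c0 ≤ ε ^ 2 / 96 := by
  obtain ⟨c0, h⟩ := exists_pow_lt_of_lt_one (by positivity : (0 : ℝ) < ε ^ 2 / 96)
    (by norm_num : (1 / 2 : ℝ) < 1)
  exact ⟨c0, h.le⟩

open Classical in
/-- For every `ε > 0`, degree `⌈C log n⌉` succeeds for `k = ε √n`. -/
theorem succeeds_sqrt {ε : ℝ} (hε : 0 < ε) :
    ∃ C : ℝ, 0 < C ∧ Succeeds (fun n : ℕ => ε * Real.sqrt n) (fun n : ℕ => ⌈C * Real.log n⌉₊) := by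
  obtain ⟨c0, hc0⟩ := exists_c0 hε
  refine ⟨48 * (4 * (c0 : ℝ) + 2), by positivity, ?_, ?_⟩
  · have key : ∀ n : ℕ, Facts ε c0 n (ee ε n) → ∃ f : MvPolynomial (Pair n) ℝ,
        f.totalDegree ≤ ⌈(48 * (4 * (c0 : ℝ) + 2)) * Real.log n⌉₊ ∧
        varP n (ε * Real.sqrt n / n) f ≤ 3 * Real.sqrt (ee ε n) + 50 * ee ε n ∧
        varQ n f ≤ 3 * ee ε n ∧ 1 ≤ meanP n (ε * Real.sqrt n / n) f ∧ meanQ n f = 0 :=
      fun n F => detection_core hε hc0 F _ (degree_le2 c0 n (by have := F.n3; omega))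
    have keyt : Tendsto (fun n : ℕ => 3 * Real.sqrt (ee ε n) + 50 * ee ε n) atTop (nhds 0) := by
      have h1 := ((Real.continuous_sqrt.tendsto 0).comp (tendsto_ee (ε := ε))).const_mul 3
      have h2 := (tendsto_ee (ε := ε)).const_mul 50
      have h3 := h1.add h2
      simpa using h3
    refine ⟨fun n => if h : Facts ε c0 n (ee ε n) then Classical.choose (key n h) else 0,
      ?_, ?_, ?_⟩
    · intro n
      by_cases h : Facts ε c0 n (ee ε n)
      · simp only [h, dite_true]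
        exact (Classical.choose_spec (key n h)).1
      · simp only [h, dite_false]
        simp
    · filter_upwards [facts_eventually hε c0] with n h
      simp only [h, dite_true]
      have hs := Classical.choose_spec (key n h)
      intro heq
      rw [hs.2.2.2.2] at heq
      linarith [hs.2.2.2.1]
    · rw [isLittleO_iff]
      intro η hη
      have hη2 : (0 : ℝ) < η ^ 2 := by positivity
      filter_upwards [facts_eventually hε c0, keyt.eventually (gt_mem_nhds hη2)] with n h h2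
      simp only [h, dite_true]
      have hs := Classical.choose_spec (key n h)
      set f := Classical.choose (key n h) with hf
      obtain ⟨hs1, hs2, hs3, hs4, hs5⟩ := hs
      have he0 := h.e0
      have hsq : 0 ≤ Real.sqrt (ee ε n) := Real.sqrt_nonneg _
      rw [Real.norm_of_nonneg (Real.sqrt_nonneg _), Real.norm_of_nonneg (abs_nonneg _), hs5,
        sub_zero]
      have e1 : Real.sqrt (max (varP n (ε * Real.sqrt n / n) f) (varQ n f)) ≤ η := by
        rw [Real.sqrt_le_left hη.le]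
        refine max_le ?_ ?_
        · linarith
        · linarith
      have e2 := le_abs_self (meanP n (ε * Real.sqrt n / n) f)
      have e3 : η * 1 ≤ η * |meanP n (ε * Real.sqrt n / n) f| := by
        apply mul_le_mul_of_nonneg_left _ hη.le
        linarith
      linarith
  · intro δ hδ
    have hK := KK_pos hε
    have t1 : Tendsto (fun n : ℕ => (1100 * ε * KK ε) * ((hh n : ℝ) ^ 4 / (n : ℝ) ^ (1 / 2 : ℝ))
        + 30 * (1 / (n : ℝ))) atTop (nhds 0) := by
      have h1 := (tendsto_hh_pow_div (1 / 2) (by norm_num)).const_mul (1100 * ε * KK ε)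
      have h2 := (tendsto_one_div_atTop_nhds_zero_nat (𝕜 := ℝ)).const_mul 30
      simpa using h1.add h2
    filter_upwards [facts_eventually hε c0, t1.eventually (gt_mem_nhds hδ)] with n F h v
    have hn3 := F.n3
    have hn0 : (0 : ℝ) < n := by exact_mod_cast (by omega : 0 < n)
    have hn1 : (1 : ℝ) ≤ n := by exact_mod_cast (by omega : 1 ≤ n)
    refine (recovery_core hε hc0 F v _ (degree_le2 c0 n (by omega))).trans ?_
    have hs0 := Real.sqrt_pos.mpr hn0
    have hss := Real.mul_self_sqrt hn0.le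
    rw [← Real.sqrt_eq_rpow] at h
    have a1 : ε * Real.sqrt n / n * (1100 * ee ε n)
        = (1100 * ε * KK ε) * ((hh n : ℝ) ^ 4 / Real.sqrt n) / n := by
      unfold ee
      have : Real.sqrt n / n = 1 / Real.sqrt n := by
        rw [div_eq_div_iff hn0.ne' hs0.ne']; linarith
      calc ε * Real.sqrt n / n * (1100 * (KK ε * ((hh n : ℝ) ^ 4 / n)))
          = 1100 * ε * KK ε * (hh n : ℝ) ^ 4 * (Real.sqrt n / n) / n := by ring
        _ = _ := by rw [this]; ring
    have a2 : 30 / (n : ℝ) ^ 4 ≤ 30 * (1 / (n : ℝ)) / n := by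
      have : 30 * (1 / (n : ℝ)) / n = 30 / (n : ℝ) ^ 2 := by field_simp
      rw [this]
      gcongr
      · norm_num
    rw [a1]
    calc _ ≤ (1100 * ε * KK ε) * ((hh n : ℝ) ^ 4 / Real.sqrt n) / n + 30 * (1 / (n : ℝ)) / n := by
          linarith
      _ = ((1100 * ε * KK ε) * ((hh n : ℝ) ^ 4 / Real.sqrt n) + 30 * (1 / (n : ℝ))) / n := by ring
      _ ≤ δ / n := by gcongr

end Pool.Agent.Work.MP_d47e79_lc
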