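import Pool.Agent.Work.MP_d47e79_lc.Asymp2

namespace Pool.Agent.Work.MP_d47e79_lc

open Filter Asymptotics Finset

/-- The number of guessed clique vertices (half of it). -/
noncomputable def c0f (ε : ℝ) : ℕ := ⌈Real.log (96 / ε ^ 2) / Real.log 2⌉₊

lemma half_pow_eq_exp (c : ℕ) : (1 / 2 : ℝ) ^ c = Real.exp (-((c : ℝ) * Real.log 2)) := by
  have h2 : Real.exp (-Real.log 2) = 1 / 2 := by
    rw [Real.exp_neg, Real.exp_log (by norm_num)]; norm_num
  rw [← h2, ← Real.exp_nat_mul]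
  congr 1; ring

lemma c0f_spec {ε : ℝ} (hε : 0 < ε) : (1 / 2 : ℝ) ^ c0f ε ≤ ε ^ 2 / 96 := by
  have hl2 : 0 < Real.log 2 := Real.log_pos (by norm_num)
  have h1 : Real.log (96 / ε ^ 2) ≤ (c0f ε : ℝ) * Real.log 2 := by
    have := Nat.le_ceil (Real.log (96 / ε ^ 2) / Real.log 2)
    rw [div_le_iff₀ hl2] at this
    exact this
  have h3 : ε ^ 2 / 96 = Real.exp (-Real.log (96 / ε ^ 2)) := by
    rw [Real.exp_neg, Real.exp_log (by positivity), inv_div]
  rw [half_pow_eq_exp, h3]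
  exact Real.exp_le_exp.mpr (by linarith)

lemma c0f_low {ε p : ℝ} (hε : 0 < ε) (hp1 : p ≤ 1) (hp : p ≤ ε ^ 2 / 192) :
    p ≤ (1 / 2 : ℝ) ^ c0f ε := by
  have hl2 : 0 < Real.log 2 := Real.log_pos (by norm_num)
  rcases le_or_gt (Real.log (96 / ε ^ 2) / Real.log 2) 0 with h | h
  · have : c0f ε = 0 := by unfold c0f; exact Nat.ceil_eq_zero.mpr h
    rw [this, pow_zero]; exact hp1
  · have h1 : (c0f ε : ℝ) * Real.log 2 ≤ Real.log (96 / ε ^ 2) + Real.log 2 := by
      have := (Nat.ceil_lt_add_one h.le).le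
      calc (c0f ε : ℝ) * Real.log 2
          ≤ (Real.log (96 / ε ^ 2) / Real.log 2 + 1) * Real.log 2 := by
            apply mul_le_mul_of_nonneg_right _ hl2.le
            exact this
        _ = _ := by field_simp
    have h3 : ε ^ 2 / 192 = Real.exp (-(Real.log (96 / ε ^ 2) + Real.log 2)) := by
      rw [neg_add, Real.exp_add, Real.exp_neg, Real.exp_neg, Real.exp_log (by positivity),
        Real.exp_log (by norm_num), inv_div]
      ring
    rw [half_pow_eq_exp]
    refine hp.trans ?_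
    rw [h3]
    exact Real.exp_le_exp.mpr (by linarith)

/-- Bound for the number of guessed vertices. -/
lemma c0f_le {n : ℕ} {K : ℝ} (hn : 0 < n) (hK : 0 < K) :
    (c0f (K / Real.sqrt n) : ℝ) ≤ 8 + 3 * max 0 (Real.log (Real.sqrt n / K)) := by
  have hl2 : 0 < Real.log 2 := Real.log_pos (by norm_num)
  have hl2' : (2 : ℝ) / 3 < Real.log 2 := by have := Real.log_two_gt_d9; linarith
  have hn0 : (0 : ℝ) < n := by exact_mod_cast hn
  have hs0 := Real.sqrt_pos.mpr hn0
  set lam := max 0 (Real.log (Real.sqrt n / K)) with hlam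
  have hlam0 : 0 ≤ lam := le_max_left _ _
  have hlam1 : Real.log (Real.sqrt n / K) ≤ lam := le_max_right _ _
  have e1 : (96 : ℝ) / (K / Real.sqrt n) ^ 2 = 96 * (Real.sqrt n / K) ^ 2 := by
    field_simp
  have e2 : Real.log (96 / (K / Real.sqrt n) ^ 2)
      = Real.log 96 + 2 * Real.log (Real.sqrt n / K) := by
    rw [e1, Real.log_mul (by norm_num) (by positivity), Real.log_pow]
    push_cast; ring
  have e3 : Real.log 96 ≤ 7 * Real.log 2 := by
    have : Real.log 96 ≤ Real.log ((2 : ℝ) ^ 7) := Real.log_le_log (by norm_num) (by norm_num)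
    rw [Real.log_pow] at this
    exact_mod_cast this
  have e4 : Real.log (96 / (K / Real.sqrt n) ^ 2) / Real.log 2 ≤ 7 + 3 * lam := by
    rw [div_le_iff₀ hl2, e2]
    nlinarith
  have e5 : (c0f (K / Real.sqrt n) : ℝ) ≤ (⌈7 + 3 * lam⌉₊ : ℕ) := by
    exact_mod_cast Nat.ceil_mono e4
  have e6 := (Nat.ceil_lt_add_one (by positivity : (0 : ℝ) ≤ 7 + 3 * lam)).le
  linarith

/-- The error parameter. -/
noncomputable def ef (K : ℝ) (n : ℕ) : ℝ := 144 * (hh n : ℝ) ^ 4 / K ^ 2 + 16 * (hh n : ℝ) ^ 4 / n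

lemma facts_of {n : ℕ} {K : ℝ} (hn : 100 ≤ n) (h1 : 10 ^ 9 * (hh n : ℝ) ^ 4 ≤ K)
    (h2 : 10 ^ 9 * ((hh n : ℝ) ^ 4 * K) ≤ n) :
    Facts (K / Real.sqrt n) (c0f (K / Real.sqrt n)) n (ef K n) := by
  have hn0 : (0 : ℝ) < n := by exact_mod_cast (by omega : 0 < n)
  have hn1 : (1 : ℝ) ≤ n := by exact_mod_cast (by omega : 1 ≤ n)
  have hh6 := hh_pos n (by omega)
  have hh6' : (6 : ℝ) ≤ hh n := by exact_mod_cast hh6
  set H : ℝ := (hh n : ℝ) ^ 4 with hH
  have hH1 : (1 : ℝ) ≤ H := one_le_pow₀ (by linarith)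
  have hhH : (hh n : ℝ) ≤ H := le_self_pow₀ (by linarith) (by norm_num)
  have hh2H : (hh n : ℝ) ^ 2 ≤ H := pow_le_pow_right₀ (by linarith) (by norm_num)
  have hK1 : 10 ^ 9 ≤ K := by
    calc (10 : ℝ) ^ 9 = 10 ^ 9 * 1 := by ring
      _ ≤ 10 ^ 9 * H := by gcongr
      _ ≤ K := h1
  have hK0 : 0 < K := by linarith
  have hKn : 10 ^ 9 * K ≤ n := by
    calc 10 ^ 9 * K = 10 ^ 9 * (1 * K) := by ring
      _ ≤ 10 ^ 9 * (H * K) := by gcongr
      _ ≤ n := h2
  have hHn : 10 ^ 9 * H ≤ n := by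
    calc 10 ^ 9 * H = 10 ^ 9 * (H * 1) := by ring
      _ ≤ 10 ^ 9 * (H * K) := by gcongr; linarith
      _ ≤ n := h2
  have hs0 := Real.sqrt_pos.mpr hn0
  have hss := Real.mul_self_sqrt hn0.le
  have hεK : K / Real.sqrt n * Real.sqrt n = K := div_mul_cancel₀ _ hs0.ne'
  have hε : 0 < K / Real.sqrt n := by positivity
  have hlog : 2 ≤ Real.log n := by
    have h3 : (9 : ℝ) ≤ n := by exact_mod_cast (by omega : 9 ≤ n)
    rw [Real.le_log_iff_exp_le hn0]
    have h4 : Real.exp 2 = Real.exp 1 * Real.exp 1 := by rw [← Real.exp_add]; norm_num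
    have h5 := Real.exp_one_lt_d9
    have h6 := Real.exp_pos 1
    rw [h4]
    nlinarith
  have hhlog : 6 * Real.log n ≤ hh n := by
    unfold hh
    push_cast
    have := Nat.le_ceil (Real.log n)
    linarith
  have hcl : (c0f (K / Real.sqrt n) : ℝ) ≤ hh n := by
    have h3 := c0f_le (n := n) (by omega) hK0
    have h4 : max 0 (Real.log (Real.sqrt n / K)) ≤ Real.log n / 2 := by
      refine max_le (by linarith) ?_
      have h5 : Real.log (Real.sqrt n / K) ≤ Real.log (Real.sqrt n) := by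
        refine Real.log_le_log (by positivity) ?_
        rw [div_le_iff₀ hK0]
        nlinarith
      rw [Real.log_sqrt hn0.le] at h5
      exact h5
    linarith
  have hx1 : 144 * H / K ^ 2 ≤ 1 / 1000000 := by
    rw [div_le_iff₀ (by positivity)]
    nlinarith
  have hx2 : 16 * H / n ≤ 1 / 1000000 := by
    rw [div_le_iff₀ hn0]
    nlinarith
  have he : ef K n = 144 * H / K ^ 2 + 16 * H / n := rfl
  have hx10 : 0 ≤ 144 * H / K ^ 2 := by positivity
  have hx20 : 0 ≤ 16 * H / n := by positivity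
  have tauv : 8 * (c0f (K / Real.sqrt n) : ℝ) * (1 / (n : ℝ) ^ 4 / (K / n)) ≤ ef K n / 2 := by
    have a1 : 8 * (c0f (K / Real.sqrt n) : ℝ) * (1 / (n : ℝ) ^ 4 / (K / n))
        = 8 * (c0f (K / Real.sqrt n) : ℝ) / n * (1 / n) * (1 / n) * (1 / K) := by
      field_simp
    rw [a1]
    calc 8 * (c0f (K / Real.sqrt n) : ℝ) / n * (1 / n) * (1 / n) * (1 / K)
        ≤ 8 * H / n * 1 * 1 * 1 := by
          gcongr
          · linarith
          · rw [div_le_one hn0]; exact hn1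
          · rw [div_le_one hn0]; exact hn1
          · rw [div_le_one hK0]; linarith
      _ = (16 * H / n) / 2 := by ring
      _ ≤ ef K n / 2 := by rw [he]; linarith
  have he1 : ef K n ≤ 1 / 100000 := by rw [he]; linarith
  have he0 : 0 ≤ ef K n := by rw [he]; linarith
  refine ⟨hn, he0, he1, ?_, ?_, ?_, ?_, ?_, ?_, ?_, ?_, hcl, ?_⟩
  · rw [hεK, div_le_one hn0]; linarith
  · rw [hεK]
    refine c0f_low hε ?_ ?_
    · rw [div_le_one hn0]; linarith
    · rw [div_pow, Real.sq_sqrt hn0.le, div_div, div_le_div_iff₀ hn0 (by positivity)]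
      have h7 := mul_le_mul_of_nonneg_left (by linarith : (192 : ℝ) ≤ K)
        (mul_nonneg hK0.le hn0.le)
      nlinarith
  · have a1 : hh n ^ 4 * 1000 ≤ n := by
      have : (hh n : ℝ) ^ 4 * 1000 ≤ n := by rw [← hH]; linarith
      exact_mod_cast this
    have a2 : hh n ≤ hh n ^ 4 := Nat.le_self_pow (by norm_num) _
    have a3 : c0f (K / Real.sqrt n) ≤ hh n := by exact_mod_cast hcl
    have a4 : 1000 * hh n ≤ n := by omega
    omega
  · rw [hεK, he]
    have : (3 * (2 * (hh n : ℝ)) ^ 2 / K) ^ 2 = 144 * H / K ^ 2 := by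
      rw [hH]; field_simp; ring
    rw [this]; linarith
  · rw [he]
    have h4H : (2 * (hh n : ℝ)) ^ 2 ≤ H := by
      have h5 : H = (hh n : ℝ) ^ 2 * (hh n : ℝ) ^ 2 := by rw [hH]; ring
      rw [h5, mul_pow]
      have h6 : (2 : ℝ) ^ 2 ≤ (hh n : ℝ) ^ 2 := by gcongr; linarith
      exact mul_le_mul_of_nonneg_right h6 (by positivity)
    have : 3 * (2 * (hh n : ℝ)) ^ 2 / n ≤ 16 * H / n := by
      gcongr
      norm_num
    linarith
  · rw [hεK]; exact tauv
  · rw [hεK]; linarith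
  · have hκ := kappa_le n (by omega)
    have hκ0 : (0 : ℝ) ≤ (1 / 2) ^ hh n := by positivity
    have hκ1 : (1 / 2 : ℝ) ^ hh n ≤ 1 := pow_le_one₀ (by norm_num) (by norm_num)
    have a1 : (1 / 2 : ℝ) ^ (2 * hh n) ≤ 1 / n := by
      rw [two_mul, pow_add]
      calc (1 / 2 : ℝ) ^ hh n * (1 / 2) ^ hh n ≤ 1 / (n : ℝ) ^ 4 * 1 := by gcongr
        _ ≤ 1 / n := by
            rw [mul_one]
            exact one_div_le_one_div_of_le hn0 (le_self_pow₀ hn1 (by norm_num))
    calc 2 * (hh n : ℝ) * (1 / 2) ^ (2 * hh n) ≤ 2 * H * (1 / n) := by gcongr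
      _ = 2 * H / n := by ring
      _ ≤ 16 * H / n := by gcongr; norm_num
      _ ≤ ef K n := by rw [he]; linarith
  · rw [hεK, div_pow]
    have a3 : (1 : ℝ) ≤ K ^ 2 := one_le_pow₀ (by linarith)
    calc 1 / (n : ℝ) ^ 4 ≤ 1 / (n : ℝ) ^ 2 :=
          one_div_le_one_div_of_le (by positivity) (pow_le_pow_right₀ hn1 (by norm_num))
      _ ≤ K ^ 2 / (n : ℝ) ^ 2 := by gcongr

lemma eventually_small {k : ℕ → ℝ} (hk0 : ∀ n, 0 ≤ k n)
    (h1 : (fun n : ℕ => Real.log n ^ 4) =o[atTop] k)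
    (h2 : k =o[atTop] fun n : ℕ => (n : ℝ) / Real.log n ^ 4) {δ : ℝ} (hδ : 0 < δ) :
    ∀ᶠ n : ℕ in atTop, 100 ≤ n ∧ (hh n : ℝ) ^ 4 ≤ δ * k n ∧ (hh n : ℝ) ^ 4 * k n ≤ δ * n := by
  have hc : 0 < δ / 20736 := by positivity
  filter_upwards [h1.bound hc, h2.bound hc, eventually_ge_atTop 100] with n a1 a2 hn
  have hn0 : (0 : ℝ) < n := by exact_mod_cast (by omega : 0 < n)
  have hlog : 1 ≤ Real.log n := by
    have h3 : (3 : ℝ) ≤ n := by exact_mod_cast (by omega : 3 ≤ n)
    rw [Real.le_log_iff_exp_le hn0]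
    exact (Real.exp_one_lt_d9.le.trans (by norm_num)).trans h3
  have hl4 : 0 < Real.log n ^ 4 := by positivity
  rw [Real.norm_of_nonneg hl4.le, Real.norm_of_nonneg (hk0 n)] at a1
  rw [Real.norm_of_nonneg (hk0 n), Real.norm_of_nonneg (by positivity)] at a2
  have h3 := hh_le n (by omega)
  have h4 : (hh n : ℝ) ≤ 12 * Real.log n := by linarith
  have h5 : (hh n : ℝ) ^ 4 ≤ 20736 * Real.log n ^ 4 := by
    calc (hh n : ℝ) ^ 4 ≤ (12 * Real.log n) ^ 4 := by gcongr
      _ = _ := by ring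
  refine ⟨hn, ?_, ?_⟩
  · calc (hh n : ℝ) ^ 4 ≤ 20736 * Real.log n ^ 4 := h5
      _ ≤ 20736 * (δ / 20736 * k n) := by gcongr
      _ = δ * k n := by ring
  · have a3 : k n * Real.log n ^ 4 ≤ δ / 20736 * n := by
      calc k n * Real.log n ^ 4 ≤ δ / 20736 * ((n : ℝ) / Real.log n ^ 4) * Real.log n ^ 4 := by
            apply mul_le_mul_of_nonneg_right a2 hl4.le
        _ = δ / 20736 * n := by field_simp
    calc (hh n : ℝ) ^ 4 * k n ≤ 20736 * Real.log n ^ 4 * k n := by
          apply mul_le_mul_of_nonneg_right h5 (hk0 n)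
      _ = 20736 * (k n * Real.log n ^ 4) := by ring
      _ ≤ 20736 * (δ / 20736 * n) := by gcongr
      _ = δ * n := by ring

/-- Consequence: the facts hold and the error parameters are small. -/
lemma eventually_factsK {k : ℕ → ℝ} (hk0 : ∀ n, 0 ≤ k n)
    (h1 : (fun n : ℕ => Real.log n ^ 4) =o[atTop] k)
    (h2 : k =o[atTop] fun n : ℕ => (n : ℝ) / Real.log n ^ 4) {δ : ℝ} (hδ : 0 < δ) :
    ∀ᶠ n : ℕ in atTop, 100 ≤ n ∧ 1 ≤ k n ∧
      Facts (k n / Real.sqrt n) (c0f (k n / Real.sqrt n)) n (ef (k n) n) ∧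
      ef (k n) n ≤ δ ∧ k n * ef (k n) n ≤ δ := by
  have hδ' : 0 < min (1 / 10 ^ 9 : ℝ) (δ / 160) := by positivity
  filter_upwards [eventually_small hk0 h1 h2 hδ'] with n hn
  obtain ⟨hn3, a1, a2⟩ := hn
  set d := min (1 / 10 ^ 9 : ℝ) (δ / 160) with hd
  have hd1 : d ≤ 1 / 10 ^ 9 := min_le_left _ _
  have hd2 : d ≤ δ / 160 := min_le_right _ _
  have hn0 : (0 : ℝ) < n := by exact_mod_cast (by omega : 0 < n)
  have hh6 := hh_pos n (by omega)
  have hh6' : (6 : ℝ) ≤ hh n := by exact_mod_cast hh6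
  have hH1 : (1 : ℝ) ≤ (hh n : ℝ) ^ 4 := one_le_pow₀ (by linarith)
  set H : ℝ := (hh n : ℝ) ^ 4 with hH
  have hk := hk0 n
  have b1 : 10 ^ 9 * H ≤ k n := by
    have : d * k n ≤ 1 / 10 ^ 9 * k n := mul_le_mul_of_nonneg_right hd1 hk
    linarith
  have b2 : 10 ^ 9 * (H * k n) ≤ n := by
    have : d * n ≤ 1 / 10 ^ 9 * n := mul_le_mul_of_nonneg_right hd1 hn0.le
    linarith
  have hK1 : 1 ≤ k n := by linarith
  have hK0 : 0 < k n := by linarith
  refine ⟨hn3, hK1, facts_of hn3 b1 b2, ?_, ?_⟩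
  · have c1 : 144 * H / k n ^ 2 ≤ 144 * d := by
      rw [div_le_iff₀ (by positivity)]
      calc 144 * H ≤ 144 * (d * k n) := by gcongr
        _ = 144 * d * (k n * 1) := by ring
        _ ≤ 144 * d * (k n * k n) := by gcongr
        _ = 144 * d * k n ^ 2 := by ring
    have c2 : 16 * H / n ≤ 16 * d := by
      rw [div_le_iff₀ hn0]
      calc 16 * H = 16 * (H * 1) := by ring
        _ ≤ 16 * (H * k n) := by gcongr
        _ ≤ 16 * (d * n) := by gcongr
        _ = 16 * d * n := by ring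
    have : ef (k n) n = 144 * H / k n ^ 2 + 16 * H / n := rfl
    rw [this]; linarith
  · have c1 : k n * (144 * H / k n ^ 2) ≤ 144 * d := by
      have : k n * (144 * H / k n ^ 2) = 144 * H / k n := by field_simp
      rw [this, div_le_iff₀ hK0]
      linarith
    have c2 : k n * (16 * H / n) ≤ 16 * d := by
      have : k n * (16 * H / n) = 16 * (H * k n) / n := by ring
      rw [this, div_le_iff₀ hn0]
      linarith
    have : ef (k n) n = 144 * H / k n ^ 2 + 16 * H / n := rfl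
    rw [this, mul_add]; linarith

lemma degree_le3 {k : ℕ → ℝ} {n D : ℕ} (hn : 3 ≤ n) (hk : 1 ≤ k n)
    (hD : 1632 * Real.log n * (1 + max 0 (Real.log (Real.sqrt n / k n))) ≤ D) :
    (4 * hh n) * (4 * c0f (k n / Real.sqrt n) + 2) ≤ D := by
  have h1 := hh_le n hn
  have hlog : 1 ≤ Real.log n := by
    have h3 : (3 : ℝ) ≤ n := by exact_mod_cast hn
    rw [Real.le_log_iff_exp_le (by linarith)]
    exact (Real.exp_one_lt_d9.le.trans (by norm_num)).trans h3
  have h2 : (hh n : ℝ) ≤ 12 * Real.log n := by linarith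
  have h3 := c0f_le (n := n) (K := k n) (by omega) (by linarith)
  set lam := max 0 (Real.log (Real.sqrt n / k n)) with hlam
  have hlam0 : 0 ≤ lam := le_max_left _ _
  have h4 : (((4 * hh n) * (4 * c0f (k n / Real.sqrt n) + 2) : ℕ) : ℝ)
      ≤ 1632 * Real.log n * (1 + lam) := by
    push_cast
    calc 4 * (hh n : ℝ) * (4 * (c0f (k n / Real.sqrt n) : ℝ) + 2)
        ≤ 4 * (12 * Real.log n) * (4 * (8 + 3 * lam) + 2) := by gcongr
      _ = 48 * Real.log n * (34 + 12 * lam) := by ring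
      _ ≤ 48 * Real.log n * (34 + 34 * lam) := by gcongr; norm_num
      _ = _ := by ring
  exact_mod_cast h4.trans hD

/-- The indices at which all facts hold. -/
structure Good (k : ℕ → ℝ) (D : ℕ → ℕ) (n : ℕ) : Prop where
  n100 : 100 ≤ n
  k1 : 1 ≤ k n
  facts : Facts (k n / Real.sqrt n) (c0f (k n / Real.sqrt n)) n (ef (k n) n)
  deg : (4 * hh n) * (4 * c0f (k n / Real.sqrt n) + 2) ≤ D n

lemma eventually_good {k : ℕ → ℝ} {D : ℕ → ℕ} (hk0 : ∀ n, 0 ≤ k n)
    (h1 : (fun n : ℕ => Real.log n ^ 4) =o[atTop] k)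
    (h2 : k =o[atTop] fun n : ℕ => (n : ℝ) / Real.log n ^ 4)
    (hD : ∀ᶠ n : ℕ in atTop,
      1632 * Real.log n * (1 + max 0 (Real.log (Real.sqrt n / k n))) ≤ D n)
    {δ : ℝ} (hδ : 0 < δ) :
    ∀ᶠ n : ℕ in atTop, Good k D n ∧ ef (k n) n ≤ δ ∧ k n * ef (k n) n ≤ δ := by
  filter_upwards [eventually_factsK hk0 h1 h2 hδ, hD] with n h h'
  obtain ⟨a, b, c, d, e⟩ := h
  exact ⟨⟨a, b, c, degree_le3 (by omega) b h'⟩, d, e⟩

open Classical in
/-- The unified statement. -/
theorem succeeds_all {k : ℕ → ℝ} {D : ℕ → ℕ} (hk0 : ∀ n, 0 ≤ k n)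
    (h1 : (fun n : ℕ => Real.log n ^ 4) =o[atTop] k)
    (h2 : k =o[atTop] fun n : ℕ => (n : ℝ) / Real.log n ^ 4)
    (hD : ∀ᶠ n : ℕ in atTop,
      1632 * Real.log n * (1 + max 0 (Real.log (Real.sqrt n / k n))) ≤ D n) :
    Succeeds k D := by
  have hp : ∀ n : ℕ, 100 ≤ n → k n / Real.sqrt n * Real.sqrt n / n = k n / n := by
    intro n hn
    have hn0 : (0 : ℝ) < n := by exact_mod_cast (by omega : 0 < n)
    rw [div_mul_cancel₀ _ (Real.sqrt_pos.mpr hn0).ne']
  refine ⟨?_, ?_⟩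
  · have key : ∀ n : ℕ, Good k D n →
        ∃ f : MvPolynomial (Pair n) ℝ,
        f.totalDegree ≤ D n ∧
        varP n (k n / n) f ≤ 3 * Real.sqrt (ef (k n) n) + 50 * ef (k n) n ∧
        varQ n f ≤ 3 * ef (k n) n ∧ 1 ≤ meanP n (k n / n) f ∧ meanQ n f = 0 := by
      intro n ⟨hn, hk, F, hdeg⟩
      have hn0 : (0 : ℝ) < n := by exact_mod_cast (by omega : 0 < n)
      have hε : 0 < k n / Real.sqrt n := div_pos (by linarith) (Real.sqrt_pos.mpr hn0)
      have := detection_core hε (c0f_spec hε) F _ hdeg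
      rw [hp n hn] at this
      exact this
    refine ⟨fun n => if h : Good k D n
        then Classical.choose (key n h) else 0, ?_, ?_, ?_⟩
    · intro n
      by_cases h : Good k D n
      · simp only [h, dite_true]
        exact (Classical.choose_spec (key n h)).1
      · simp only [h, dite_false]
        simp
    · filter_upwards [eventually_good hk0 h1 h2 hD one_pos] with n hh'
      have h : Good k D n := hh'.1
      simp only [h, dite_true]
      have hs := Classical.choose_spec (key n h)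
      intro heq
      rw [hs.2.2.2.2] at heq
      linarith [hs.2.2.2.1]
    · rw [isLittleO_iff]
      intro η hη
      have hη2 : (0 : ℝ) < min ((η ^ 2 / 6) ^ 2) (η ^ 2 / 100) := by positivity
      filter_upwards [eventually_good hk0 h1 h2 hD hη2] with n hh'
      have h : Good k D n := hh'.1
      have he := hh'.2.1
      simp only [h, dite_true]
      have hs := Classical.choose_spec (key n h)
      set f := Classical.choose (key n h) with hf
      obtain ⟨hs1, hs2, hs3, hs4, hs5⟩ := hs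
      have he0 := h.facts.e0
      have hsq : 0 ≤ Real.sqrt (ef (k n) n) := Real.sqrt_nonneg _
      have hsq2 : Real.sqrt (ef (k n) n) ≤ η ^ 2 / 6 := by
        rw [Real.sqrt_le_left (by positivity)]
        exact he.trans (min_le_left _ _)
      have he2 : ef (k n) n ≤ η ^ 2 / 100 := he.trans (min_le_right _ _)
      rw [Real.norm_of_nonneg (Real.sqrt_nonneg _), Real.norm_of_nonneg (abs_nonneg _), hs5,
        sub_zero]
      have hη3 : 0 < η ^ 2 := by positivity
      have e1 : Real.sqrt (max (varP n (k n / n) f) (varQ n f)) ≤ η := by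
        rw [Real.sqrt_le_left hη.le]
        refine max_le ?_ ?_
        · linarith
        · linarith
      have e2 := le_abs_self (meanP n (k n / n) f)
      have e3 : η * 1 ≤ η * |meanP n (k n / n) f| := by
        apply mul_le_mul_of_nonneg_left _ hη.le
        linarith
      linarith
  · intro δ hδ
    have hδ' : 0 < δ / 2200 := by positivity
    have t1 : Tendsto (fun n : ℕ => 30 * (1 / (n : ℝ))) atTop (nhds 0) := by
      simpa using (tendsto_one_div_atTop_nhds_zero_nat (𝕜 := ℝ)).const_mul 30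
    filter_upwards [eventually_good hk0 h1 h2 hD hδ',
      t1.eventually (gt_mem_nhds (by positivity : 0 < δ / 2))] with n hh' h v
    obtain ⟨⟨hn, hk, F, hdeg⟩, _, he⟩ := hh'
    have hn0 : (0 : ℝ) < n := by exact_mod_cast (by omega : 0 < n)
    have hn1 : (1 : ℝ) ≤ n := by exact_mod_cast (by omega : 1 ≤ n)
    have hε : 0 < k n / Real.sqrt n := div_pos (by linarith) (Real.sqrt_pos.mpr hn0)
    have hrec := recovery_core hε (c0f_spec hε) F v _ hdeg
    rw [hp n hn] at hrec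
    refine hrec.trans ?_
    have a1 : k n / n * (1100 * ef (k n) n) = 1100 * (k n * ef (k n) n) / n := by ring
    have a2 : 30 / (n : ℝ) ^ 4 ≤ 30 * (1 / (n : ℝ)) / n := by
      have : 30 * (1 / (n : ℝ)) / n = 30 / (n : ℝ) ^ 2 := by field_simp
      rw [this]
      gcongr
      · norm_num
    rw [a1]
    calc _ ≤ 1100 * (k n * ef (k n) n) / n + 30 * (1 / (n : ℝ)) / n := by linarith
      _ = (1100 * (k n * ef (k n) n) + 30 * (1 / (n : ℝ))) / n := by ring
      _ ≤ δ / n := by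
          gcongr
          linarith

end Pool.Agent.Work.MP_d47e79_lc
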