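import Pool.Agent.Work.MP_d47e79_lc.Count

namespace Pool.Agent.Work.MP_d47e79_lc

open Finset

/-! ### Square-free monomials in the edge variables -/

/-- The product of the edge variables in `F`. -/
noncomputable def mono {n : ℕ} (F : Finset (Pair n)) : MvPolynomial (Pair n) ℝ :=
  ∏ e ∈ F, MvPolynomial.X e

lemma evalAt_add {n : ℕ} (f g : MvPolynomial (Pair n) ℝ) (Y : Pair n → Bool) :
    evalAt (f + g) Y = evalAt f Y + evalAt g Y := by simp [evalAt]

lemma evalAt_sub {n : ℕ} (f g : MvPolynomial (Pair n) ℝ) (Y : Pair n → Bool) :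
    evalAt (f - g) Y = evalAt f Y - evalAt g Y := by simp [evalAt]

lemma evalAt_C_mul {n : ℕ} (c : ℝ) (g : MvPolynomial (Pair n) ℝ) (Y : Pair n → Bool) :
    evalAt (MvPolynomial.C c * g) Y = c * evalAt g Y := by simp [evalAt]

lemma evalAt_sum {n : ℕ} {ι : Type*} (s : Finset ι) (g : ι → MvPolynomial (Pair n) ℝ)
    (Y : Pair n → Bool) : evalAt (∑ i ∈ s, g i) Y = ∑ i ∈ s, evalAt (g i) Y := by
  simp [evalAt]

lemma evalAt_mono {n : ℕ} (F : Finset (Pair n)) (Y : Pair n → Bool) :
    evalAt (mono F) Y = ∏ e ∈ F, if Y e then (1 : ℝ) else 0 := by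
  simp [evalAt, mono, MvPolynomial.eval_prod]

lemma evalAt_mono_eq {n : ℕ} (F : Finset (Pair n)) (Y : Pair n → Bool) :
    evalAt (mono F) Y = if (∀ e ∈ F, Y e = true) then (1 : ℝ) else 0 := by
  rw [evalAt_mono]
  split_ifs with h
  · exact Finset.prod_eq_one fun e he => by simp [h e he]
  · push Not at h
    obtain ⟨e, he, hY⟩ := h
    exact Finset.prod_eq_zero he (by simp [hY])

lemma evalAt_mono_mul {n : ℕ} (F G : Finset (Pair n)) (Y : Pair n → Bool) :
    evalAt (mono F) Y * evalAt (mono G) Y = evalAt (mono (F ∪ G)) Y := by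
  simp only [evalAt_mono_eq]
  by_cases h1 : ∀ e ∈ F, Y e = true
  · by_cases h2 : ∀ e ∈ G, Y e = true
    · rw [if_pos h1, if_pos h2, if_pos]
      · norm_num
      · intro e he
        rcases mem_union.mp he with he | he
        · exact h1 e he
        · exact h2 e he
    · have h3 : ¬ ∀ e ∈ F ∪ G, Y e = true := fun h => h2 fun e he => h e (mem_union_right _ he)
      rw [if_neg h2, if_neg h3, mul_zero]
  · have h3 : ¬ ∀ e ∈ F ∪ G, Y e = true := fun h => h1 fun e he => h e (mem_union_left _ he)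
    rw [if_neg h1, if_neg h3, zero_mul]

lemma totalDegree_mono_le {n : ℕ} (F : Finset (Pair n)) : (mono F).totalDegree ≤ F.card := by
  unfold mono
  refine (MvPolynomial.totalDegree_finsetProd _ _).trans ?_
  simp [MvPolynomial.totalDegree_X]

lemma EQ_mono_plant (n : ℕ) (S : Finset (Fin n)) (F : Finset (Pair n)) :
    EQ n (fun Z => evalAt (mono F) (plant S Z))
      = (1 / 2) ^ (F.filter (fun e => ¬ e.1 ⊆ S)).card := by
  have h1 : (fun Z => evalAt (mono F) (plant S Z))
      = fun Z => ∏ e, (if e ∈ F then (if plant S Z e then (1 : ℝ) else 0) else 1) := by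
    funext Z
    rw [evalAt_mono]
    rw [Finset.prod_ite_mem, Finset.univ_inter]
  have h2 := EQ_prod n (fun (e : Pair n) (b : Bool) =>
          if e ∈ F then (if (b || decide (e.1 ⊆ S)) then (1 : ℝ) else 0) else 1)
  have h3 : EQ n (fun Z => ∏ e, (if e ∈ F then (if plant S Z e then (1 : ℝ) else 0) else 1))
      = EQ n (fun Y => ∏ e, (fun (e : Pair n) (b : Bool) =>
          if e ∈ F then (if (b || decide (e.1 ⊆ S)) then (1 : ℝ) else 0) else 1) e (Y e)) := rfl
  rw [h1, h3, h2]
  rw [← Finset.prod_const]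
  rw [Finset.prod_filter, ← Finset.prod_subset (Finset.subset_univ F)]
  · refine Finset.prod_congr rfl fun e he => ?_
    by_cases hS : e.1 ⊆ S
    · simp [he, hS]
    · simp [he, hS]
  · intro e _ he
    simp [he]

lemma EQ_mono_eq (n : ℕ) (F : Finset (Pair n)) :
    EQ n (fun Y => evalAt (mono F) Y) = (1 / 2) ^ F.card := by
  have h := EQ_mono_plant n ∅ F
  have h1 : (fun Z : Pair n → Bool => evalAt (mono F) (plant ∅ Z)) = fun Z => evalAt (mono F) Z := by
    funext Z
    congr 1
    funext e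
    unfold plant
    have : ¬ (e.1 ⊆ ∅) := by
      intro h
      have := Finset.subset_empty.mp h
      have h2 := e.2
      rw [this] at h2
      simp at h2
    simp [this]
  rw [h1] at h
  rw [h]
  congr 2
  ext e
  simp only [mem_filter, and_iff_left_iff_imp]
  intro _ h
  have := Finset.subset_empty.mp h
  have h2 := e.2
  rw [this] at h2
  simp at h2

/-- Double counting of the lost edges. -/
lemma lost_ge {n : ℕ} (F : Finset (Pair n)) (U : Finset (Fin n)) (h : ℕ)
    (hdeg : ∀ u ∈ U, 2 * h ≤ (F.filter (fun e => u ∈ e.1)).card) (S : Finset (Fin n)) :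
    h * (U \ S).card ≤ (F.filter (fun e => ¬ e.1 ⊆ S)).card := by
  have h1 : ∑ u ∈ U \ S, (F.filter (fun e => u ∈ e.1)).card
      ≤ 2 * (F.filter (fun e => ¬ e.1 ⊆ S)).card := by
    have e1 : ∑ u ∈ U \ S, (F.filter (fun e => u ∈ e.1)).card
        = ∑ e ∈ F, ((U \ S).filter (fun u => u ∈ e.1)).card := by
      simp only [Finset.card_filter]
      exact Finset.sum_comm
    rw [e1]
    have e2 : ∑ e ∈ F, ((U \ S).filter (fun u => u ∈ e.1)).card
        ≤ ∑ e ∈ F, if ¬ e.1 ⊆ S then 2 else 0 := by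
      refine Finset.sum_le_sum fun e _ => ?_
      by_cases hS : e.1 ⊆ S
      · rw [if_neg (not_not.mpr hS), Nat.le_zero, card_eq_zero]
        ext u
        simp only [mem_filter, mem_sdiff, notMem_empty, iff_false, not_and]
        intro hu hue
        exact hu.2 (hS hue)
      · rw [if_pos hS]
        have : ((U \ S).filter (fun u => u ∈ e.1)) ⊆ e.1 := by
          intro u hu; exact (mem_filter.mp hu).2
        exact (card_le_card this).trans e.2.le
    refine e2.trans ?_
    rw [← Finset.sum_filter, Finset.sum_const, smul_eq_mul, mul_comm]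
  have h2 : (U \ S).card * (2 * h) ≤ ∑ u ∈ U \ S, (F.filter (fun e => u ∈ e.1)).card := by
    rw [← smul_eq_mul, ← Finset.sum_const]
    exact Finset.sum_le_sum fun u hu => hdeg u (mem_sdiff.mp hu).1
  nlinarith

/-- Pointwise (in `S`) upper bound. -/
lemma EQ_plant_le {n : ℕ} (F : Finset (Pair n)) (U : Finset (Fin n)) (h : ℕ)
    (hdeg : ∀ u ∈ U, 2 * h ≤ (F.filter (fun e => u ∈ e.1)).card) (S : Finset (Fin n)) :
    EQ n (fun Z => evalAt (mono F) (plant S Z))
      ≤ ∏ u, (if u ∈ S then (1 : ℝ) else (if u ∈ U then (1 / 2) ^ h else 1)) := by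
  rw [EQ_mono_plant]
  have e1 : ∏ u, (if u ∈ S then (1 : ℝ) else (if u ∈ U then (1 / 2) ^ h else 1))
      = ((1 / 2 : ℝ) ^ h) ^ (U \ S).card := by
    rw [← Finset.prod_const, ← Finset.prod_subset (Finset.subset_univ (U \ S))]
    · refine Finset.prod_congr rfl fun u hu => ?_
      rw [mem_sdiff] at hu
      rw [if_neg hu.2, if_pos hu.1]
    · intro u _ hu
      rw [mem_sdiff, not_and, not_not] at hu
      by_cases hS : u ∈ S
      · rw [if_pos hS]
      · rw [if_neg hS, if_neg]
        intro hU; exact hS (hu hU)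
  rw [e1, ← pow_mul]
  exact pow_le_pow_of_le_one (by norm_num) (by norm_num) (lost_ge F U h hdeg S)

lemma EQ_plant_ge {n : ℕ} (F : Finset (Pair n)) (U : Finset (Fin n))
    (hF : ∀ e ∈ F, e.1 ⊆ U) (S : Finset (Fin n)) :
    ∏ u, (if u ∈ S then (1 : ℝ) else (if u ∈ U then 0 else 1))
      ≤ EQ n (fun Z => evalAt (mono F) (plant S Z)) := by
  by_cases hU : U ⊆ S
  · have : (F.filter (fun e => ¬ e.1 ⊆ S)) = ∅ := by
      ext e
      simp only [mem_filter, notMem_empty, iff_false, not_and, not_not]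
      intro he; exact (hF e he).trans hU
    rw [EQ_mono_plant, this]
    simp only [card_empty, pow_zero]
    refine Finset.prod_le_one (fun u _ => ?_) (fun u _ => ?_)
    · split_ifs <;> norm_num
    · split_ifs <;> norm_num
  · obtain ⟨u, hu, hS⟩ := Finset.not_subset.mp hU
    rw [Finset.prod_eq_zero (mem_univ u) (by rw [if_neg hS, if_pos hu])]
    rw [EQ_mono_plant]; positivity

/-- Expectation under the planted distribution, no root: upper bound. -/
lemma EP_mono_le {n : ℕ} {p : ℝ} (h0 : 0 ≤ p) (h1 : p ≤ 1) (F : Finset (Pair n))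
    (U : Finset (Fin n)) (h : ℕ)
    (hdeg : ∀ u ∈ U, 2 * h ≤ (F.filter (fun e => u ∈ e.1)).card) :
    EP n p (fun _ Y => evalAt (mono F) Y) ≤ (p + (1 - p) * (1 / 2) ^ h) ^ U.card := by
  rw [EP_eq]
  have e1 : ∑ S : Finset (Fin n), wt n p S * EQ n (fun Z => evalAt (mono F) (plant S Z))
      ≤ ∑ S : Finset (Fin n), wt n p S *
          ∏ u, (if u ∈ S then (1 : ℝ) else (if u ∈ U then (1 / 2) ^ h else 1)) := by
    refine Finset.sum_le_sum fun S _ => mul_le_mul_of_nonneg_left ?_ (wt_nonneg h0 h1 S)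
    exact EQ_plant_le F U h hdeg S
  refine e1.trans ?_
  rw [sum_wt_prod n p (fun _ => 1) (fun u => if u ∈ U then (1 / 2) ^ h else 1)]
  rw [← Finset.prod_const, ← Finset.prod_subset (Finset.subset_univ U)]
  · refine le_of_eq (Finset.prod_congr rfl fun u hu => ?_)
    rw [if_pos hu]; ring
  · intro u _ hu
    rw [if_neg hu]; ring

lemma EP_mono_ge {n : ℕ} {p : ℝ} (h0 : 0 ≤ p) (h1 : p ≤ 1) (F : Finset (Pair n))
    (U : Finset (Fin n)) (hF : ∀ e ∈ F, e.1 ⊆ U) :
    p ^ U.card ≤ EP n p (fun _ Y => evalAt (mono F) Y) := by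
  rw [EP_eq]
  have e1 : ∑ S : Finset (Fin n), wt n p S *
          ∏ u, (if u ∈ S then (1 : ℝ) else (if u ∈ U then 0 else 1))
      ≤ ∑ S : Finset (Fin n), wt n p S * EQ n (fun Z => evalAt (mono F) (plant S Z)) := by
    refine Finset.sum_le_sum fun S _ => mul_le_mul_of_nonneg_left ?_ (wt_nonneg h0 h1 S)
    exact EQ_plant_ge F U hF S
  refine le_trans ?_ e1
  rw [sum_wt_prod n p (fun _ => 1) (fun u => if u ∈ U then 0 else 1)]
  rw [← Finset.prod_const, ← Finset.prod_subset (Finset.subset_univ U)]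
  · refine le_of_eq (Finset.prod_congr rfl fun u hu => ?_)
    rw [if_pos hu]; ring
  · intro u _ hu
    rw [if_neg hu]; ring

/-- Rooted version, root in `S`: upper bound. -/
lemma EP_in_le {n : ℕ} {p : ℝ} (h0 : 0 ≤ p) (h1 : p ≤ 1) (F : Finset (Pair n))
    (v : Fin n) (U : Finset (Fin n)) (hv : v ∉ U) (h : ℕ)
    (hdeg : ∀ u ∈ insert v U, 2 * h ≤ (F.filter (fun e => u ∈ e.1)).card) :
    EP n p (fun S Y => (if v ∈ S then 1 else 0) * evalAt (mono F) Y)
      ≤ p * (p + (1 - p) * (1 / 2) ^ h) ^ U.card := by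
  rw [EP_eq]
  have e1 : ∑ S : Finset (Fin n), wt n p S *
        EQ n (fun Z => (if v ∈ S then 1 else 0) * evalAt (mono F) (plant S Z))
      ≤ ∑ S : Finset (Fin n), wt n p S *
          ∏ u, (if u ∈ S then (1 : ℝ) else (if u = v then 0 else (if u ∈ U then (1 / 2) ^ h else 1))) := by
    refine Finset.sum_le_sum fun S _ => mul_le_mul_of_nonneg_left ?_ (wt_nonneg h0 h1 S)
    rw [EQ_smul]
    by_cases hS : v ∈ S
    · rw [if_pos hS, one_mul]
      refine (EQ_plant_le F (insert v U) h hdeg S).trans (le_of_eq ?_)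
      refine Finset.prod_congr rfl fun u _ => ?_
      by_cases hu : u = v
      · subst hu; rw [if_pos hS, if_pos hS]
      · simp [hu]
    · rw [if_neg hS, zero_mul]
      refine Finset.prod_nonneg fun u _ => ?_
      split_ifs <;> positivity
  refine e1.trans ?_
  rw [sum_wt_prod n p (fun _ => 1) (fun u => if u = v then 0 else (if u ∈ U then (1 / 2) ^ h else 1))]
  rw [← Finset.prod_subset (Finset.subset_univ (insert v U))]
  · rw [Finset.prod_insert hv, if_pos rfl]
    have : ∏ x ∈ U, (p * 1 + (1 - p) * (if x = v then 0 else if x ∈ U then (1 / 2 : ℝ) ^ h else 1))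
        = (p + (1 - p) * (1 / 2) ^ h) ^ U.card := by
      rw [← Finset.prod_const]
      refine Finset.prod_congr rfl fun u hu => ?_
      have hne : ¬ (u = v) := fun hh => hv (by rw [← hh]; exact hu)
      rw [if_neg hne, if_pos hu]; ring
    rw [this]
    apply le_of_eq; ring
  · intro u _ hu
    rw [mem_insert, not_or] at hu
    rw [if_neg hu.1, if_neg hu.2]; ring

/-- Rooted version, root in `S`: lower bound. -/
lemma EP_in_ge {n : ℕ} {p : ℝ} (h0 : 0 ≤ p) (h1 : p ≤ 1) (F : Finset (Pair n))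
    (v : Fin n) (U : Finset (Fin n)) (hv : v ∉ U) (hF : ∀ e ∈ F, e.1 ⊆ insert v U) :
    p * p ^ U.card ≤ EP n p (fun S Y => (if v ∈ S then 1 else 0) * evalAt (mono F) Y) := by
  rw [EP_eq]
  have e1 : ∑ S : Finset (Fin n), wt n p S *
          ∏ u, (if u ∈ S then (1 : ℝ) else (if u ∈ insert v U then 0 else 1))
      ≤ ∑ S : Finset (Fin n), wt n p S *
        EQ n (fun Z => (if v ∈ S then 1 else 0) * evalAt (mono F) (plant S Z)) := by
    refine Finset.sum_le_sum fun S _ => mul_le_mul_of_nonneg_left ?_ (wt_nonneg h0 h1 S)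
    rw [EQ_smul]
    by_cases hS : v ∈ S
    · rw [if_pos hS, one_mul]
      exact EQ_plant_ge F (insert v U) hF S
    · rw [if_neg hS, zero_mul]
      rw [Finset.prod_eq_zero (mem_univ v) (by rw [if_neg hS, if_pos (mem_insert_self _ _)])]
  refine le_trans ?_ e1
  rw [sum_wt_prod n p (fun _ => 1) (fun u => if u ∈ insert v U then 0 else 1)]
  rw [← pow_succ', ← card_insert_of_notMem hv, ← Finset.prod_const,
    ← Finset.prod_subset (Finset.subset_univ (insert v U))]
  · refine le_of_eq (Finset.prod_congr rfl fun u hu => ?_)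
    rw [if_pos hu]; ring
  · intro u _ hu
    rw [if_neg hu]; ring

/-- Rooted version, root outside `S`: upper bound. -/
lemma EP_out_le {n : ℕ} {p : ℝ} (h0 : 0 ≤ p) (h1 : p ≤ 1) (F : Finset (Pair n))
    (v : Fin n) (U : Finset (Fin n)) (hv : v ∉ U) (h : ℕ)
    (hdeg : ∀ u ∈ insert v U, 2 * h ≤ (F.filter (fun e => u ∈ e.1)).card) :
    EP n p (fun S Y => (if v ∈ S then 0 else 1) * evalAt (mono F) Y)
      ≤ (1 / 2) ^ h * (p + (1 - p) * (1 / 2) ^ h) ^ U.card := by
  rw [EP_eq]
  have e1 : ∑ S : Finset (Fin n), wt n p S *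
        EQ n (fun Z => (if v ∈ S then 0 else 1) * evalAt (mono F) (plant S Z))
      ≤ ∑ S : Finset (Fin n), wt n p S *
          ∏ u, (if u ∈ S then (if u = v then 0 else (1 : ℝ)) else
            (if u ∈ insert v U then (1 / 2) ^ h else 1)) := by
    refine Finset.sum_le_sum fun S _ => mul_le_mul_of_nonneg_left ?_ (wt_nonneg h0 h1 S)
    rw [EQ_smul]
    by_cases hS : v ∈ S
    · rw [if_pos hS, zero_mul]
      refine Finset.prod_nonneg fun u _ => ?_
      split_ifs <;> positivity
    · rw [if_neg hS, one_mul]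
      refine (EQ_plant_le F (insert v U) h hdeg S).trans (le_of_eq ?_)
      refine Finset.prod_congr rfl fun u _ => ?_
      by_cases hu : u = v
      · subst hu; rw [if_neg hS, if_neg hS]
      · simp [hu]
  refine e1.trans ?_
  rw [sum_wt_prod n p (fun u => if u = v then 0 else 1)
    (fun u => if u ∈ insert v U then (1 / 2) ^ h else 1)]
  rw [← Finset.prod_subset (Finset.subset_univ (insert v U))]
  · rw [Finset.prod_insert hv, if_pos rfl, if_pos (mem_insert_self _ _)]
    have : ∏ x ∈ U, (p * (if x = v then 0 else 1) +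
          (1 - p) * (if x ∈ insert v U then (1 / 2 : ℝ) ^ h else 1))
        = (p + (1 - p) * (1 / 2) ^ h) ^ U.card := by
      rw [← Finset.prod_const]
      refine Finset.prod_congr rfl fun u hu => ?_
      have hne : ¬ (u = v) := fun hh => hv (by rw [← hh]; exact hu)
      rw [if_neg hne, if_pos (mem_insert_of_mem hu)]; ring
    rw [this]
    have hq : 0 ≤ (p + (1 - p) * (1 / 2 : ℝ) ^ h) ^ U.card := by
      have : 0 ≤ 1 - p := by linarith
      positivity
    have h2 : (p * 0 + (1 - p) * (1 / 2 : ℝ) ^ h) ≤ (1 / 2) ^ h := by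
      have : (0 : ℝ) ≤ (1 / 2) ^ h := by positivity
      nlinarith
    exact mul_le_mul_of_nonneg_right h2 hq
  · intro u _ hu
    rw [mem_insert, not_or] at hu
    rw [if_neg hu.1, if_neg (by rw [mem_insert, not_or]; exact hu)]; ring

/-! ### Cliques -/

/-- The edges inside `A`. -/
def cl {n : ℕ} (A : Finset (Fin n)) : Finset (Pair n) := Finset.univ.filter (fun e => e.1 ⊆ A)

lemma mem_cl {n : ℕ} {A : Finset (Fin n)} {e : Pair n} : e ∈ cl A ↔ e.1 ⊆ A := by simp [cl]

lemma card_cl {n : ℕ} (A : Finset (Fin n)) : (cl A).card = A.card.choose 2 := by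
  rw [← card_powersetCard]
  refine Finset.card_bij (fun e _ => e.1) ?_ ?_ ?_
  · intro e he; exact mem_powersetCard.mpr ⟨mem_cl.mp he, e.2⟩
  · intro e _ f _ h; exact Subtype.ext h
  · intro b hb
    exact ⟨⟨b, (mem_powersetCard.mp hb).2⟩, mem_cl.mpr (mem_powersetCard.mp hb).1, rfl⟩

lemma deg_cl {n : ℕ} (A : Finset (Fin n)) (u : Fin n) (hu : u ∈ A) :
    A.card - 1 ≤ ((cl A).filter (fun e => u ∈ e.1)).card := by
  rw [← card_erase_of_mem hu]
  have hne : ∀ w ∈ A.erase u, u ≠ w := fun w hw h => by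
    rw [← h] at hw; simp at hw
  rw [← card_attach]
  refine Finset.card_le_card_of_injOn
    (fun w => (⟨{u, w.1}, card_pair (hne w.1 w.2)⟩ : Pair n)) ?_ ?_
  · intro w _
    simp only [coe_filter, Set.mem_ofPred_eq, mem_cl]
    refine ⟨?_, by simp⟩
    intro x hx
    rcases mem_insert.mp hx with rfl | hx
    · exact hu
    · rw [mem_singleton.mp hx]; exact (mem_erase.mp w.2).2
  · intro w _ w' _ h
    have h' : ({u, w.1} : Finset (Fin n)) = {u, w'.1} := congrArg Subtype.val h
    have : w.1 ∈ ({u, w'.1} : Finset (Fin n)) := by rw [← h']; simp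
    rcases mem_insert.mp this with h2 | h2
    · exact absurd h2.symm (hne w.1 w.2)
    · exact Subtype.ext (mem_singleton.mp h2)

/-- Degrees in a union of two cliques. -/
lemma deg_union {n : ℕ} (A B : Finset (Fin n)) (h : ℕ) (hA : 2 * h + 1 ≤ A.card)
    (hB : 2 * h + 1 ≤ B.card) (u : Fin n) (hu : u ∈ A ∪ B) :
    2 * h ≤ ((cl A ∪ cl B).filter (fun e => u ∈ e.1)).card := by
  rcases mem_union.mp hu with hu | hu
  · have := deg_cl A u hu
    have h2 : ((cl A).filter (fun e => u ∈ e.1)).card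
        ≤ ((cl A ∪ cl B).filter (fun e => u ∈ e.1)).card :=
      card_le_card (filter_subset_filter _ subset_union_left)
    omega
  · have := deg_cl B u hu
    have h2 : ((cl B).filter (fun e => u ∈ e.1)).card
        ≤ ((cl A ∪ cl B).filter (fun e => u ∈ e.1)).card :=
      card_le_card (filter_subset_filter _ subset_union_right)
    omega

end Pool.Agent.Work.MP_d47e79_lc
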