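import Pool.Agent.Work.MP_d47e79_lc.Signed

namespace Pool.Agent.Work.MP_d47e79_lc

open Finset

section Seq

variable {n m : ℕ}

/-- Neighbours of `x` on the closed sequence `w`. -/
def nb (w : Fin (m + 1) → Fin n) (x : Fin n) : Finset (Fin n) :=
  Finset.univ.filter (fun y => ∃ a, (x = w a ∧ y = w (a + 1)) ∨ (x = w (a + 1) ∧ y = w a))

lemma mem_nb {w : Fin (m + 1) → Fin n} {x y : Fin n} :
    y ∈ nb w x ↔ ∃ a, (x = w a ∧ y = w (a + 1)) ∨ (x = w (a + 1) ∧ y = w a) := by simp [nb]

lemma card_nb_le {w : Fin (m + 1) → Fin n} (hw : Function.Injective w) (x : Fin n) :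
    (nb w x).card ≤ 2 := by
  by_cases hx : ∃ a, x = w a
  · obtain ⟨a0, rfl⟩ := hx
    have : nb w (w a0) ⊆ {w (a0 + 1), w (a0 - 1)} := by
      intro y hy
      obtain ⟨a, ha | ha⟩ := mem_nb.mp hy
      · have := hw ha.1
        subst this
        rw [ha.2]; simp
      · have := hw ha.1
        have h2 : a = a0 - 1 := by rw [this]; simp
        rw [ha.2, h2]; simp
    exact (card_le_card this).trans card_le_two
  · have : nb w x = ∅ := by
      ext y
      simp only [mem_nb, notMem_empty, iff_false]
      rintro ⟨a, ha | ha⟩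
      · exact hx ⟨a, ha.1⟩
      · exact hx ⟨a + 1, ha.1⟩
    rw [this]; simp

/-- Whether the `i`-th edge of `w'` is an edge of `w`. -/
def shb (w w' : Fin (m + 1) → Fin n) (i : Fin (m + 1)) : Bool :=
  decide (∃ a, ({w' i, w' (i + 1)} : Finset (Fin n)) = {w a, w (a + 1)})

lemma shb_spec {w w' : Fin (m + 1) → Fin n} {i : Fin (m + 1)} (h : shb w w' i = true)
    (hne : w' i ≠ w' (i + 1)) : w' (i + 1) ∈ nb w (w' i) := by
  unfold shb at h
  rw [decide_eq_true_iff] at h
  obtain ⟨a, ha⟩ := h
  rw [mem_nb]
  refine ⟨a, ?_⟩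
  have h1 : w' i ∈ ({w a, w (a + 1)} : Finset (Fin n)) := by rw [← ha]; simp
  have h2 : w' (i + 1) ∈ ({w a, w (a + 1)} : Finset (Fin n)) := by rw [← ha]; simp
  rw [mem_insert, mem_singleton] at h1 h2
  rcases h1 with h1 | h1 <;> rcases h2 with h2 | h2
  · exact absurd (h1.trans h2.symm) hne
  · exact Or.inl ⟨h1, h2⟩
  · exact Or.inr ⟨h1, h2⟩
  · exact absurd (h1.trans h2.symm) hne

lemma shb_mem {w w' : Fin (m + 1) → Fin n} {i : Fin (m + 1)} (h : shb w w' i = true) :
    w' i ∈ univ.image w := by
  unfold shb at h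
  rw [decide_eq_true_iff] at h
  obtain ⟨a, ha⟩ := h
  have h1 : w' i ∈ ({w a, w (a + 1)} : Finset (Fin n)) := by rw [← ha]; simp
  rw [mem_insert, mem_singleton] at h1
  rcases h1 with h1 | h1
  · rw [h1]; exact mem_image_of_mem w (mem_univ _)
  · rw [h1]; exact mem_image_of_mem w (mem_univ _)

/-- The internal shared vertices. -/
def intv (w w' : Fin (m + 1) → Fin n) : Finset (Fin n) :=
  (Finset.univ.filter (fun i => shb w w' i = true ∧ shb w w' (i + 1) = true)).image
    (fun i => w' (i + 1))

lemma intv_subset (w w' : Fin (m + 1) → Fin n) : intv w w' ⊆ univ.image w' := by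
  intro x hx
  obtain ⟨i, _, rfl⟩ := mem_image.mp hx
  exact mem_image_of_mem w' (mem_univ _)

lemma add_one_ne_self (hm : 1 ≤ m) (i : Fin (m + 1)) : i ≠ i + 1 := by
  intro h
  have h1 : (1 : Fin (m + 1)) = 0 := by
    have := congrArg (fun x => x - i) h
    simp only [sub_self, add_sub_cancel_left] at this
    exact this.symm
  have := congrArg Fin.val h1
  rw [Fin.val_one', Fin.val_zero] at this
  rw [Nat.mod_eq_of_lt (by omega)] at this
  omega

/-- Vertices that are not internal are forced to be in `S`. -/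
lemma forced (hm : 1 ≤ m) {w w' : Fin (m + 1) → Fin n} (hw : Function.Injective w)
    (hw' : Function.Injective w') (S : Finset (Fin n))
    (h1 : ∀ e ∈ cyc w, e ∉ cyc w' → e.1 ⊆ S) (h2 : ∀ e ∈ cyc w', e ∉ cyc w → e.1 ⊆ S)
    (u : Fin n) (hu : u ∈ univ.image w ∪ univ.image w') (hI : u ∉ intv w w') : u ∈ S := by
  by_cases hu' : u ∈ univ.image w'
  · obtain ⟨j, _, rfl⟩ := mem_image.mp hu'
    have h3 : ¬ (shb w w' (j - 1) = true ∧ shb w w' j = true) := by
      intro h
      apply hI
      unfold intv
      rw [mem_image]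
      refine ⟨j - 1, ?_, by rw [sub_add_cancel]⟩
      rw [mem_filter, sub_add_cancel]
      exact ⟨mem_univ _, h⟩
    rw [not_and_or] at h3
    have key : ∀ i, shb w w' i ≠ true → ({w' i, w' (i + 1)} : Finset (Fin n)) ⊆ S := by
      intro i hi
      have hne : w' i ≠ w' (i + 1) := fun h => add_one_ne_self hm i (hw' h)
      set e : Pair n := ⟨{w' i, w' (i + 1)}, card_pair hne⟩ with he
      have e1 : e ∈ cyc w' := mem_cyc.mpr ⟨i, rfl⟩
      have e2 : e ∉ cyc w := by
        intro h
        obtain ⟨a, ha⟩ := mem_cyc.mp h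
        apply hi
        unfold shb
        rw [decide_eq_true_iff]
        exact ⟨a, ha⟩
      exact h2 e e1 e2
    rcases h3 with h3 | h3
    · have := key (j - 1) h3
      rw [sub_add_cancel] at this
      exact this (by simp)
    · exact key j h3 (by simp)
  · rcases mem_union.mp hu with h | h
    · obtain ⟨j, _, rfl⟩ := mem_image.mp h
      have hne : w j ≠ w (j + 1) := fun h => add_one_ne_self hm j (hw h)
      set e : Pair n := ⟨{w j, w (j + 1)}, card_pair hne⟩ with he
      have e1 : e ∈ cyc w := mem_cyc.mpr ⟨j, rfl⟩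
      have e2 : e ∉ cyc w' := by
        intro h
        obtain ⟨a, ha⟩ := mem_cyc.mp h
        have : w j ∈ ({w' a, w' (a + 1)} : Finset (Fin n)) := by rw [← ha, he]; simp
        rw [mem_insert, mem_singleton] at this
        apply hu'
        rcases this with h3 | h3
        · rw [h3]; exact mem_image_of_mem w' (mem_univ _)
        · rw [h3]; exact mem_image_of_mem w' (mem_univ _)
      exact h1 e e1 e2 (by rw [he]; simp)
    · exact absurd h hu'

end Seq

/-- Pointwise factor. -/
noncomputable def fac {n m : ℕ} (c0 l0 : ℕ) (Q : Finset (Fin n)) (w w' : Fin (m + 1) → Fin n)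
    (u : Fin n) : ℝ :=
  if u ∈ intv w w' then (1 / 2) ^ c0 else
    if u ∈ univ.image w ∪ univ.image w' then 0 else
      if u ∈ Q then (1 / 2) ^ l0 else 1

lemma fac_nonneg {n m : ℕ} (c0 l0 : ℕ) (Q : Finset (Fin n)) (w w' : Fin (m + 1) → Fin n)
    (u : Fin n) : 0 ≤ fac c0 l0 Q w w' u := by
  unfold fac; split_ifs <;> positivity

lemma filter_card_mono {n : ℕ} {F G : Finset (Pair n)} (h : F ⊆ G) (u : Fin n) :
    (F.filter (fun e => u ∈ e.1)).card ≤ (G.filter (fun e => u ∈ e.1)).card :=
  card_le_card (filter_subset_filter _ h)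

/-- Pointwise (in `S`) upper bound for the product of two terms. -/
lemma EQ_pair_le {n m : ℕ} (hm : 1 ≤ m) (c0 l0 : ℕ) (hl0 : 2 * l0 ≤ m + 1)
    (R T T' V1 V2 : Finset (Fin n)) (hRV1 : Disjoint R V2) (hV : Disjoint V1 V2)
    (hT : T ⊆ V1) (hT' : T' ⊆ V1) (hcT : 2 * c0 ≤ T.card) (hcT' : 2 * c0 ≤ T'.card)
    (w w' : Fin (m + 1) → Fin n) (hw : Function.Injective w) (hw' : Function.Injective w')
    (hwV : ∀ i, w i ∈ V2) (hwV' : ∀ i, w' i ∈ V2) (S : Finset (Fin n)) :
    EQ n (fun Z => evalAt (term (cross (univ.image w) (R ∪ T)) (cyc w)) (plant S Z) *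
        evalAt (term (cross (univ.image w') (R ∪ T')) (cyc w')) (plant S Z))
      ≤ ∏ u, (if u ∈ S then (1 : ℝ) else fac c0 l0 (R ∪ (T ∪ T')) w w' u) := by
  have hRT : Disjoint (R ∪ T) V2 := by
    rw [disjoint_union_left]; exact ⟨hRV1, hV.mono_left hT⟩
  have hRT' : Disjoint (R ∪ T') V2 := by
    rw [disjoint_union_left]; exact ⟨hRV1, hV.mono_left hT'⟩
  have hWV : univ.image w ⊆ V2 := by
    intro x hx; obtain ⟨i, _, rfl⟩ := mem_image.mp hx; exact hwV i
  have hWV' : univ.image w' ⊆ V2 := by
    intro x hx; obtain ⟨i, _, rfl⟩ := mem_image.mp hx; exact hwV' i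
  have hcW : (univ.image w).card = m + 1 := by
    rw [card_image_of_injective _ hw, card_univ, Fintype.card_fin]
  have hcW' : (univ.image w').card = m + 1 := by
    rw [card_image_of_injective _ hw', card_univ, Fintype.card_fin]
  rw [EQ_term_mul]
  · split_ifs with hc
    · have hforced := forced hm hw hw' S hc.1 hc.2
      set F := cross (univ.image w) (R ∪ T) ∪ cross (univ.image w') (R ∪ T') with hF
      set U := intv w w' ∪ (R ∪ (T ∪ T')) with hU
      set h : Fin n → ℕ := fun u => if u ∈ intv w w' then c0 else l0 with hh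
      have hlost : ∑ u ∈ U \ S, h u ≤ (F.filter (fun e => ¬ e.1 ⊆ S)).card := by
        refine lost_ge_w F U h S ?_
        intro u hu
        rw [mem_sdiff] at hu
        by_cases hI : u ∈ intv w w'
        · rw [hh]; simp only [hI, if_true]
          have huW' := intv_subset w w' hI
          have h1 := deg_cross_left (hRT'.symm.mono_left hWV') huW'
          have h2 := filter_card_mono (F := cross (univ.image w') (R ∪ T')) (G := F)
            subset_union_right u
          have h3 : T'.card ≤ (R ∪ T').card := card_le_card subset_union_right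
          omega
        · rw [hh]; simp only [hI, if_false]
          have huQ : u ∈ R ∪ (T ∪ T') := by
            rcases mem_union.mp hu.1 with h | h
            · exact absurd h hI
            · exact h
          have : u ∈ R ∪ T ∨ u ∈ R ∪ T' := by
            rcases mem_union.mp huQ with h | h
            · exact Or.inl (mem_union_left _ h)
            · rcases mem_union.mp h with h | h
              · exact Or.inl (mem_union_right _ h)
              · exact Or.inr (mem_union_right _ h)
          rcases this with h | h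
          · have h1 := deg_cross_right (hRT.symm.mono_left hWV) h
            have h2 := filter_card_mono (F := cross (univ.image w) (R ∪ T)) (G := F)
              subset_union_left u
            omega
          · have h1 := deg_cross_right (hRT'.symm.mono_left hWV') h
            have h2 := filter_card_mono (F := cross (univ.image w') (R ∪ T')) (G := F)
              subset_union_right u
            omega
      have hprod : ∏ u, (if u ∈ S then (1 : ℝ) else fac c0 l0 (R ∪ (T ∪ T')) w w' u)
          = (1 / 2) ^ (∑ u ∈ U \ S, h u) := by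
        rw [← Finset.prod_pow_eq_pow_sum, ← Finset.prod_subset (Finset.subset_univ (U \ S))]
        · refine Finset.prod_congr rfl fun u hu => ?_
          rw [mem_sdiff] at hu
          rw [if_neg hu.2, hh]
          unfold fac
          by_cases hI : u ∈ intv w w'
          · simp only [hI, if_true]
          · simp only [hI, if_false]
            have huQ : u ∈ R ∪ (T ∪ T') := by
              rcases mem_union.mp hu.1 with h | h
              · exact absurd h hI
              · exact h
            have hnW : u ∉ univ.image w ∪ univ.image w' := fun h => hu.2 (hforced u h hI)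
            rw [if_neg hnW, if_pos huQ]
        · intro u _ hu
          rw [mem_sdiff, not_and, not_not] at hu
          by_cases hS : u ∈ S
          · rw [if_pos hS]
          · rw [if_neg hS]
            have huU : u ∉ U := fun h => hS (hu h)
            rw [hU, mem_union, not_or] at huU
            unfold fac
            have hnW : u ∉ univ.image w ∪ univ.image w' := fun h => hS (hforced u h huU.1)
            rw [if_neg huU.1, if_neg hnW, if_neg huU.2]
      rw [hprod]
      exact pow_le_pow_of_le_one (by norm_num) (by norm_num) hlost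
    · refine Finset.prod_nonneg fun u _ => ?_
      split_ifs
      · norm_num
      · exact fac_nonneg _ _ _ _ _ _
  · rw [disjoint_union_left, disjoint_union_right, disjoint_union_right]
    exact ⟨⟨cross_disjoint_cyc hRT hwV, cross_disjoint_cyc hRT hwV'⟩,
      ⟨cross_disjoint_cyc hRT' hwV, cross_disjoint_cyc hRT' hwV'⟩⟩

/-- Lower bound (the two sequences may have different lengths). -/
lemma EQ_pair_ge {n : ℕ} (K E K' E' : Finset (Pair n)) (hd : Disjoint (K ∪ K') (E ∪ E'))
    (U : Finset (Fin n)) (hU : ∀ e ∈ (K ∪ K') ∪ (E ∪ E'), e.1 ⊆ U) (S : Finset (Fin n)) :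
    ∏ u, (if u ∈ S then (1 : ℝ) else (if u ∈ U then 0 else 1))
      ≤ EQ n (fun Z => evalAt (term K E) (plant S Z) * evalAt (term K' E') (plant S Z)) := by
  rw [EQ_term_mul S K E K' E' hd]
  by_cases hS : U ⊆ S
  · rw [if_pos]
    · have : ((K ∪ K').filter (fun e => ¬ e.1 ⊆ S)) = ∅ := by
        ext e
        simp only [mem_filter, notMem_empty, iff_false, not_and, not_not]
        intro he; exact (hU e (mem_union_left _ he)).trans hS
      rw [this]
      simp only [card_empty, pow_zero]
      refine Finset.prod_le_one (fun u _ => ?_) (fun u _ => ?_)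
      · split_ifs <;> norm_num
      · split_ifs <;> norm_num
    · exact ⟨fun e he _ => (hU e (mem_union_right _ (mem_union_left _ he))).trans hS,
        fun e he _ => (hU e (mem_union_right _ (mem_union_right _ he))).trans hS⟩
  · obtain ⟨u, hu, hS⟩ := Finset.not_subset.mp hS
    rw [Finset.prod_eq_zero (mem_univ u) (by rw [if_neg hS, if_pos hu])]
    split_ifs <;> positivity

/-- Nonnegativity of the pair expectation. -/
lemma EQ_pair_nonneg {n : ℕ} (K E K' E' : Finset (Pair n)) (hd : Disjoint (K ∪ K') (E ∪ E'))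
    (S : Finset (Fin n)) :
    0 ≤ EQ n (fun Z => evalAt (term K E) (plant S Z) * evalAt (term K' E') (plant S Z)) := by
  rw [EQ_term_mul S K E K' E' hd]
  split_ifs <;> positivity

/-- The factor attached to the root set. -/
noncomputable def rootFac {n : ℕ} (p τ : ℝ) (R : Finset (Fin n)) (a b : Fin n → ℝ) : ℝ :=
  ∏ u ∈ R, (p * a u + (1 - p) * b u * τ)

/-- Upper bound for the weighted expectation over `S` of the pair. -/
lemma EP_pair_le {n m : ℕ} {p : ℝ} (h0 : 0 ≤ p) (h1 : p ≤ 1) (hm : 1 ≤ m) (c0 l0 : ℕ)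
    (hl0 : 2 * l0 ≤ m + 1)
    (R T T' V1 V2 : Finset (Fin n)) (hRV1 : Disjoint R V1) (hRV2 : Disjoint R V2)
    (hV : Disjoint V1 V2)
    (hT : T ⊆ V1) (hT' : T' ⊆ V1) (hcT : 2 * c0 ≤ T.card) (hcT' : 2 * c0 ≤ T'.card)
    (w w' : Fin (m + 1) → Fin n) (hw : Function.Injective w) (hw' : Function.Injective w')
    (hwV : ∀ i, w i ∈ V2) (hwV' : ∀ i, w' i ∈ V2)
    (a b : Fin n → ℝ) (ha0 : ∀ u, 0 ≤ a u) (hb0 : ∀ u, 0 ≤ b u)
    (ha : ∀ u, u ∉ R → a u = 1) (hb : ∀ u, u ∉ R → b u = 1) :
    EP n p (fun S Y => (∏ u, if u ∈ S then a u else b u) *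
        (evalAt (term (cross (univ.image w) (R ∪ T)) (cyc w)) Y *
        evalAt (term (cross (univ.image w') (R ∪ T')) (cyc w')) Y))
      ≤ rootFac p ((1 / 2) ^ l0) R a b * (p + (1 - p) * (1 / 2) ^ l0) ^ (T ∪ T').card *
        (p ^ ((univ.image w ∪ univ.image w').card - (intv w w').card) *
          (p + (1 - p) * (1 / 2) ^ c0) ^ (intv w w').card) := by
  rw [EP_eq]
  set f : Fin n → ℝ := fac c0 l0 (R ∪ (T ∪ T')) w w' with hf
  have e1 : ∑ S : Finset (Fin n), wt n p S *
        EQ n (fun Z => (∏ u, if u ∈ S then a u else b u) *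
        (evalAt (term (cross (univ.image w) (R ∪ T)) (cyc w)) (plant S Z) *
        evalAt (term (cross (univ.image w') (R ∪ T')) (cyc w')) (plant S Z)))
      ≤ ∑ S : Finset (Fin n), wt n p S *
          ∏ u, (if u ∈ S then a u else b u * f u) := by
    refine Finset.sum_le_sum fun S _ => mul_le_mul_of_nonneg_left ?_ (wt_nonneg h0 h1 S)
    rw [EQ_smul]
    have e2 := EQ_pair_le hm c0 l0 hl0 R T T' V1 V2 hRV2 hV hT hT' hcT hcT' w w' hw hw' hwV hwV' S
    have e3 : (0 : ℝ) ≤ ∏ u, (if u ∈ S then a u else b u) :=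
      Finset.prod_nonneg fun u _ => by split_ifs; exacts [ha0 u, hb0 u]
    refine (mul_le_mul_of_nonneg_left e2 e3).trans (le_of_eq ?_)
    rw [← Finset.prod_mul_distrib]
    refine Finset.prod_congr rfl fun u _ => ?_
    split_ifs
    · ring
    · rfl
  refine e1.trans ?_
  rw [sum_wt_prod n p a (fun u => b u * f u)]
  set W := univ.image w ∪ univ.image w' with hW
  have hIW : intv w w' ⊆ W := (intv_subset w w').trans subset_union_right
  have hWV : W ⊆ V2 := by
    intro x hx
    rcases mem_union.mp hx with hx | hx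
    · obtain ⟨i, _, rfl⟩ := mem_image.mp hx; exact hwV i
    · obtain ⟨i, _, rfl⟩ := mem_image.mp hx; exact hwV' i
  have hTT : T ∪ T' ⊆ V1 := union_subset hT hT'
  have d1 : Disjoint R (T ∪ T') := hRV1.mono_right hTT
  have d2 : Disjoint (R ∪ (T ∪ T')) W := by
    rw [disjoint_union_left]
    exact ⟨hRV2.mono_right hWV, (hV.mono_left hTT).mono_right hWV⟩
  rw [← Finset.prod_subset (Finset.subset_univ ((R ∪ (T ∪ T')) ∪ W))]
  · rw [Finset.prod_union d2, Finset.prod_union d1]
    have p1 : ∏ u ∈ R, (p * a u + (1 - p) * (b u * f u)) = rootFac p ((1 / 2) ^ l0) R a b := by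
      unfold rootFac
      refine Finset.prod_congr rfl fun u hu => ?_
      have hnW : u ∉ W := fun h => Finset.disjoint_left.mp d2 (mem_union_left _ hu) h
      have hnI : u ∉ intv w w' := fun h => hnW (hIW h)
      have : f u = (1 / 2) ^ l0 := by
        rw [hf]; unfold fac
        rw [if_neg hnI, if_neg hnW, if_pos (mem_union_left _ hu)]
      rw [this]; ring
    have p2 : ∏ u ∈ T ∪ T', (p * a u + (1 - p) * (b u * f u))
        = (p + (1 - p) * (1 / 2) ^ l0) ^ (T ∪ T').card := by
      rw [← Finset.prod_const]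
      refine Finset.prod_congr rfl fun u hu => ?_
      have hnR : u ∉ R := fun h => Finset.disjoint_left.mp d1 h hu
      have hnW : u ∉ W := fun h => Finset.disjoint_left.mp d2 (mem_union_right _ hu) h
      have hnI : u ∉ intv w w' := fun h => hnW (hIW h)
      have : f u = (1 / 2) ^ l0 := by
        rw [hf]; unfold fac
        rw [if_neg hnI, if_neg hnW, if_pos (mem_union_right _ hu)]
      rw [this, ha u hnR, hb u hnR]; ring
    have p3 : ∏ u ∈ W, (p * a u + (1 - p) * (b u * f u))
        = p ^ (W.card - (intv w w').card) * (p + (1 - p) * (1 / 2) ^ c0) ^ (intv w w').card := by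
      rw [← Finset.sdiff_union_of_subset hIW, Finset.prod_union Finset.sdiff_disjoint]
      rw [Finset.sdiff_union_of_subset hIW]
      congr 1
      · rw [← card_sdiff_of_subset hIW, ← Finset.prod_const]
        refine Finset.prod_congr rfl fun u hu => ?_
        rw [mem_sdiff] at hu
        have hnR : u ∉ R := fun h =>
          Finset.disjoint_left.mp d2 (mem_union_left _ h) hu.1
        have : f u = 0 := by
          rw [hf]; unfold fac
          rw [if_neg hu.2, if_pos hu.1]
        rw [this, ha u hnR]; ring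
      · rw [← Finset.prod_const]
        refine Finset.prod_congr rfl fun u hu => ?_
        have hnR : u ∉ R := fun h =>
          Finset.disjoint_left.mp d2 (mem_union_left _ h) (hIW hu)
        have : f u = (1 / 2) ^ c0 := by
          rw [hf]; unfold fac
          rw [if_pos hu]
        rw [this, ha u hnR, hb u hnR]; ring
    rw [p1, p2, p3]
  · intro u _ hu
    rw [mem_union, not_or, mem_union, not_or] at hu
    have hnI : u ∉ intv w w' := fun h => hu.2 (hIW h)
    have : f u = 1 := by
      rw [hf]; unfold fac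
      rw [if_neg hnI, if_neg hu.2, if_neg]
      rw [mem_union, not_or]; exact hu.1
    rw [this, ha u hu.1.1, hb u hu.1.1]; ring

/-- Lower bound for the weighted expectation over `S` of the pair. -/
lemma EP_pair_ge {n m m' : ℕ} {p : ℝ} (h0 : 0 ≤ p) (h1 : p ≤ 1)
    (R T T' V1 V2 : Finset (Fin n)) (hRV1 : Disjoint R V1) (hRV2 : Disjoint R V2)
    (hV : Disjoint V1 V2)
    (hT : T ⊆ V1) (hT' : T' ⊆ V1)
    (w : Fin (m + 1) → Fin n) (w' : Fin (m' + 1) → Fin n)
    (hwV : ∀ i, w i ∈ V2) (hwV' : ∀ i, w' i ∈ V2)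
    (a b : Fin n → ℝ) (ha0 : ∀ u, 0 ≤ a u) (hb0 : ∀ u, 0 ≤ b u)
    (ha : ∀ u, u ∉ R → a u = 1) (hb : ∀ u, u ∉ R → b u = 1) :
    rootFac p 0 R a b * p ^ (T ∪ T').card * p ^ (univ.image w ∪ univ.image w').card
      ≤ EP n p (fun S Y => (∏ u, if u ∈ S then a u else b u) *
        (evalAt (term (cross (univ.image w) (R ∪ T)) (cyc w)) Y *
        evalAt (term (cross (univ.image w') (R ∪ T')) (cyc w')) Y)) := by
  rw [EP_eq]
  set W := univ.image w ∪ univ.image w' with hW
  have hRT : Disjoint (R ∪ T) V2 := by
    rw [disjoint_union_left]; exact ⟨hRV2, hV.mono_left hT⟩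
  have hRT' : Disjoint (R ∪ T') V2 := by
    rw [disjoint_union_left]; exact ⟨hRV2, hV.mono_left hT'⟩
  set U := (R ∪ (T ∪ T')) ∪ W with hU
  have hd : Disjoint (cross (univ.image w) (R ∪ T) ∪ cross (univ.image w') (R ∪ T'))
      (cyc w ∪ cyc w') := by
    rw [disjoint_union_left, disjoint_union_right, disjoint_union_right]
    exact ⟨⟨cross_disjoint_cyc hRT hwV, cross_disjoint_cyc hRT hwV'⟩,
      ⟨cross_disjoint_cyc hRT' hwV, cross_disjoint_cyc hRT' hwV'⟩⟩
  have hUe : ∀ e ∈ (cross (univ.image w) (R ∪ T) ∪ cross (univ.image w') (R ∪ T')) ∪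
      (cyc w ∪ cyc w'), e.1 ⊆ U := by
    intro e he x hx
    have hq : ∀ t, t ∈ R ∪ T → t ∈ U := by
      intro t ht
      rw [hU]
      rcases mem_union.mp ht with h | h
      · simp [h]
      · simp [h]
    have hq' : ∀ t, t ∈ R ∪ T' → t ∈ U := by
      intro t ht
      rw [hU]
      rcases mem_union.mp ht with h | h
      · simp [h]
      · simp [h]
    have hqw : ∀ t, t ∈ univ.image w → t ∈ U := fun t ht =>
      mem_union_right _ (mem_union_left _ ht)
    have hqw' : ∀ t, t ∈ univ.image w' → t ∈ U := fun t ht =>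
      mem_union_right _ (mem_union_right _ ht)
    rcases mem_union.mp he with he | he
    · rcases mem_union.mp he with he | he
      · obtain ⟨y, hy, t, ht, h⟩ := mem_cross.mp he
        rw [h, mem_insert, mem_singleton] at hx
        rcases hx with rfl | rfl
        · exact hqw _ hy
        · exact hq _ ht
      · obtain ⟨y, hy, t, ht, h⟩ := mem_cross.mp he
        rw [h, mem_insert, mem_singleton] at hx
        rcases hx with rfl | rfl
        · exact hqw' _ hy
        · exact hq' _ ht
    · rcases mem_union.mp he with he | he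
      · obtain ⟨i, h⟩ := mem_cyc.mp he
        rw [h, mem_insert, mem_singleton] at hx
        rcases hx with rfl | rfl
        · exact hqw _ (mem_image_of_mem w (mem_univ _))
        · exact hqw _ (mem_image_of_mem w (mem_univ _))
      · obtain ⟨i, h⟩ := mem_cyc.mp he
        rw [h, mem_insert, mem_singleton] at hx
        rcases hx with rfl | rfl
        · exact hqw' _ (mem_image_of_mem w' (mem_univ _))
        · exact hqw' _ (mem_image_of_mem w' (mem_univ _))
  have e1 : ∑ S : Finset (Fin n), wt n p S *
          ∏ u, (if u ∈ S then a u else b u * (if u ∈ U then 0 else 1))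
      ≤ ∑ S : Finset (Fin n), wt n p S *
        EQ n (fun Z => (∏ u, if u ∈ S then a u else b u) *
        (evalAt (term (cross (univ.image w) (R ∪ T)) (cyc w)) (plant S Z) *
        evalAt (term (cross (univ.image w') (R ∪ T')) (cyc w')) (plant S Z))) := by
    refine Finset.sum_le_sum fun S _ => mul_le_mul_of_nonneg_left ?_ (wt_nonneg h0 h1 S)
    rw [EQ_smul]
    have e2 := EQ_pair_ge _ _ _ _ hd U hUe S
    have e3 : (0 : ℝ) ≤ ∏ u, (if u ∈ S then a u else b u) :=
      Finset.prod_nonneg fun u _ => by split_ifs; exacts [ha0 u, hb0 u]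
    refine le_trans (le_of_eq ?_) (mul_le_mul_of_nonneg_left e2 e3)
    rw [← Finset.prod_mul_distrib]
    refine Finset.prod_congr rfl fun u _ => ?_
    by_cases hS : u ∈ S
    · simp only [hS, if_true, mul_one]
    · simp only [hS, if_false]
  refine le_trans (le_of_eq ?_) e1
  rw [sum_wt_prod n p a (fun u => b u * (if u ∈ U then 0 else 1))]
  have hWV : W ⊆ V2 := by
    intro x hx
    rcases mem_union.mp hx with hx | hx
    · obtain ⟨i, _, rfl⟩ := mem_image.mp hx; exact hwV i
    · obtain ⟨i, _, rfl⟩ := mem_image.mp hx; exact hwV' i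
  have hTT : T ∪ T' ⊆ V1 := union_subset hT hT'
  have d1 : Disjoint R (T ∪ T') := hRV1.mono_right hTT
  have d2 : Disjoint (R ∪ (T ∪ T')) W := by
    rw [disjoint_union_left]
    exact ⟨hRV2.mono_right hWV, (hV.mono_left hTT).mono_right hWV⟩
  rw [← Finset.prod_subset (Finset.subset_univ U)]
  · rw [hU, Finset.prod_union d2, Finset.prod_union d1]
    congr 1
    · congr 1
      · unfold rootFac
        refine Finset.prod_congr rfl fun u hu => ?_
        rw [if_pos (mem_union_left _ (mem_union_left _ hu))]; ring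
      · rw [← Finset.prod_const]
        refine Finset.prod_congr rfl fun u hu => ?_
        have hnR : u ∉ R := fun h => Finset.disjoint_left.mp d1 h hu
        rw [if_pos (mem_union_left _ (mem_union_right _ hu)), ha u hnR]; ring
    · rw [← Finset.prod_const]
      refine Finset.prod_congr rfl fun u hu => ?_
      have hnR : u ∉ R := fun h => Finset.disjoint_left.mp d2 (mem_union_left _ h) hu
      rw [if_pos (mem_union_right _ hu), ha u hnR]; ring
  · intro u _ hu
    rw [if_neg hu]
    have hnR : u ∉ R := fun h => hu (by rw [hU]; simp [h])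
    rw [ha u hnR, hb u hnR]; ring

end Pool.Agent.Work.MP_d47e79_lc
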