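import Pool.Agent.Work.MP_d47e79_lc.Chain

namespace Pool.Agent.Work.MP_d47e79_lc

open Finset

section SeqSum

variable {n m : ℕ}

/-- Injective sequences with values in `V`. -/
noncomputable def injTo (n m : ℕ) (V : Finset (Fin n)) : Finset (Fin (m + 1) → Fin n) :=
  Finset.univ.filter (fun w => Function.Injective w ∧ ∀ i, w i ∈ V)

lemma mem_injTo {V : Finset (Fin n)} {w : Fin (m + 1) → Fin n} :
    w ∈ injTo n m V ↔ Function.Injective w ∧ ∀ i, w i ∈ V := by simp [injTo]

lemma card_injTo (V : Finset (Fin n)) : (injTo n m V).card = V.card.descFactorial (m + 1) := by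
  have h1 : Fintype.card (Fin (m + 1) ↪ V) = V.card.descFactorial (m + 1) := by
    rw [Fintype.card_embedding_eq]; simp
  rw [← h1, ← Fintype.card_coe]
  refine Fintype.card_congr ?_
  refine
    { toFun := fun w => ⟨fun i => ⟨w.1 i, (mem_injTo.mp w.2).2 i⟩, ?_⟩
      invFun := fun g => ⟨fun i => (g i).1, ?_⟩
      left_inv := ?_
      right_inv := ?_ }
  · intro i j h
    exact (mem_injTo.mp w.2).1 (congrArg Subtype.val h)
  · rw [mem_injTo]
    refine ⟨fun i j h => g.injective (Subtype.ext h), fun i => (g i).2⟩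
  · intro w; rfl
  · intro g; rfl

lemma card_image_inj {w : Fin (m + 1) → Fin n} (hw : Function.Injective w) :
    (univ.image w).card = m + 1 := by
  rw [card_image_of_injective _ hw, card_univ, Fintype.card_fin]

lemma shb_mem' {w w' : Fin (m + 1) → Fin n} {i : Fin (m + 1)} (h : shb w w' i = true) :
    w' (i + 1) ∈ univ.image w := by
  unfold shb at h
  rw [decide_eq_true_iff] at h
  obtain ⟨a, ha⟩ := h
  have h1 : w' (i + 1) ∈ ({w a, w (a + 1)} : Finset (Fin n)) := by rw [← ha]; simp
  rw [mem_insert, mem_singleton] at h1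
  rcases h1 with h1 | h1
  · rw [h1]; exact mem_image_of_mem w (mem_univ _)
  · rw [h1]; exact mem_image_of_mem w (mem_univ _)

lemma card_intv {w w' : Fin (m + 1) → Fin n} (hw' : Function.Injective w') :
    (intv w w').card
      = (Finset.univ.filter (fun i => shb w w' i = true ∧ shb w w' (i + 1) = true)).card := by
  unfold intv
  refine card_image_of_injective _ ?_
  intro i j h
  have := hw' h
  exact add_right_cancel this

/-- The encoding of a sequence as a chain. -/
def enc (w w' : Fin (m + 1) → Fin n) : Fin (m + 1) → Fin n × Bool := fun i => (w' i, shb w w' i)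

lemma enc_injective (w : Fin (m + 1) → Fin n) : Function.Injective (enc w) := by
  intro a b h
  funext i
  exact congrArg Prod.fst (congrFun h i)

/-- The chain weight. -/
noncomputable def FF (V2 W : Finset (Fin n)) (nbr : Fin n → Finset (Fin n)) (P z : ℝ)
    (f : Fin (m + 1) → Fin n × Bool) : ℝ :=
  g0 V2 W P z (f (Fin.last m)).2 (f 0) *
    ∏ j : Fin m, gt V2 W nbr P z (f j.castSucc) (f j.succ)

lemma FF_enc (hm : 1 ≤ m) (V2 : Finset (Fin n)) (P z : ℝ) (w w' : Fin (m + 1) → Fin n)
    (hw' : w' ∈ injTo n m V2) :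
    FF V2 (univ.image w) (nb w) P z (enc w w')
      = P ^ (univ.image w ∩ univ.image w').card * (1 + z) ^ (intv w w').card := by
  obtain ⟨hinj, hV⟩ := mem_injTo.mp hw'
  set W := univ.image w with hW
  -- left side
  have e0 : g0 V2 W P z (enc w w' (Fin.last m)).2 (enc w w' 0)
      = (if w' 0 ∈ W then P else 1) *
        (if shb w w' (Fin.last m) = true ∧ shb w w' 0 = true then 1 + z else 1) := by
    unfold g0 enc
    simp only [hV 0, if_true, one_mul]
    have : (if shb w w' (Fin.last m) = true ∨ shb w w' 0 = true then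
        (if w' 0 ∈ W then (1 : ℝ) else 0) else 1) = 1 := by
      split_ifs with h1 h2
      · rfl
      · exfalso
        rcases h1 with h1 | h1
        · have := shb_mem' h1
          rw [Fin.last_add_one] at this
          exact h2 this
        · exact h2 (shb_mem h1)
      · rfl
    rw [this, mul_one]
  have e1 : ∀ j : Fin m, gt V2 W (nb w) P z (enc w w' j.castSucc) (enc w w' j.succ)
      = (if w' j.succ ∈ W then P else 1) *
        (if shb w w' j.castSucc = true ∧ shb w w' j.succ = true then 1 + z else 1) := by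
    intro j
    unfold gt enc
    simp only [hV j.succ, if_true, one_mul]
    have a1 : (if shb w w' j.castSucc = true then
        (if w' j.succ ∈ nb w (w' j.castSucc) then (1 : ℝ) else 0) else 1) = 1 := by
      split_ifs with h1 h2
      · rfl
      · exfalso
        have hne : w' j.castSucc ≠ w' (j.castSucc + 1) := fun h =>
          add_one_ne_self hm _ (hinj h)
        have := shb_spec h1 hne
        rw [Fin.coeSucc_eq_succ] at this
        exact h2 this
      · rfl
    have a2 : (if shb w w' j.succ = true then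
        (if w' j.succ ∈ W then (1 : ℝ) else 0) else 1) = 1 := by
      split_ifs with h1 h2
      · rfl
      · exact absurd (shb_mem h1) h2
      · rfl
    rw [a1, a2, mul_one, mul_one]
  unfold FF
  rw [e0, Finset.prod_congr rfl fun j _ => e1 j, Finset.prod_mul_distrib]
  -- right side
  have r1 : P ^ (W ∩ univ.image w').card = ∏ i, (if w' i ∈ W then P else 1) := by
    rw [Finset.prod_ite, Finset.prod_const, Finset.prod_const_one, mul_one]
    congr 1
    have : W ∩ univ.image w' = (Finset.univ.filter (fun i => w' i ∈ W)).image w' := by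
      ext x
      simp only [mem_inter, mem_image, mem_univ, true_and, mem_filter]
      constructor
      · rintro ⟨h1, i, rfl⟩; exact ⟨i, h1, rfl⟩
      · rintro ⟨i, h1, rfl⟩; exact ⟨h1, i, rfl⟩
    rw [this, card_image_of_injective _ hinj]
  have r2 : (1 + z) ^ (intv w w').card
      = ∏ i, (if shb w w' i = true ∧ shb w w' (i + 1) = true then 1 + z else 1) := by
    rw [card_intv hinj, Finset.prod_ite, Finset.prod_const, Finset.prod_const_one, mul_one]
  rw [r1, r2, Fin.prod_univ_succ, Fin.prod_univ_castSucc (n := m), Fin.last_add_one]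
  simp only [Fin.coeSucc_eq_succ]
  ring

lemma sum_FF (V2 W : Finset (Fin n)) (nbr : Fin n → Finset (Fin n)) (P z : ℝ) :
    ∑ f : Fin (m + 1) → Fin n × Bool, FF V2 W nbr P z f
      = Xs V2 W nbr P z false m false + Xs V2 W nbr P z true m true := by
  have h1 : ∀ f : Fin (m + 1) → Fin n × Bool, FF V2 W nbr P z f
      = ∑ β : Bool, g0 V2 W P z β (f 0) *
          (∏ j : Fin m, gt V2 W nbr P z (f j.castSucc) (f j.succ)) *
          (if (f (Fin.last m)).2 = β then 1 else 0) := by
    intro f
    unfold FF
    rw [Fintype.sum_bool]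
    cases (f (Fin.last m)).2 <;> simp
  rw [Finset.sum_congr rfl fun f _ => h1 f, Finset.sum_comm, Fintype.sum_bool]
  rw [sum_chain (g0 V2 W P z true) (gt V2 W nbr P z) m (fun s => if s.2 = true then 1 else 0),
    sum_chain (g0 V2 W P z false) (gt V2 W nbr P z) m (fun s => if s.2 = false then 1 else 0)]
  unfold Xs
  rw [Fintype.sum_prod_type, Fintype.sum_prod_type]
  simp [add_comm]

/-- Bound for the sum over the second sequence. -/
lemma sum_seq_le (hm : 1 ≤ m) (V2 : Finset (Fin n)) (p κ : ℝ) (hp : 0 < p) (hp1 : p ≤ 1)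
    (hκ : 0 ≤ κ) (N L y ρ : ℝ) (hN : (V2.card : ℝ) = N) (hN0 : 0 < N) (hL : L = m + 1)
    (hy : y = 1 / (p * N)) (hρ : ρ = 2 * y * ((p + (1 - p) * κ) / p)) (hρ2 : ρ ≤ 1 / 2)
    (w : Fin (m + 1) → Fin n) (hw : w ∈ injTo n m V2) :
    ∑ w' ∈ injTo n m V2,
        (p ^ ((univ.image w ∪ univ.image w').card - (intv w w').card) *
          (p + (1 - p) * κ) ^ (intv w w').card)
      ≤ p ^ (2 * (m + 1)) * (N ^ (m + 1) *
        ((1 + L * y + 8 * L * y ^ 2) ^ (m + 1) * (1 + 4 * L ^ 2 * y ^ 2) + L * ρ ^ (m + 1))) := by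
  obtain ⟨hwinj, hwV⟩ := mem_injTo.mp hw
  set P := 1 / p with hP
  set z := (1 - p) * κ / p with hz
  have hP1 : 1 ≤ P := by rw [hP, le_div_iff₀ hp]; linarith
  have hz0 : 0 ≤ z := by
    rw [hz]
    have : 0 ≤ 1 - p := by linarith
    positivity
  have hq : p + (1 - p) * κ = p * (1 + z) := by rw [hz]; field_simp
  have hy' : y = P / N := by rw [hy, hP]; field_simp
  have hρ' : ρ = 2 * y * (1 + z) := by
    rw [hρ, hq]; field_simp
  have hWc : (univ.image w).card = m + 1 := card_image_inj hwinj
  have key : ∀ w' ∈ injTo n m V2,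
      p ^ ((univ.image w ∪ univ.image w').card - (intv w w').card) *
          (p + (1 - p) * κ) ^ (intv w w').card
        = p ^ (2 * (m + 1)) * FF V2 (univ.image w) (nb w) P z (enc w w') := by
    intro w' hw'
    obtain ⟨hinj, hV⟩ := mem_injTo.mp hw'
    rw [FF_enc hm V2 P z w w' hw', hq, mul_pow, ← mul_assoc, ← pow_add]
    have h1 : (intv w w').card ≤ (univ.image w ∪ univ.image w').card :=
      card_le_card ((intv_subset w w').trans subset_union_right)
    rw [Nat.sub_add_cancel h1, pow_card_union _ _ p hp.ne', hWc, card_image_inj hinj, ← hP]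
    ring
  rw [Finset.sum_congr rfl key, ← Finset.mul_sum]
  refine mul_le_mul_of_nonneg_left ?_ (by positivity)
  have hFF0 : ∀ f : Fin (m + 1) → Fin n × Bool, 0 ≤ FF V2 (univ.image w) (nb w) P z f := by
    intro f
    unfold FF
    refine mul_nonneg (g0_nonneg (by linarith) hz0 _ _) (Finset.prod_nonneg fun j _ => ?_)
    exact gt_nonneg (by linarith) hz0 _ _
  have h2 : ∑ w' ∈ injTo n m V2, FF V2 (univ.image w) (nb w) P z (enc w w')
      ≤ ∑ f : Fin (m + 1) → Fin n × Bool, FF V2 (univ.image w) (nb w) P z f := by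
    rw [← Finset.sum_image (f := fun f => FF V2 (univ.image w) (nb w) P z f) (g := enc w)
      (fun a _ b _ h => enc_injective w h)]
    exact Finset.sum_le_univ_sum_of_nonneg hFF0
  refine h2.trans ?_
  rw [sum_FF]
  have hcb := chain_bound V2 (univ.image w) (nb w) P z N L y ρ hP1 hz0
    (fun x => card_nb_le hwinj x) hN hN0 (by rw [hWc, hL]; push_cast; ring) hy' hρ' hρ2 m
  calc _ ≤ N ^ (m + 1) * (1 + L * y + 8 * L * y ^ 2) ^ (m + 1) + N ^ (m + 1) *
      (4 * L ^ 2 * y ^ 2 * (1 + L * y + 8 * L * y ^ 2) ^ (m + 1) + L * ρ ^ (m + 1)) :=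
        add_le_add hcb.1 hcb.2
    _ = _ := by ring

/-- All edges shared: at most `(m+1) 2^m` sequences. -/
lemma card_all_shared (hm : 1 ≤ m) (V2 : Finset (Fin n)) (w : Fin (m + 1) → Fin n)
    (hw : w ∈ injTo n m V2) :
    (((injTo n m V2).filter (fun w' => ∀ i, shb w w' i = true)).card : ℝ)
      ≤ (m + 1) * 2 ^ m := by
  obtain ⟨hwinj, hwV⟩ := mem_injTo.mp hw
  set A0 : Fin n → ℝ := fun x => if x ∈ univ.image w then 1 else 0 with hA0
  set A : Fin n → Fin n → ℝ := fun x y => if y ∈ nb w x then 1 else 0 with hA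
  have h1 : (((injTo n m V2).filter (fun w' => ∀ i, shb w w' i = true)).card : ℝ)
      ≤ ∑ f : Fin (m + 1) → Fin n,
        A0 (f 0) * (∏ j : Fin m, A (f j.castSucc) (f j.succ)) * (fun _ => (1 : ℝ)) (f (Fin.last m)) := by
    rw [Finset.card_eq_sum_ones, Nat.cast_sum]
    have h2 : ∀ w' ∈ (injTo n m V2).filter (fun w' => ∀ i, shb w w' i = true),
        ((1 : ℕ) : ℝ) ≤ A0 (w' 0) * (∏ j : Fin m, A (w' j.castSucc) (w' j.succ)) *
          (fun _ => (1 : ℝ)) (w' (Fin.last m)) := by
      intro w' hw'
      rw [mem_filter] at hw'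
      obtain ⟨hw'1, hsh⟩ := hw'
      obtain ⟨hinj, hV⟩ := mem_injTo.mp hw'1
      have e1 : A0 (w' 0) = 1 := by
        rw [hA0]; simp only; rw [if_pos (shb_mem (hsh 0))]
      have e2 : ∀ j : Fin m, A (w' j.castSucc) (w' j.succ) = 1 := by
        intro j
        have hne : w' j.castSucc ≠ w' (j.castSucc + 1) := fun h =>
          add_one_ne_self hm _ (hinj h)
        have := shb_spec (hsh j.castSucc) hne
        rw [Fin.coeSucc_eq_succ] at this
        rw [hA]; simp only; rw [if_pos this]
      rw [e1, Finset.prod_congr rfl fun j _ => e2 j]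
      simp
    refine (Finset.sum_le_sum h2).trans ?_
    refine Finset.sum_le_univ_sum_of_nonneg fun f => ?_
    refine mul_nonneg (mul_nonneg ?_ (Finset.prod_nonneg fun j _ => ?_)) (by norm_num)
    · rw [hA0]; simp only; split_ifs <;> norm_num
    · rw [hA]; simp only; split_ifs <;> norm_num
  refine h1.trans ?_
  rw [sum_chain A0 A m (fun _ => (1 : ℝ))]
  have h3 : ∀ j : ℕ, (∑ y, chain A0 A j y ≤ (m + 1) * 2 ^ j) ∧ ∀ y, 0 ≤ chain A0 A j y := by
    intro j
    induction j with
    | zero =>
      constructor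
      · simp only [chain, hA0]
        rw [Finset.sum_ite_mem, Finset.univ_inter, Finset.sum_const, card_image_inj hwinj]
        simp
      · intro y; simp only [chain, hA0]; split_ifs <;> norm_num
    | succ j ih =>
      obtain ⟨ih1, ih2⟩ := ih
      constructor
      · simp only [chain]
        rw [Finset.sum_comm]
        simp only [← Finset.mul_sum]
        have h4 : ∀ x, chain A0 A j x * ∑ y, A x y ≤ chain A0 A j x * 2 := by
          intro x
          refine mul_le_mul_of_nonneg_left ?_ (ih2 x)
          rw [hA]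
          simp only
          rw [Finset.sum_ite_mem, Finset.univ_inter, Finset.sum_const, nsmul_eq_mul, mul_one]
          exact_mod_cast card_nb_le hwinj x
        refine (Finset.sum_le_sum fun x _ => h4 x).trans ?_
        rw [← Finset.sum_mul, pow_succ]
        nlinarith
      · intro y
        simp only [chain]
        refine Finset.sum_nonneg fun x _ => mul_nonneg (ih2 x) ?_
        rw [hA]; simp only; split_ifs <;> norm_num
  simpa using (h3 m).1

end SeqSum

end Pool.Agent.Work.MP_d47e79_lc
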