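import Pool.Agent.Work.MP_d47e79_lc.Detect

namespace Pool.Agent.Work.MP_d47e79_lc

open Finset

/-! ### Products of edge variables and signed edge variables -/

/-- Product of the edge variables over `K` and of the signed edge variables over `E`. -/
noncomputable def term {n : ℕ} (K E : Finset (Pair n)) : MvPolynomial (Pair n) ℝ :=
  (∏ e ∈ K, MvPolynomial.X e) * ∏ e ∈ E, (MvPolynomial.C 2 * MvPolynomial.X e - MvPolynomial.C 1)

lemma evalAt_term {n : ℕ} (K E : Finset (Pair n)) (Y : Pair n → Bool) :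
    evalAt (term K E) Y
      = (∏ e ∈ K, if Y e then (1 : ℝ) else 0) * ∏ e ∈ E, if Y e then (1 : ℝ) else -1 := by
  unfold evalAt term
  rw [map_mul, map_prod, map_prod]
  congr 1
  · refine Finset.prod_congr rfl fun e _ => ?_
    simp
  · refine Finset.prod_congr rfl fun e _ => ?_
    by_cases h : Y e = true
    · simp [h]; norm_num
    · simp [h]

lemma totalDegree_term_le {n : ℕ} (K E : Finset (Pair n)) :
    (term K E).totalDegree ≤ K.card + E.card := by
  unfold term
  refine (MvPolynomial.totalDegree_mul _ _).trans (add_le_add ?_ ?_)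
  · exact totalDegree_mono_le K
  · refine (MvPolynomial.totalDegree_finsetProd _ _).trans ?_
    have : ∀ e ∈ E, (MvPolynomial.C (2 : ℝ) * MvPolynomial.X e - MvPolynomial.C 1 :
        MvPolynomial (Pair n) ℝ).totalDegree ≤ 1 := by
      intro e _
      refine (MvPolynomial.totalDegree_sub _ _).trans ?_
      refine max_le ?_ (by simp)
      exact (totalDegree_C_mul_le _ _).trans (by simp [MvPolynomial.totalDegree_X])
    calc ∑ e ∈ E, _ ≤ ∑ e ∈ E, 1 := Finset.sum_le_sum this
      _ = E.card := by simp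

/-- Expectation over the random edges of a product of two terms. -/
lemma EQ_term_mul {n : ℕ} (S : Finset (Fin n)) (K E K' E' : Finset (Pair n))
    (hd : Disjoint (K ∪ K') (E ∪ E')) :
    EQ n (fun Z => evalAt (term K E) (plant S Z) * evalAt (term K' E') (plant S Z))
      = if (∀ e ∈ E, e ∉ E' → e.1 ⊆ S) ∧ (∀ e ∈ E', e ∉ E → e.1 ⊆ S)
          then (1 / 2) ^ ((K ∪ K').filter (fun e => ¬ e.1 ⊆ S)).card else 0 := by
  set h : Pair n → Bool → ℝ := fun e b =>
    ((if e ∈ K then (if (b || decide (e.1 ⊆ S)) then (1 : ℝ) else 0) else 1) *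
     (if e ∈ E then (if (b || decide (e.1 ⊆ S)) then (1 : ℝ) else -1) else 1)) *
    ((if e ∈ K' then (if (b || decide (e.1 ⊆ S)) then (1 : ℝ) else 0) else 1) *
     (if e ∈ E' then (if (b || decide (e.1 ⊆ S)) then (1 : ℝ) else -1) else 1)) with hh
  have h1 : (fun Z => evalAt (term K E) (plant S Z) * evalAt (term K' E') (plant S Z))
      = fun Z => ∏ e, h e (Z e) := by
    funext Z
    rw [evalAt_term, evalAt_term, hh]
    simp only [Finset.prod_mul_distrib, Finset.prod_ite_mem, Finset.univ_inter]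
    rfl
  rw [h1, EQ_prod]
  have h2 : ∀ e, (h e true + h e false) / 2
      = if e.1 ⊆ S then 1 else (if e ∈ K ∪ K' then (1 / 2 : ℝ) else
          (if (e ∈ E ∧ e ∉ E') ∨ (e ∈ E' ∧ e ∉ E) then 0 else 1)) := by
    intro e
    by_cases hS : e.1 ⊆ S
    · simp [hh, hS]
    · by_cases hK : e ∈ K ∪ K'
      · have hE : e ∉ E ∪ E' := Finset.disjoint_left.mp hd hK
        rw [mem_union, not_or] at hE
        rw [if_neg hS, if_pos hK]
        rcases mem_union.mp hK with h' | h'
        · by_cases h'' : e ∈ K'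
          · simp [hh, hS, h', h'', hE.1, hE.2]
          · simp [hh, hS, h', h'', hE.1, hE.2]
        · by_cases h'' : e ∈ K
          · simp [hh, hS, h', h'', hE.1, hE.2]
          · simp [hh, hS, h', h'', hE.1, hE.2]
      · rw [if_neg hS, if_neg hK]
        rw [mem_union, not_or] at hK
        by_cases hE : e ∈ E
        · by_cases hE' : e ∈ E'
          · simp [hh, hS, hK.1, hK.2, hE, hE']
          · simp [hh, hS, hK.1, hK.2, hE, hE']
        · by_cases hE' : e ∈ E'
          · simp [hh, hS, hK.1, hK.2, hE, hE']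
          · simp [hh, hS, hK.1, hK.2, hE, hE']
  rw [Finset.prod_congr rfl fun e _ => h2 e]
  split_ifs with hc
  · rw [← Finset.prod_const, Finset.prod_filter, ← Finset.prod_subset (Finset.subset_univ (K ∪ K'))]
    · refine Finset.prod_congr rfl fun e he => ?_
      by_cases hS : e.1 ⊆ S
      · simp [hS]
      · rw [if_neg hS, if_pos he, if_pos hS]
    · intro e _ he
      by_cases hS : e.1 ⊆ S
      · rw [if_pos hS]
      · rw [if_neg hS, if_neg he, if_neg]
        rintro (⟨h3, h4⟩ | ⟨h3, h4⟩)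
        · exact hS (hc.1 e h3 h4)
        · exact hS (hc.2 e h3 h4)
  · rw [not_and_or] at hc
    have : ∃ e, ¬ e.1 ⊆ S ∧ ((e ∈ E ∧ e ∉ E') ∨ (e ∈ E' ∧ e ∉ E)) := by
      rcases hc with hc | hc
      · push Not at hc
        obtain ⟨e, h3, h4, h5⟩ := hc
        exact ⟨e, h5, Or.inl ⟨h3, h4⟩⟩
      · push Not at hc
        obtain ⟨e, h3, h4, h5⟩ := hc
        exact ⟨e, h5, Or.inr ⟨h3, h4⟩⟩
    obtain ⟨e, hS, he⟩ := this
    refine Finset.prod_eq_zero (mem_univ e) ?_
    rw [if_neg hS, if_neg, if_pos he]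
    intro hK
    have := Finset.disjoint_left.mp hd hK
    rw [mem_union, not_or] at this
    rcases he with he | he
    · exact this.1 he.1
    · exact this.2 he.1

/-- Weighted double counting of the lost edges. -/
lemma lost_ge_w {n : ℕ} (F : Finset (Pair n)) (U : Finset (Fin n)) (h : Fin n → ℕ)
    (S : Finset (Fin n))
    (hdeg : ∀ u ∈ U \ S, 2 * h u ≤ (F.filter (fun e => u ∈ e.1)).card) :
    ∑ u ∈ U \ S, h u ≤ (F.filter (fun e => ¬ e.1 ⊆ S)).card := by
  have h1 : ∑ u ∈ U \ S, (F.filter (fun e => u ∈ e.1)).card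
      ≤ 2 * (F.filter (fun e => ¬ e.1 ⊆ S)).card := by
    have e1 : ∑ u ∈ U \ S, (F.filter (fun e => u ∈ e.1)).card
        = ∑ e ∈ F, ((U \ S).filter (fun u => u ∈ e.1)).card := by
      simp only [Finset.card_filter]
      exact Finset.sum_comm
    rw [e1]
    have e2 : ∑ e ∈ F, ((U \ S).filter (fun u => u ∈ e.1)).card
        ≤ ∑ e ∈ F, if ¬ e.1 ⊆ S then 2 else 0 := by
      refine Finset.sum_le_sum fun e _ => ?_
      by_cases hS : e.1 ⊆ S
      · rw [if_neg (not_not.mpr hS), Nat.le_zero, card_eq_zero]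
        ext u
        simp only [mem_filter, mem_sdiff, notMem_empty, iff_false, not_and]
        intro hu hue
        exact hu.2 (hS hue)
      · rw [if_pos hS]
        have : ((U \ S).filter (fun u => u ∈ e.1)) ⊆ e.1 := by
          intro u hu; exact (mem_filter.mp hu).2
        exact (card_le_card this).trans e.2.le
    refine e2.trans ?_
    rw [← Finset.sum_filter, Finset.sum_const, smul_eq_mul, mul_comm]
  have h2 : ∑ u ∈ U \ S, 2 * h u ≤ ∑ u ∈ U \ S, (F.filter (fun e => u ∈ e.1)).card :=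
    Finset.sum_le_sum hdeg
  rw [← Finset.mul_sum] at h2
  omega

/-! ### The edge sets -/

/-- The edges between `A` and `T`. -/
def cross {n : ℕ} (A T : Finset (Fin n)) : Finset (Pair n) :=
  Finset.univ.filter (fun e => ∃ x ∈ A, ∃ t ∈ T, e.1 = {x, t})

lemma mem_cross {n : ℕ} {A T : Finset (Fin n)} {e : Pair n} :
    e ∈ cross A T ↔ ∃ x ∈ A, ∃ t ∈ T, e.1 = {x, t} := by simp [cross]

/-- The edges of the closed sequence `w`. -/
def cyc {n m : ℕ} (w : Fin (m + 1) → Fin n) : Finset (Pair n) :=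
  Finset.univ.filter (fun e => ∃ i, e.1 = {w i, w (i + 1)})

lemma mem_cyc {n m : ℕ} {w : Fin (m + 1) → Fin n} {e : Pair n} :
    e ∈ cyc w ↔ ∃ i, e.1 = {w i, w (i + 1)} := by simp [cyc]

lemma card_cross_le {n : ℕ} (A T : Finset (Fin n)) : (cross A T).card ≤ A.card * T.card := by
  rw [← card_product]
  have h : (cross A T).image (fun e => e.1) ⊆ (A ×ˢ T).image (fun x => {x.1, x.2}) := by
    intro s hs
    obtain ⟨e, he, rfl⟩ := mem_image.mp hs
    obtain ⟨x, hx, t, ht, h⟩ := mem_cross.mp he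
    exact mem_image.mpr ⟨(x, t), mem_product.mpr ⟨hx, ht⟩, h.symm⟩
  calc (cross A T).card = ((cross A T).image (fun e => e.1)).card :=
        (card_image_of_injective _ Subtype.val_injective).symm
    _ ≤ _ := card_le_card h
    _ ≤ _ := card_image_le

lemma card_cyc_le {n m : ℕ} (w : Fin (m + 1) → Fin n) : (cyc w).card ≤ m + 1 := by
  have h : (cyc w).image (fun e => e.1)
      ⊆ (Finset.univ : Finset (Fin (m + 1))).image (fun i => {w i, w (i + 1)}) := by
    intro s hs
    obtain ⟨e, he, rfl⟩ := mem_image.mp hs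
    obtain ⟨i, h⟩ := mem_cyc.mp he
    exact mem_image.mpr ⟨i, mem_univ _, h.symm⟩
  calc (cyc w).card = ((cyc w).image (fun e => e.1)).card :=
        (card_image_of_injective _ Subtype.val_injective).symm
    _ ≤ _ := card_le_card h
    _ ≤ _ := card_image_le
    _ = m + 1 := by simp

/-- Degree of a vertex of `A` in `cross A T`. -/
lemma deg_cross_left {n : ℕ} {A T : Finset (Fin n)} (hd : Disjoint A T) {x : Fin n} (hx : x ∈ A) :
    T.card ≤ ((cross A T).filter (fun e => x ∈ e.1)).card := by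
  have hne : ∀ t ∈ T, x ≠ t := fun t ht h => Finset.disjoint_left.mp hd hx (h ▸ ht)
  rw [← card_attach]
  refine Finset.card_le_card_of_injOn
    (fun w => (⟨{x, w.1}, card_pair (hne w.1 w.2)⟩ : Pair n)) ?_ ?_
  · intro w _
    simp only [coe_filter, Set.mem_ofPred_eq, mem_cross]
    exact ⟨⟨x, hx, w.1, w.2, rfl⟩, by simp⟩
  · intro w _ w' _ h
    have h' : ({x, w.1} : Finset (Fin n)) = {x, w'.1} := congrArg Subtype.val h
    have : w.1 ∈ ({x, w'.1} : Finset (Fin n)) := by rw [← h']; simp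
    rcases mem_insert.mp this with h2 | h2
    · exact absurd h2.symm (hne w.1 w.2)
    · exact Subtype.ext (mem_singleton.mp h2)

/-- Degree of a vertex of `T` in `cross A T`. -/
lemma deg_cross_right {n : ℕ} {A T : Finset (Fin n)} (hd : Disjoint A T) {t : Fin n} (ht : t ∈ T) :
    A.card ≤ ((cross A T).filter (fun e => t ∈ e.1)).card := by
  have hne : ∀ x ∈ A, x ≠ t := fun x hx h => Finset.disjoint_left.mp hd hx (h ▸ ht)
  rw [← card_attach]
  refine Finset.card_le_card_of_injOn
    (fun w => (⟨{w.1, t}, card_pair (hne w.1 w.2)⟩ : Pair n)) ?_ ?_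
  · intro w _
    simp only [coe_filter, Set.mem_ofPred_eq, mem_cross]
    exact ⟨⟨w.1, w.2, t, ht, rfl⟩, by simp⟩
  · intro w _ w' _ h
    have h' : ({w.1, t} : Finset (Fin n)) = {w'.1, t} := congrArg Subtype.val h
    have : w.1 ∈ ({w'.1, t} : Finset (Fin n)) := by rw [← h']; simp
    rcases mem_insert.mp this with h2 | h2
    · exact Subtype.ext h2
    · exact absurd (mem_singleton.mp h2) (hne w.1 w.2)

lemma cross_disjoint_cyc {n m : ℕ} {A T V : Finset (Fin n)} (hd : Disjoint T V)
    {w : Fin (m + 1) → Fin n} (hw : ∀ i, w i ∈ V) : Disjoint (cross A T) (cyc w) := by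
  rw [Finset.disjoint_left]
  intro e h1 h2
  obtain ⟨x, _, t, ht, h⟩ := mem_cross.mp h1
  obtain ⟨i, h'⟩ := mem_cyc.mp h2
  have : t ∈ e.1 := by rw [h]; simp
  rw [h'] at this
  rcases mem_insert.mp this with h3 | h3
  · exact Finset.disjoint_left.mp hd ht (h3 ▸ hw i)
  · exact Finset.disjoint_left.mp hd ht ((mem_singleton.mp h3) ▸ hw (i + 1))

end Pool.Agent.Work.MP_d47e79_lc
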